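import Mathlib
import Pool.Agent.Y166.GM.Defs

/-!
# Rational curves on the resolution of the variety of symmetric matrices of rank at most three

Definitions: the variety `Xsym` of the pairs of a three-dimensional subspace of `k ^ 6` and a
quadratic form on its dual up to a scalar; the spaces of morphisms of given bidegree from the
projective line to a subset of a product of two projective spaces; thin morphisms; rational maps
from the universal family.
-/

set_option autoImplicit false
set_option linter.unusedSectionVars false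

namespace Pool.Agent.Y166.SM

open MvPolynomial Pool.Agent.Y166.GM

/-- The indices of the maximal minors of a `6 × 3` matrix. -/
abbrev S3 : Type := Fin 3 → Fin 6

/-- The indices of the entries of a `6 × 6` matrix. -/
abbrev S2 : Type := Fin 6 × Fin 6

/-- The products of the maximal minors of the `6 × 3` matrix `C` and of the entries of the
symmetric `6 × 6` matrix `C Q Cᵀ`. -/
def pt {A : Type} [CommRing A] (C : Matrix (Fin 6) (Fin 3) A) (Q : Matrix (Fin 3) (Fin 3) A) :
    S3 × S2 → A :=
  fun t => (C.submatrix t.1 id).det * (C * Q * C.transpose) t.2.1 t.2.2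

/-- The projective bundle of the pairs `(W, q)`, where `W` is a three-dimensional subspace of
`k ^ 6` and `q` is a nonzero element of the symmetric square of `W` up to a scalar. With a basis of
`W`, the columns of `C`, the element `q` is a symmetric `3 × 3` matrix `Q`; the pair is given by
the Plücker coordinates of `W` and the entries of the symmetric matrix `C Q Cᵀ`, and it is
embedded by the products of these coordinates. -/
def Xsym (k : Type) [Field k] : Set (PP k (S3 × S2)) :=
  {x | ∃ (C : Matrix (Fin 6) (Fin 3) k) (Q : Matrix (Fin 3) (Fin 3) k),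
    Q.transpose = Q ∧ Rep x (pt C Q)}

section
variable {k : Type} [Field k] {σ τ : Type}

/-- The value at `s ∈ k ^ 2` of the curve with coordinates `γ`. If `γ` is the product of the
vectors of coefficients of the binary forms `l` of degree `e` and `m` of degree `d`, then the value
is the vector of the products `l i s * m j s`. -/
def biforms {e d : ℕ} (γ : (σ × Fin (e + 1)) × (τ × Fin (d + 1)) → k) (s : Fin 2 → k) :
    σ × τ → k :=
  fun t => ∑ p : Fin (e + 1), ∑ q : Fin (d + 1), γ ((t.1, p), (t.2, q)) *
    (s 0 ^ (p : ℕ) * s 1 ^ (e - (p : ℕ))) * (s 0 ^ (q : ℕ) * s 1 ^ (d - (q : ℕ)))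

/-- The space of the morphisms of bidegree `(e, d)` from the projective line to a subset `Z` of a
product of two projective spaces (embedded by the products of the homogeneous coordinates): pairs
of a vector `l` of binary forms of degree `e` and a vector `m` of binary forms of degree `d`, each
up to a scalar factor and without common zeros, with values in `Z`. The pair is given by the
products of the coefficients of `l` and `m`. -/
def MorBi (Z : Set (PP k (σ × τ))) (e d : ℕ) :
    Set (PP k ((σ × Fin (e + 1)) × (τ × Fin (d + 1)))) :=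
  {γ | (∃ (l : σ × Fin (e + 1) → k) (m : τ × Fin (d + 1) → k),
      Rep γ (fun x => l x.1 * m x.2)) ∧
    ∀ s : Fin 2 → k, s ≠ 0 → ∃ z ∈ Z, Rep z (biforms γ.rep s)}

/-- The morphism `f : Y → X` is thin: it is generically finite onto its image, but it is not both
dominant and birational. -/
def Thin {n : ℕ} (Y : Set (PP k (Fin (n + 1)))) (X : Set (PP k τ))
    (f : PP k (Fin (n + 1)) → PP k τ) : Prop :=
  GenFinite Y f ∧ ¬ (Dominant Y X f ∧ Birational Y X f)

/-- The family map `M × P ^ 1 → X`, `(γ, s) ↦ γ (s)`, of a set `M` of morphisms from the projective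
line factors rationally through `f : Y → X`: there is a rational map `g` from `M × P ^ 1` to `Y`,
given by polynomials `G j` in the coordinates of `γ` and `s` on the nonempty open subset where
the polynomial `H` does not vanish, with `f (g (γ, s)) = γ (s)`. -/
def FactorsRat {Z : Set (PP k (σ × τ))} {e d : ℕ} (M : Set (MorBi Z e d)) {n : ℕ}
    (Y : Set (PP k (Fin (n + 1)))) (f : PP k (Fin (n + 1)) → PP k (σ × τ)) : Prop :=
  ∃ (H : MvPolynomial (((σ × Fin (e + 1)) × (τ × Fin (d + 1))) ⊕ Fin 2) k)
    (G : Fin (n + 1) → MvPolynomial (((σ × Fin (e + 1)) × (τ × Fin (d + 1))) ⊕ Fin 2) k),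
    (∃ γ ∈ M, ∃ v, Rep γ.1 v ∧ ∃ s : Fin 2 → k, s ≠ 0 ∧ eval (Sum.elim v s) H ≠ 0) ∧
    ∀ γ ∈ M, ∀ v, Rep γ.1 v → ∀ s : Fin 2 → k, s ≠ 0 → eval (Sum.elim v s) H ≠ 0 →
      ∃ y ∈ Y, Rep y (fun j => eval (Sum.elim v s) (G j)) ∧ Rep (f y) (biforms v s)

/-- Data on a projective variety `X` and on the morphisms `f : Y → X` from projective varieties
`Y`: numbers `a`, `b` of `X` and of `Y` (they stand for `a(X, L)`, `b(X, L)`, `a(Y, f ^* L)` and
`b(Y, f ^* L)`), and two predicates (they stand for the condition that `f` is face contracting and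
for `κ(K_Y + a(Y, f ^* L) f ^* L) > 0`). Nothing is assumed on these data. -/
structure Invariants (X : Set (PP k τ)) where
  aX : ℝ
  bX : ℕ
  a : ∀ {n : ℕ}, Set (PP k (Fin (n + 1))) → (PP k (Fin (n + 1)) → PP k τ) → ℝ
  b : ∀ {n : ℕ}, Set (PP k (Fin (n + 1))) → (PP k (Fin (n + 1)) → PP k τ) → ℕ
  faceContracting : ∀ {n : ℕ}, Set (PP k (Fin (n + 1))) → (PP k (Fin (n + 1)) → PP k τ) → Prop
  iitakaPos : ∀ {n : ℕ}, Set (PP k (Fin (n + 1))) → (PP k (Fin (n + 1)) → PP k τ) → Prop

/-- The thin morphisms excluded by the definition of a Manin component. -/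
def Excluded {X : Set (PP k τ)} (I : Invariants X) {n : ℕ} (Y : Set (PP k (Fin (n + 1))))
    (f : PP k (Fin (n + 1)) → PP k τ) : Prop :=
  Thin Y X f ∧
    (I.aX < I.a Y f ∨
      (Dominant Y X f ∧ I.faceContracting Y f ∧
        (I.aX < I.a Y f ∨ (I.aX = I.a Y f ∧ I.bX ≤ I.b Y f))) ∨
      (Dominant Y X f ∧ I.a Y f = I.aX ∧ I.iitakaPos Y f))

/-- The Manin components of the space of morphisms of bidegree `(e, d)`: the irreducible components
whose family map factors rationally through none of the excluded morphisms from projective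
varieties. -/
def maninComponents {X : Set (PP k (σ × τ))} (I : Invariants X) (e d : ℕ) :
    Set (Set (MorBi X e d)) :=
  {M | M ∈ irreducibleComponents (MorBi X e d) ∧
    ∀ (n : ℕ) (Y : Set (PP k (Fin (n + 1)))) (f : PP k (Fin (n + 1)) → PP k (σ × τ)),
      IsProjVar Y → IsMorphism Y f → Set.MapsTo f Y X → Excluded I Y f → ¬ FactorsRat M Y f}

end

end Pool.Agent.Y166.SM
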