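import Mathlib
import Pool.Agent.Y166.SM.Defs

/-!
# Statements of the steps
-/

set_option autoImplicit false
set_option linter.unusedSectionVars false

namespace Pool.Agent.Y166.SM

open MvPolynomial Pool.Agent.Y166.GM

/-- The split symmetric form. -/
def Jm (A : Type) [CommRing A] : Matrix (Fin 3) (Fin 3) A := !![0, 0, 1; 0, -2, 0; 1, 0, 0]

/-- Normal form of invertible symmetric matrices. -/
def StmNF : Prop := ∀ (k : Type) [Field k] [IsAlgClosed k] [CharZero k]
  (Q : Matrix (Fin 3) (Fin 3) k), Q.transpose = Q → Q.det ≠ 0 →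
    ∃ U : Matrix (Fin 3) (Fin 3) k, U.det ≠ 0 ∧ Q = U * Jm k * U.transpose

/-- A `6 × 3` matrix with trivial kernel has a nonzero maximal minor. -/
def StmMinor : Prop := ∀ (k : Type) [Field k] (C : Matrix (Fin 6) (Fin 3) k),
  (∀ x : Fin 3 → k, C.mulVec x = 0 → x = 0) → ∃ a : S3, (C.submatrix a id).det ≠ 0

section
variable {k : Type} [Field k]

/-- The value at `t` of a curve of symmetric matrices. -/
def Mt (M0 M1 M2 : Matrix (Fin 6) (Fin 6) k) (t : k) : Matrix (Fin 6) (Fin 6) k :=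
  M0 + t • M1 + t ^ 2 • M2

/-- The value at `t` of a vector of polynomials of degree three. -/
def Lt (l : S3 × Fin 4 → k) (t : k) (a : S3) : k := ∑ p : Fin 4, l (a, p) * t ^ (p : ℕ)

/-- A curve of bidegree `(3, 2)` on `Xsym`. -/
structure CurveIn (l : S3 × Fin 4 → k) (M0 M1 M2 : Matrix (Fin 6) (Fin 6) k) : Prop where
  fin : ∀ t : k, ∃ (C : Matrix (Fin 6) (Fin 3) k) (Q : Matrix (Fin 3) (Fin 3) k),
    Q.transpose = Q ∧ (∀ a : S3, Lt l t a = (C.submatrix a id).det) ∧
    (∃ a : S3, (C.submatrix a id).det ≠ 0) ∧ Mt M0 M1 M2 t = C * Q * C.transpose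
  inf : ∃ (C : Matrix (Fin 6) (Fin 3) k) (Q : Matrix (Fin 3) (Fin 3) k),
    Q.transpose = Q ∧ (∀ a : S3, l (a, 3) = (C.submatrix a id).det) ∧
    (∃ a : S3, (C.submatrix a id).det ≠ 0) ∧ M2 = C * Q * C.transpose

/-- A curve of degree two of symmetric matrices of rank three. -/
structure Full (M0 M1 M2 : Matrix (Fin 6) (Fin 6) k) : Prop where
  fin : ∀ t : k, ∃ (C : Matrix (Fin 6) (Fin 3) k) (Q : Matrix (Fin 3) (Fin 3) k),
    Q.transpose = Q ∧ Q.det ≠ 0 ∧ (∃ a : S3, (C.submatrix a id).det ≠ 0) ∧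
    Mt M0 M1 M2 t = C * Q * C.transpose
  inf : ∃ (C : Matrix (Fin 6) (Fin 3) k) (Q : Matrix (Fin 3) (Fin 3) k),
    Q.transpose = Q ∧ Q.det ≠ 0 ∧ (∃ a : S3, (C.submatrix a id).det ≠ 0) ∧
    M2 = C * Q * C.transpose

end

/-- The ratio of the minors of the symmetric matrices to the products of the Plücker coordinates is
constant. -/
def StmKappa : Prop := ∀ (k : Type) [Field k] [IsAlgClosed k] [CharZero k]
  (l : S3 × Fin 4 → k) (M0 M1 M2 : Matrix (Fin 6) (Fin 6) k), CurveIn l M0 M1 M2 →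
    ∃ κ : k, (∀ (t : k) (a b : S3), ((Mt M0 M1 M2 t).submatrix a b).det =
        κ * Lt l t a * Lt l t b) ∧
      ∀ a b : S3, (M2.submatrix a b).det = κ * l (a, 3) * l (b, 3)

/-- Curves of rank three without a common kernel vector of `M0` and `M2`. -/
def StmS0 : Prop := ∀ (k : Type) [Field k] [IsAlgClosed k] [CharZero k]
  (M0 M1 M2 : Matrix (Fin 6) (Fin 6) k), Full M0 M1 M2 →
    (∀ x : Fin 6 → k, M0.mulVec x = 0 → M2.mulVec x = 0 → x = 0) →
    ∃ (C0 C1 : Matrix (Fin 6) (Fin 3) k) (Q : Matrix (Fin 3) (Fin 3) k),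
      Q.transpose = Q ∧ Q.det ≠ 0 ∧ M0 = C0 * Q * C0.transpose ∧
      M1 = C0 * Q * C1.transpose + C1 * Q * C0.transpose ∧ M2 = C1 * Q * C1.transpose

/-- Curves of rank three with a common kernel vector of `M0` and `M2`, but no common kernel vector
of `M0`, `M1` and `M2`. -/
def StmS1 : Prop := ∀ (k : Type) [Field k] [IsAlgClosed k] [CharZero k]
  (M0 M1 M2 : Matrix (Fin 6) (Fin 6) k), Full M0 M1 M2 →
    (∃ x : Fin 6 → k, x ≠ 0 ∧ M0.mulVec x = 0 ∧ M2.mulVec x = 0) →
    (∀ y : Fin 6 → k, M0.mulVec y = 0 → M1.mulVec y = 0 → M2.mulVec y = 0 → y = 0) →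
    ∃ f : Fin 6 → Fin 6 → k,
      (∀ i j, M0 i j = f 0 i * f 5 j + f 5 i * f 0 j - 2 * (f 3 i * f 3 j)) ∧
      (∀ i j, M1 i j = f 1 i * f 5 j + f 5 i * f 1 j - 2 * (f 3 i * f 4 j + f 4 i * f 3 j)) ∧
      (∀ i j, M2 i j = f 2 i * f 5 j + f 5 i * f 2 j - 2 * (f 4 i * f 4 j))

section
variable {A : Type} [CommRing A]

/-- The inclusion of the first three indices. -/
def up (i : Fin 3) : Fin 6 := ⟨i, by omega⟩

/-- The inclusion of the last three indices. -/
def lo (i : Fin 3) : Fin 6 := ⟨i + 3, by omega⟩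

/-- The matrix which is singular on one of the two components. -/
def Gmat (M0 M1 M2 : Matrix (Fin 6) (Fin 6) A) : Matrix (Fin 3) (Fin 3) A :=
  (2 * ((M0.submatrix up up).det * (M2.submatrix up up).det)) • M1.submatrix up lo -
    ((M2.submatrix up up).det • (M1.submatrix up up * (M0.submatrix up up).adjugate *
      M0.submatrix up lo) +
    (M0.submatrix up up).det • (M1.submatrix up up * (M2.submatrix up up).adjugate *
      M2.submatrix up lo))

/-- The function which separates the two components. -/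
def Efun (M0 M1 M2 : Matrix (Fin 6) (Fin 6) A) : A :=
  (M0.submatrix up up).det * (M2.submatrix up up).det * (Gmat M0 M1 M2).det

end

/-- The function `Efun` vanishes on the first component. -/
def StmE0 : Prop := ∀ (k : Type) [Field k] [CharZero k]
  (C0 C1 : Matrix (Fin 6) (Fin 3) k) (Q : Matrix (Fin 3) (Fin 3) k), Q.transpose = Q →
    Efun (C0 * Q * C0.transpose) (C0 * Q * C1.transpose + C1 * Q * C0.transpose)
      (C1 * Q * C1.transpose) = 0

/-- The vectors `f 0, ..., f 5` of a special curve of the second kind (the rows of the matrix). -/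
def fspec (k : Type) [Field k] : Matrix (Fin 6) (Fin 6) k :=
  !![1, 0, 0, 0, 0, 0;
     0, 0, 0, 0, 0, 1;
     1, 0, 0, 1, 0, 0;
     0, 1, 0, 0, 0, 0;
     1, 1, 0, 0, 1, 0;
     0, 0, 1, 0, 0, 0]

/-- The function `Efun` does not vanish on the second component. -/
def StmE1 : Prop := ∀ (k : Type) [Field k] [CharZero k],
  (fspec k).det ≠ 0 ∧
  Efun
    (Matrix.of fun i j => fspec k 0 i * fspec k 5 j + fspec k 5 i * fspec k 0 j -
      2 * (fspec k 3 i * fspec k 3 j))
    (Matrix.of fun i j => fspec k 1 i * fspec k 5 j + fspec k 5 i * fspec k 1 j -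
      2 * (fspec k 3 i * fspec k 4 j + fspec k 4 i * fspec k 3 j))
    (Matrix.of fun i j => fspec k 2 i * fspec k 5 j + fspec k 5 i * fspec k 2 j -
      2 * (fspec k 4 i * fspec k 4 j)) ≠ 0

/-- The variety `Xsym` is closed. -/
def StmClosed : Prop := ∀ (k : Type) [Field k], IsClosed (Xsym k)

section chart

/-- The indices of the affine coordinates of the chart. -/
abbrev Rho : Type := (Fin 3 × Fin 3) ⊕ Fin 5

/-- The index of the first minor and of the first entry. -/
def jz : S3 × S2 := (![0, 1, 2], (0, 0))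

/-- The indices of the entries of a symmetric `3 × 3` matrix other than the first one. -/
def symIdx : Fin 5 → S2 := ![(0, 1), (0, 2), (1, 1), (1, 2), (2, 2)]

/-- The homogeneous coordinates which give the affine coordinates of the chart. -/
def rrX : Rho → S3 × S2
  | .inl (i, j) => (Function.update ![0, 1, 2] i (lo j), (0, 0))
  | .inr p => (![0, 1, 2], symIdx p)

variable {A : Type} [CommRing A]

/-- The basis of the subspace in the chart. -/
def Nmat (x : Rho → A) : Matrix (Fin 6) (Fin 3) A :=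
  !![1, 0, 0;
     0, 1, 0;
     0, 0, 1;
     x (.inl (0, 0)), x (.inl (1, 0)), x (.inl (2, 0));
     x (.inl (0, 1)), x (.inl (1, 1)), x (.inl (2, 1));
     x (.inl (0, 2)), x (.inl (1, 2)), x (.inl (2, 2))]

/-- The quadratic form in the chart. -/
def Amat (x : Rho → A) : Matrix (Fin 3) (Fin 3) A :=
  !![1, x (.inr 0), x (.inr 1);
     x (.inr 0), x (.inr 2), x (.inr 3);
     x (.inr 1), x (.inr 3), x (.inr 4)]

end chart

/-- The affine chart of `Xsym`. -/
def StmChart : Prop := ∀ (k : Type) [Field k] (x : PP k (S3 × S2)), x ∈ Xsym k →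
  ∀ V : S3 × S2 → k, Rep x V → V jz ≠ 0 → ∀ j,
    V j = V jz * pt (Nmat fun i => V (rrX i) / V jz) (Amat fun i => V (rrX i) / V jz) j

/-- Algebraic independence by counting. -/
def StmInd : Prop := ∀ (k W ι ρ : Type) [Field k] [Field W] [Algebra k W] [Finite ι] [Finite ρ]
  (t : ι → W) (x : ρ → W), AlgebraicIndependent k t → Nat.card ρ ≤ Nat.card ι →
    (∀ i, t i ∈ IntermediateField.adjoin k (Set.range x)) → AlgebraicIndependent k x

/-- A vector of polynomials which is proportional to the vector of the values at `- X` is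
proportional to a vector of polynomials in `X ^ 2`. -/
def StmEven : Prop := ∀ (A : Type) [CommRing A] [IsDomain A] [CharZero A] (n : ℕ)
  (P : Fin (n + 1) → Polynomial A), (∃ i, P i ≠ 0) →
    (∀ i j, P i * (P j).comp (- Polynomial.X) = P j * (P i).comp (- Polynomial.X)) →
    ∃ H : Fin (n + 1) → Polynomial A, (∃ i, H i ≠ 0) ∧
      ∀ i j, P i * (H j).comp (Polynomial.X ^ 2) = P j * (H i).comp (Polynomial.X ^ 2)

/-- The matrix of the substitution `(x, y) ↦ (p x + r y, q x + t y)` in binary quadratic forms. -/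
def rhoM {A : Type} [CommRing A] (p q r t : A) : Matrix (Fin 3) (Fin 3) A :=
  !![p ^ 2, p * r, r ^ 2; 2 * p * q, p * t + q * r, 2 * r * t; q ^ 2, q * t, t ^ 2]

/-- The substitution is a similitude. -/
def StmRho : Prop := ∀ (A : Type) [CommRing A] (p q r t : A),
  rhoM p q r t * Jm A * (rhoM p q r t).transpose = (p * t - q * r) ^ 2 • Jm A ∧
    (rhoM p q r t).det = (p * t - q * r) ^ 3

end Pool.Agent.Y166.SM
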