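import Mathlib
import Pool.Agent.Y166.GM.Cone
import Pool.Agent.Y166.GM.Chev
import Pool.Agent.Y166.GM.FinalB

/-!
# A generically finite morphism to a variety with an affine chart: algebraicity
-/

set_option autoImplicit false
set_option linter.unusedSectionVars false
set_option linter.deprecated false
set_option linter.style.haveILetI false

namespace Pool.Agent.Y166.SM

open MvPolynomial Pool.Agent.Y166.GM

section
variable {k : Type} [Field k]

/-- A coordinate chart of a subset of a projective space: on the open subset where the coordinate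
with index `j0` does not vanish, all the affine coordinates are given by polynomials in the
affine coordinates with the indices `rr i`. -/
structure Chart {τ : Type} (X : Set (PP k τ)) (ρ : Type) where
  j0 : τ
  rr : ρ → τ
  vv : τ → MvPolynomial ρ k
  rel : ∀ x ∈ X, ∀ V : τ → k, Rep x V → V j0 ≠ 0 →
    ∀ j, V j = V j0 * eval (fun i => V (rr i) / V j0) (vv j)

theorem FLa [IsAlgClosed k] {W τ ρ : Type} [Finite ρ] [Field W] [Algebra k W] {n : ℕ}
    {X : Set (PP k τ)} (ch : Chart X ρ)
    {Y : Set (PP k (Fin (n + 1)))} (hYc : IsClosed Y) (hYi : IsIrreducible Y)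
    {f : PP k (Fin (n + 1)) → PP k τ} (hfX : Set.MapsTo f Y X) (hfin : GenFinite Y f)
    {m : ℕ} (F : τ → MvPolynomial (Fin (n + 1)) k) (hF : ∀ j, (F j).IsHomogeneous m)
    {mP : ℕ} (P : MvPolynomial (Fin (n + 1)) k) (hP : P.IsHomogeneous mP)
    (hrep : ∀ z ∈ Y, eval z.rep P ≠ 0 → Rep (f z) (fun j => eval z.rep (F j)))
    (i0 : Fin (n + 1)) (y : Fin (n + 1) → W)
    (hy : ∀ Q ∈ coneIdeal Y, aeval y Q = 0) (hP0 : aeval y P ≠ 0) (hi0 : y i0 ≠ 0)
    (hF0 : aeval y (F ch.j0) ≠ 0)
    (hind : AlgebraicIndependent k (fun i => aeval y (F (ch.rr i)) / aeval y (F ch.j0))) :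
    (∀ i, IsAlgebraic (IntermediateField.adjoin k
      (Set.range (fun i => aeval y (F (ch.rr i)) / aeval y (F ch.j0)))) (y i / y i0)) ∧
    ∀ (l : ℕ) (Q : MvPolynomial (Fin (n + 1)) k), Q.IsHomogeneous l → aeval y Q = 0 →
      Q ∈ coneIdeal Y := by
  classical
  haveI : Infinite k := IsAlgClosed.instInfinite
  haveI hprime : (coneIdeal Y).IsPrime := coneIdeal_prime hYi
  set S := MvPolynomial (Fin (n + 1)) k ⧸ coneIdeal Y with hS
  haveI : IsDomain S := Ideal.Quotient.isDomain _
  have hmem : MvPolynomial.X i0 * F ch.j0 ∉ coneIdeal Y := by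
    intro h
    have := hy _ h
    rw [map_mul, aeval_X] at this
    exact mul_ne_zero hi0 hF0 this
  set a : S := Ideal.Quotient.mk (coneIdeal Y) (MvPolynomial.X i0 * F ch.j0) with ha
  have ha0 : a ≠ 0 := by
    intro h
    exact hmem (Ideal.Quotient.eq_zero_iff_mem.1 h)
  set B := Localization.Away a with hB
  have hle : Submonoid.powers a ≤ nonZeroDivisors S :=
    powers_le_nonZeroDivisors_of_noZeroDivisors ha0
  haveI : IsDomain B := IsLocalization.isDomain_localization hle
  haveI : Algebra.FiniteType k S :=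
    Algebra.FiniteType.of_surjective (Ideal.Quotient.mkₐ k (coneIdeal Y))
      (Ideal.Quotient.mkₐ_surjective k _)
  have hft : Algebra.FiniteType k B := inferInstance
  let al : MvPolynomial (Fin (n + 1)) k →ₐ[k] B :=
    (IsScalarTower.toAlgHom k S B).comp (Ideal.Quotient.mkₐ k (coneIdeal Y))
  have hal : ∀ Q, al Q = 0 ↔ Q ∈ coneIdeal Y := by
    intro Q
    have h1 : al Q = algebraMap S B (Ideal.Quotient.mk _ Q) := rfl
    rw [h1]
    rw [← Ideal.Quotient.eq_zero_iff_mem]
    constructor
    · intro h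
      exact (IsLocalization.injective B hle) (by rw [h, map_zero])
    · intro h
      rw [h, map_zero]
  let u : B := IsLocalization.Away.invSelf a
  have hu : al (MvPolynomial.X i0) * al (F ch.j0) * u = 1 := by
    rw [← map_mul]
    exact IsLocalization.Away.mul_invSelf a
  have hu0 : u ≠ 0 := right_ne_zero_of_mul_eq_one hu
  -- the map to `W`
  let φS : S →ₐ[k] W := Ideal.Quotient.liftₐ (coneIdeal Y) (aeval y) hy
  have hφS : IsUnit (φS a) := by
    rw [isUnit_iff_ne_zero]
    show aeval y (MvPolynomial.X i0 * F ch.j0) ≠ 0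
    rw [map_mul, aeval_X]
    exact mul_ne_zero hi0 hF0
  let φ : B →ₐ[k] W :=
    { IsLocalization.Away.lift (S := B) a (g := (φS : S →+* W)) hφS with
      commutes' := fun r => by
        have h1 : algebraMap k B r = algebraMap S B (algebraMap k S r) :=
          IsScalarTower.algebraMap_apply k S B r
        show IsLocalization.Away.lift (S := B) a (g := (φS : S →+* W)) hφS (algebraMap k B r) = _
        rw [h1, IsLocalization.Away.lift_eq]
        exact φS.commutes r }
  have hφal : ∀ Q, φ (al Q) = aeval y Q := by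
    intro Q
    show IsLocalization.Away.lift (S := B) a (g := (φS : S →+* W)) hφS
      (algebraMap S B (Ideal.Quotient.mk _ Q)) = _
    rw [IsLocalization.Away.lift_eq]
    rfl
  have hφu : φ u = (y i0 * aeval y (F ch.j0))⁻¹ := by
    have h1 := congrArg φ hu
    rw [map_mul, map_mul, hφal, hφal, map_one, aeval_X] at h1
    exact eq_inv_of_mul_eq_one_right h1
  let ξ : ρ → B := fun i => al (F (ch.rr i)) * al (MvPolynomial.X i0) * u
  let z : Fin (n + 1) → B := fun i => al (MvPolynomial.X i) * al (F ch.j0) * u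
  have hφξ : (fun i => φ (ξ i)) = fun i => aeval y (F (ch.rr i)) / aeval y (F ch.j0) := by
    funext i
    show φ (al (F (ch.rr i)) * al (MvPolynomial.X i0) * u) = _
    rw [map_mul, map_mul, hφal, hφal, hφu, aeval_X]
    field_simp
  have hφz : ∀ i, φ (z i) = y i / y i0 := by
    intro i
    show φ (al (MvPolynomial.X i) * al (F ch.j0) * u) = _
    rw [map_mul, map_mul, hφal, hφal, hφu, aeval_X]
    field_simp
  have hindξ : AlgebraicIndependent k ξ := by
    apply AlgebraicIndependent.of_comp φ
    have h1 : (φ ∘ ξ) = fun i => aeval y (F (ch.rr i)) / aeval y (F ch.j0) := hφξ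
    rw [h1]
    exact hind
  -- points
  have hpt : ∀ (χ : B →ₐ[k] k) Q, eval (fun i => χ (al (MvPolynomial.X i))) Q = χ (al Q) := by
    intro χ Q
    have h : (aeval (fun i => χ (al (MvPolynomial.X i))) : MvPolynomial (Fin (n + 1)) k →ₐ[k] k) =
        χ.comp al := by
      apply MvPolynomial.algHom_ext
      intro i
      rw [aeval_X]
      rfl
    have h2 := congrArg (fun φ : MvPolynomial (Fin (n + 1)) k →ₐ[k] k => φ Q) h
    rw [← aeval_eq_eval]
    exact h2
  -- the open set with finite fibres
  obtain ⟨U, hU, ⟨y0, hy0U, hy0Y⟩, hUfin⟩ := hfin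
  obtain ⟨mU, PU, hPU, hPU0, hPUU⟩ := exists_basic hU hy0U
  set H : B := al (PU * P) with hHdef
  have hH : H ≠ 0 := by
    intro h
    rcases hprime.mem_or_mem ((hal _).1 h) with h1 | h1
    · exact hPU0 (h1 y0 hy0Y _ (rep_rep y0))
    · exact hP0 (hy _ h1)
  have hpoint : ∀ χ : B →ₐ[k] k, χ H ≠ 0 → ∃ w : PP k (Fin (n + 1)),
      Rep w (fun i => χ (al (MvPolynomial.X i))) ∧ w ∈ U ∧ w ∈ Y ∧
      Rep (f w) (fun j => χ (al (F j))) := by
    intro χ hχ
    have h1 : χ (al (MvPolynomial.X i0)) ≠ 0 := by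
      intro h
      have h2 := congrArg χ hu
      rw [map_mul, map_mul, h, zero_mul, zero_mul, map_one] at h2
      exact zero_ne_one h2
    obtain ⟨w, hw⟩ := exists_rep (k := k) (v := fun i => χ (al (MvPolynomial.X i))) (by
      intro h
      exact h1 (congrFun h i0))
    have h2 : χ (al PU) ≠ 0 ∧ χ (al P) ≠ 0 := by
      rw [hHdef, map_mul, map_mul] at hχ
      exact ⟨left_ne_zero_of_mul hχ, right_ne_zero_of_mul hχ⟩
    have h3 : w ∈ Y := by
      apply mem_of_closed hYc hw
      intro l Q _ hQ
      rw [hpt, (hal Q).2 hQ, map_zero]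
    refine ⟨w, hw, ?_, h3, ?_⟩
    · apply hPUU
      intro h
      apply h2.1
      rw [← hpt]
      exact (zero_iff hw hPU).2 h
    · have h4 : eval w.rep P ≠ 0 := by
        intro h
        apply h2.2
        rw [← hpt]
        exact (zero_iff hw hP).2 h
      have h5 := (hw.eval_iff hF).1 (hrep w h3 h4)
      have h6 : (fun j => eval (fun i => χ (al (MvPolynomial.X i))) (F j)) = fun j => χ (al (F j)) := by
        funext j
        rw [hpt]
      rw [h6] at h5
      exact h5
  have hF0χ : ∀ χ : B →ₐ[k] k, χ (al (F ch.j0)) ≠ 0 := by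
    intro χ h
    have h2 := congrArg χ hu
    rw [map_mul, map_mul, h, mul_zero, zero_mul, map_one] at h2
    exact zero_ne_one h2
  have hX0χ : ∀ χ : B →ₐ[k] k, χ (al (MvPolynomial.X i0)) ≠ 0 := by
    intro χ h
    have h2 := congrArg χ hu
    rw [map_mul, map_mul, h, zero_mul, zero_mul, map_one] at h2
    exact zero_ne_one h2
  have huχ : ∀ χ : B →ₐ[k] k, χ u = (χ (al (MvPolynomial.X i0)) * χ (al (F ch.j0)))⁻¹ := by
    intro χ
    have h2 := congrArg χ hu
    rw [map_mul, map_mul, map_one] at h2
    exact eq_inv_of_mul_eq_one_right h2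
  have hξχ : ∀ (χ : B →ₐ[k] k) i, χ (ξ i) = χ (al (F (ch.rr i))) / χ (al (F ch.j0)) := by
    intro χ i
    show χ (al (F (ch.rr i)) * al (MvPolynomial.X i0) * u) = _
    rw [map_mul, map_mul, huχ]
    have h1 := hF0χ χ
    have h2 := hX0χ χ
    field_simp
  have hzχ : ∀ (χ : B →ₐ[k] k) i, χ (z i) = χ (al (MvPolynomial.X i)) / χ (al (MvPolynomial.X i0)) := by
    intro χ i
    show χ (al (MvPolynomial.X i) * al (F ch.j0) * u) = _
    rw [map_mul, map_mul, huχ]
    have h1 := hF0χ χ
    have h2 := hX0χ χ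
    field_simp
  have halg : ∀ i, IsAlgebraic (Algebra.adjoin k (Set.range ξ)) (z i) := by
    intro i
    have h1 := alg_of_finite (k := k) hft ξ (z i) H hH (by
      intro χ0 hχ0
      obtain ⟨w0, hw0, hw0U, hw0Y, hfw0⟩ := hpoint χ0 hχ0
      refine ((hUfin w0 ⟨hw0U, hw0Y⟩).image fun w => w.rep i / w.rep i0).subset ?_
      rintro s ⟨χ, hχ, hχξ, rfl⟩
      obtain ⟨w, hw, hwU, hwY, hfw⟩ := hpoint χ hχ
      refine ⟨w, ⟨⟨hwU, hwY⟩, ?_⟩, ?_⟩
      · have h2 := ch.rel _ (hfX hwY) _ hfw (hF0χ χ)
        have h3 := ch.rel _ (hfX hw0Y) _ hfw0 (hF0χ χ0)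
        refine (hfw0.of_smul hfw (c := χ (al (F ch.j0)) / χ0 (al (F ch.j0)))
          (div_ne_zero (hF0χ χ) (hF0χ χ0)) ?_).symm
        funext j
        show χ (al (F j)) = χ (al (F ch.j0)) / χ0 (al (F ch.j0)) * χ0 (al (F j))
        rw [h2 j, h3 j]
        have h4 : (fun i => χ (al (F (ch.rr i))) / χ (al (F ch.j0))) =
            fun i => χ0 (al (F (ch.rr i))) / χ0 (al (F ch.j0)) := by
          funext i
          rw [← hξχ, ← hξχ, hχξ]
        rw [h4, ← mul_assoc, div_mul_cancel₀ _ (hF0χ χ0)]
      · show w.rep i / w.rep i0 = χ (z i)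
        rw [hzχ]
        obtain ⟨c, hc, hcw⟩ := (rep_rep w).exists_smul hw
        have h2 : χ (al (MvPolynomial.X i)) = c * w.rep i := congrFun hcw i
        have h3 : χ (al (MvPolynomial.X i0)) = c * w.rep i0 := congrFun hcw i0
        rw [h2, h3, mul_div_mul_left _ _ hc])
    rw [hindξ.option_iff_transcendental] at h1
    unfold Transcendental at h1
    rw [not_not] at h1
    exact h1
  constructor
  · intro i
    have h1 := (alg_push φ ξ (by rw [hφξ]; exact hind) (z i) (halg i)).1
    rw [hφξ, hφz] at h1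
    exact h1
  · intro l Q hQ hQ0
    rw [← hal]
    by_contra hne
    have h1 : al Q = al (MvPolynomial.X i0) ^ l * aeval z Q := by
      have h2 : al Q = aeval (fun i => al (MvPolynomial.X i0) * z i) Q := by
        have h3 : al = aeval (fun i => al (MvPolynomial.X i0) * z i) := by
          apply MvPolynomial.algHom_ext
          intro i
          rw [aeval_X]
          show al (MvPolynomial.X i) = al (MvPolynomial.X i0) * (al (MvPolynomial.X i) * al (F ch.j0) * u)
          calc al (MvPolynomial.X i) = al (MvPolynomial.X i) * (al (MvPolynomial.X i0) * al (F ch.j0) * u) := by rw [hu, mul_one]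
            _ = _ := by ring
        exact congrArg (fun φ : MvPolynomial (Fin (n + 1)) k →ₐ[k] B => φ Q) h3
      rw [h2, aeval_smul_homog hQ]
    have h2 : aeval z Q ≠ 0 := by
      intro h
      rw [h, mul_zero] at h1
      exact hne h1
    have h3 : IsAlgebraic (Algebra.adjoin k (Set.range ξ)) (aeval z Q) := by
      rw [← Subalgebra.mem_algebraicClosure]
      clear h2 h1 hne hQ0 hQ
      induction Q using MvPolynomial.induction_on with
      | C r =>
        rw [aeval_C, IsScalarTower.algebraMap_apply k (Algebra.adjoin k (Set.range ξ)) B]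
        exact Subalgebra.algebraMap_mem _ _
      | add p q hp hq => rw [map_add]; exact add_mem hp hq
      | mul_X p i hp =>
        rw [map_mul, aeval_X]
        exact mul_mem hp ((Subalgebra.mem_algebraicClosure _ _).2 (halg i))
    have h4 := (alg_push φ ξ (by rw [hφξ]; exact hind) _ h3).2 h2
    apply h4
    have h5 := congrArg φ h1
    rw [hφal, hQ0, map_mul, map_pow, hφal, aeval_X] at h5
    rcases mul_eq_zero.1 h5.symm with h6 | h6
    · exact absurd (eq_zero_of_pow_eq_zero h6) hi0
    · exact h6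

end

end Pool.Agent.Y166.SM
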