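import Mathlib
import Pool.Agent.Y166.SM.GenA

/-!
# A generically finite morphism to a variety with an affine chart: the inverse
-/

set_option autoImplicit false
set_option linter.unusedSectionVars false
set_option linter.deprecated false
set_option linter.style.haveILetI false

namespace Pool.Agent.Y166.SM

open MvPolynomial Pool.Agent.Y166.GM

section
variable {k : Type} [Field k]

theorem exists_denom {W ρ : Type} [Field W] [Algebra k W] {n : ℕ} (xs : ρ → W)
    (w : Fin (n + 1) → W)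
    (hw : ∀ i, w i ∈ IntermediateField.adjoin k (Set.range xs)) :
    ∃ (A : Fin (n + 1) → MvPolynomial ρ k) (Bd : MvPolynomial ρ k),
      aeval xs Bd ≠ 0 ∧ ∀ i, w i * aeval xs Bd = aeval xs (A i) := by
  classical
  have h1 : ∀ i, ∃ r s : MvPolynomial ρ k, aeval xs s ≠ 0 ∧
      w i * aeval xs s = aeval xs r := by
    intro i
    obtain ⟨r, s, hrs⟩ := (IntermediateField.mem_adjoin_range_iff k xs (w i)).1 (hw i)
    by_cases hs : aeval xs s = 0
    · refine ⟨0, 1, ?_, ?_⟩
      · rw [map_one]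
        exact one_ne_zero
      · rw [hrs, hs, div_zero, zero_mul, map_zero]
    · exact ⟨r, s, hs, by rw [hrs, div_mul_cancel₀ _ hs]⟩
  choose r s hs hrs using h1
  refine ⟨fun i => r i * ∏ j ∈ Finset.univ.erase i, s j, ∏ j, s j, ?_, ?_⟩
  · rw [map_prod, Finset.prod_ne_zero_iff]
    exact fun i _ => hs i
  · intro i
    rw [← Finset.mul_prod_erase Finset.univ s (Finset.mem_univ i), map_mul, map_mul, ← mul_assoc,
      hrs]

theorem FLb [IsAlgClosed k] {W τ ρ : Type} [Field W] [Algebra k W] {n : ℕ}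
    {Z : Set (PP k τ)} (ch : Chart Z ρ)
    {Y : Set (PP k (Fin (n + 1)))} (hYc : IsClosed Y)
    {f : PP k (Fin (n + 1)) → PP k τ} (hfX : Set.MapsTo f Y Z)
    {m : ℕ} (F : τ → MvPolynomial (Fin (n + 1)) k) (hF : ∀ j, (F j).IsHomogeneous m)
    {mP : ℕ} (P : MvPolynomial (Fin (n + 1)) k) (hP : P.IsHomogeneous mP)
    (hrep : ∀ z ∈ Y, eval z.rep P ≠ 0 → Rep (f z) (fun j => eval z.rep (F j)))
    (i0 : Fin (n + 1)) (y : Fin (n + 1) → W)
    (hy : ∀ Q ∈ coneIdeal Y, aeval y Q = 0) (hP0 : aeval y P ≠ 0) (hi0 : y i0 ≠ 0)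
    (hF0 : aeval y (F ch.j0) ≠ 0)
    (hind : AlgebraicIndependent k (fun i => aeval y (F (ch.rr i)) / aeval y (F ch.j0)))
    (hrat : ∀ i, y i / y i0 ∈ IntermediateField.adjoin k
      (Set.range (fun i => aeval y (F (ch.rr i)) / aeval y (F ch.j0))))
    (hinj : ∀ (l : ℕ) (Q : MvPolynomial (Fin (n + 1)) k), Q.IsHomogeneous l → aeval y Q = 0 →
      Q ∈ coneIdeal Y) :
    Birational Y Z f := by
  classical
  set xs : ρ → W := fun i => aeval y (F (ch.rr i)) / aeval y (F ch.j0) with hxs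
  obtain ⟨A, Bd, hBd, hA⟩ := exists_denom xs _ hrat
  -- the relations on the chart
  have hvv : ∀ j, aeval y (F j) = aeval y (F ch.j0) * aeval xs (ch.vv j) := by
    intro j
    obtain ⟨vh, hvh, hvhe⟩ := exists_homog (ch.vv j) le_rfl ch.j0 ch.rr
    set D := (ch.vv j).totalDegree with hDdef
    have h1 : P * F ch.j0 * (F j * F ch.j0 ^ D - F ch.j0 * aeval F vh) ∈ coneIdeal Y := by
      intro z hz v hv
      rw [map_mul, map_mul]
      by_cases hPz : eval v P = 0
      · rw [hPz, zero_mul, zero_mul]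
      by_cases hFz : eval v (F ch.j0) = 0
      · rw [hFz, mul_zero, zero_mul]
      have h2 : eval z.rep P ≠ 0 := fun h => hPz ((zero_iff hv hP).2 h)
      have h3 := (hv.eval_iff hF).1 (hrep z hz h2)
      have h4 := ch.rel _ (hfX hz) _ h3 hFz j
      have h5 := hvhe k (fun j => eval v (F j)) hFz
      rw [aeval_eq_eval, aeval_eq_eval] at h5
      rw [map_sub, map_mul, map_mul, map_pow, eval_aeval, h5]
      have h4' : eval v (F j) = eval v (F ch.j0) *
        eval (fun i => eval v (F (ch.rr i)) / eval v (F ch.j0)) (ch.vv j) := h4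
      rw [h4']
      ring
    have h2 := hy _ h1
    rw [map_mul, map_mul, map_sub, map_mul, map_mul, map_pow, aeval_aeval] at h2
    have h3 : aeval (fun j => aeval y (F j)) vh = aeval y (F ch.j0) ^ D * aeval xs (ch.vv j) :=
      hvhe W (fun j => aeval y (F j)) hF0
    rw [h3] at h2
    rcases mul_eq_zero.1 h2 with h4 | h4
    · exact absurd h4 (mul_ne_zero hP0 hF0)
    · have h5 : aeval y (F ch.j0) ^ D * (aeval y (F j) - aeval y (F ch.j0) * aeval xs (ch.vv j)) = 0 := by
        rw [← h4]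
        ring
      rcases mul_eq_zero.1 h5 with h6 | h6
      · exact absurd h6 (pow_ne_zero _ hF0)
      · exact sub_eq_zero.1 h6
  -- `A i0 = Bd`
  have hAi0 : A i0 = Bd := by
    apply hind
    show aeval xs (A i0) = aeval xs Bd
    rw [← hA i0, div_self hi0, one_mul]
  -- homogenisation
  set D : ℕ := Finset.univ.sup fun i => (A i).totalDegree with hD
  have hAD : ∀ i, (A i).totalDegree ≤ D := fun i =>
    Finset.le_sup (f := fun i => (A i).totalDegree) (Finset.mem_univ i)
  choose Ah hAh hAhe using fun i => exists_homog (A i) (hAD i) ch.j0 ch.rr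
  have hAhk : ∀ i (V : τ → k), V ch.j0 ≠ 0 → eval V (Ah i) =
      V ch.j0 ^ D * eval (fun i => V (ch.rr i) / V ch.j0) (A i) := by
    intro i V hV
    have := hAhe i k V hV
    rw [aeval_eq_eval, aeval_eq_eval] at this
    exact this
  -- (K1), (K2), (K3)
  have hscale : ∀ {l : ℕ} {Q : MvPolynomial (Fin (n + 1)) k}, Q.IsHomogeneous l →
      aeval xs (aeval A Q) = (aeval xs Bd / y i0) ^ l * aeval y Q := by
    intro l Q hQ
    rw [aeval_aeval, ← aeval_smul_homog hQ]
    congr 2
    funext i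
    rw [← hA i]
    ring
  have K1 : ∀ (l : ℕ) (Q : MvPolynomial (Fin (n + 1)) k), Q.IsHomogeneous l → Q ∈ coneIdeal Y →
      aeval A Q = 0 := by
    intro l Q hQ hQY
    apply hind
    show aeval xs (aeval A Q) = aeval xs 0
    rw [hscale hQ, hy Q hQY, mul_zero, map_zero]
  have K2 : ∀ j, aeval A (F j) = aeval A (F ch.j0) * ch.vv j := by
    intro j
    apply hind
    show aeval xs (aeval A (F j)) = aeval xs (aeval A (F ch.j0) * ch.vv j)
    rw [map_mul, hscale (hF j), hscale (hF ch.j0), hvv j, mul_assoc]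
  have hFA : ∀ i, aeval y (aeval F (Ah i)) = aeval y (F ch.j0) ^ D * aeval xs (A i) := by
    intro i
    rw [aeval_aeval, hAhe i W (fun j => aeval y (F j)) hF0]
  have K3 : ∀ z ∈ Y, ∀ i, z.rep i * eval (fun j => eval z.rep (F j)) (Ah i0) =
      z.rep i0 * eval (fun j => eval z.rep (F j)) (Ah i) := by
    intro z hz i
    have h1 : (X i * aeval F (Ah i0) - X i0 * aeval F (Ah i)).IsHomogeneous (1 + m * D) :=
      ((isHomogeneous_X k i).mul ((hAh i0).aeval F hF)).sub
        ((isHomogeneous_X k i0).mul ((hAh i).aeval F hF))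
    have h2 := hinj _ _ h1 (by
      rw [map_sub, map_mul, map_mul, aeval_X, aeval_X, hFA, hFA, ← hA i, hAi0]
      field_simp
      ring)
    have h3 := h2 z hz _ (rep_rep z)
    rw [map_sub, map_mul, map_mul, eval_X, eval_X, eval_aeval, eval_aeval, sub_eq_zero] at h3
    exact h3
  -- the open sets
  set G : MvPolynomial (Fin (n + 1)) k := P * X i0 * F ch.j0 * aeval F (Ah i0) with hG
  have hGh : G.IsHomogeneous (mP + 1 + m + m * D) :=
    ((hP.mul (isHomogeneous_X k i0)).mul (hF ch.j0)).mul ((hAh i0).aeval F hF)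
  set G' : MvPolynomial τ k := X ch.j0 * Ah i0 * aeval Ah P * aeval Ah (F ch.j0) with hG'
  have hGh' : G'.IsHomogeneous (1 + D + D * mP + D * m) :=
    (((isHomogeneous_X k ch.j0).mul (hAh i0)).mul (hP.aeval Ah hAh)).mul ((hF ch.j0).aeval Ah hAh)
  have hGne : ∀ v, eval v G ≠ 0 ↔ eval v P ≠ 0 ∧ v i0 ≠ 0 ∧ eval v (F ch.j0) ≠ 0 ∧
      eval (fun j => eval v (F j)) (Ah i0) ≠ 0 := by
    intro v
    rw [hG, map_mul, map_mul, map_mul, eval_X, eval_aeval]
    simp only [mul_ne_zero_iff]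
    tauto
  have hGne' : ∀ V, eval V G' ≠ 0 ↔ V ch.j0 ≠ 0 ∧ eval V (Ah i0) ≠ 0 ∧
      eval (fun i => eval V (Ah i)) P ≠ 0 ∧ eval (fun i => eval V (Ah i)) (F ch.j0) ≠ 0 := by
    intro V
    rw [hG', map_mul, map_mul, map_mul, eval_X, eval_aeval, eval_aeval]
    simp only [mul_ne_zero_iff]
    tauto
  -- the inverse
  have hPP : Nonempty (PP k (Fin (n + 1))) := by
    obtain ⟨p, _⟩ := exists_rep (k := k) (v := fun _ : Fin (n + 1) => (1 : k)) (by
      intro h
      exact one_ne_zero (congrFun h 0))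
    exact ⟨p⟩
  obtain ⟨g, hg⟩ : ∃ g : PP k τ → PP k (Fin (n + 1)),
      ∀ x, (fun i => eval x.rep (Ah i)) ≠ 0 → Rep (g x) (fun i => eval x.rep (Ah i)) := by
    have h1 : ∀ x : PP k τ, ∃ p : PP k (Fin (n + 1)),
        (fun i => eval x.rep (Ah i)) ≠ 0 → Rep p (fun i => eval x.rep (Ah i)) := by
      intro x
      by_cases h : (fun i => eval x.rep (Ah i)) = 0
      · exact ⟨hPP.some, fun h' => absurd h h'⟩
      · obtain ⟨p, hp⟩ := exists_rep (k := k) h
        exact ⟨p, fun _ => hp⟩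
    exact ⟨fun x => (h1 x).choose, fun x => (h1 x).choose_spec⟩
  have hgV : ∀ (x : PP k τ) (V : τ → k), Rep x V → eval V (Ah i0) ≠ 0 →
      Rep (g x) (fun i => eval V (Ah i)) := by
    intro x V hV h0
    rw [← hV.eval_iff hAh]
    apply hg
    intro h
    apply h0
    rw [zero_iff hV (hAh i0)]
    exact congrFun h i0
  -- points of the chart of the cone
  have hXpt : ∀ x ∈ Z, ∀ V : τ → k, Rep x V → eval V G' ≠ 0 →
      g x ∈ Y ∧ eval (g x).rep G ≠ 0 ∧ f (g x) = x := by
    intro x hx V hV hV0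
    obtain ⟨h1, h2, h3, h4⟩ := (hGne' V).1 hV0
    have hw := hgV x V hV h2
    set t : ρ → k := fun i => V (ch.rr i) / V ch.j0 with ht
    have hAhV : (fun i => eval V (Ah i)) = V ch.j0 ^ D • fun i => eval t (A i) := by
      funext i
      rw [hAhk i V h1]
      rfl
    have hVD : V ch.j0 ^ D ≠ 0 := pow_ne_zero _ h1
    have hw' : Rep (g x) (fun i => eval t (A i)) := by
      have h5 := hw.smul (inv_ne_zero hVD)
      rw [hAhV, smul_smul, inv_mul_cancel₀ hVD, one_smul] at h5
      exact h5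
    have hPt : eval (fun i => eval t (A i)) P ≠ 0 := by
      intro h
      apply h3
      exact (zero_iff hw hP).2 ((zero_iff hw' hP).1 h)
    have hF0t : eval (fun i => eval t (A i)) (F ch.j0) ≠ 0 := by
      intro h
      apply h4
      exact (zero_iff hw (hF ch.j0)).2 ((zero_iff hw' (hF ch.j0)).1 h)
    have hgY : g x ∈ Y := by
      apply mem_of_closed hYc hw'
      intro l Q hQ hQY
      rw [← eval_aeval, K1 l Q hQ hQY, map_zero]
    have hFw : (fun j => eval (fun i => eval t (A i)) (F j)) =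
        (eval (fun i => eval t (A i)) (F ch.j0) / V ch.j0) • V := by
      funext j
      have h5 := congrArg (eval t) (K2 j)
      rw [map_mul, eval_aeval, eval_aeval] at h5
      rw [h5, Pi.smul_apply, smul_eq_mul, ch.rel x hx V hV h1 j, ← mul_assoc,
        div_mul_cancel₀ _ h1]
    have hc : eval (fun i => eval t (A i)) (F ch.j0) / V ch.j0 ≠ 0 := div_ne_zero hF0t h1
    refine ⟨hgY, ?_, ?_⟩
    · rw [Ne, ← zero_iff hw' hGh]
      apply (hGne _).2
      refine ⟨hPt, ?_, hF0t, ?_⟩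
      · intro h
        apply h2
        have h5 := congrFun hAhV i0
        show eval V (Ah i0) = 0
        have h6 : eval V (Ah i0) = V ch.j0 ^ D * eval t (A i0) := h5
        rw [h6]
        have h7 : eval t (A i0) = 0 := h
        rw [h7, mul_zero]
      · rw [hFw, eval_smul_homog (hAh i0)]
        exact mul_ne_zero (pow_ne_zero _ hc) h2
    · have h5 : eval (g x).rep P ≠ 0 := fun h => hPt ((zero_iff hw' hP).2 h)
      have h6 := (hw'.eval_iff hF).1 (hrep _ hgY h5)
      rw [hFw] at h6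
      exact h6.eq (hV.smul hc)
  have hYpt : ∀ z ∈ Y, eval z.rep G ≠ 0 → eval (f z).rep G' ≠ 0 ∧ g (f z) = z := by
    intro z hz hz0
    obtain ⟨h1, h2, h3, h4⟩ := (hGne _).1 hz0
    have hV := hrep z hz h1
    set V : τ → k := fun j => eval z.rep (F j) with hVdef
    have hc : eval V (Ah i0) / z.rep i0 ≠ 0 := div_ne_zero h4 h2
    have hAV : (fun i => eval V (Ah i)) = (eval V (Ah i0) / z.rep i0) • z.rep := by
      funext i
      have h5 := K3 z hz i
      rw [Pi.smul_apply, smul_eq_mul]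
      field_simp
      rw [mul_comm, ← h5]
      ring
    constructor
    · rw [Ne, ← zero_iff hV hGh']
      apply (hGne' V).2
      refine ⟨h3, h4, ?_, ?_⟩
      · rw [hAV, eval_smul_homog hP]
        exact mul_ne_zero (pow_ne_zero _ hc) h1
      · rw [hAV, eval_smul_homog (hF ch.j0)]
        exact mul_ne_zero (pow_ne_zero _ hc) h3
    · have h5 := hgV (f z) V hV h4
      rw [hAV] at h5
      exact h5.eq ((rep_rep z).smul hc)
  refine ⟨{z | eval z.rep G ≠ 0}, {x | eval x.rep G' ≠ 0}, g, isOpen_basic hGh,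
    isOpen_basic hGh', ?_, ?_, ?_, ?_, ?_, ?_⟩
  · by_contra hcon
    rw [Set.not_nonempty_iff_eq_empty] at hcon
    have h1 : G ∈ coneIdeal Y := by
      rw [mem_coneIdeal_homog hGh]
      intro z hz
      by_contra h
      have : z ∈ {z : PP k (Fin (n + 1)) | eval z.rep G ≠ 0} ∩ Y := ⟨h, hz⟩
      rw [hcon] at this
      exact this
    have h2 := hy G h1
    rw [hG, map_mul, map_mul, map_mul, aeval_X, hFA, hAi0] at h2
    exact mul_ne_zero (mul_ne_zero (mul_ne_zero hP0 hi0) hF0)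
      (mul_ne_zero (pow_ne_zero _ hF0) hBd) h2
  · rintro z ⟨hz, hzY⟩
    exact ⟨(hYpt z hzY hz).1, hfX hzY⟩
  · rintro x ⟨hx, hxX⟩
    rw [Set.mem_setOf_eq] at hx
    obtain ⟨h1, h2, _⟩ := hXpt x hxX _ (rep_rep x) hx
    exact ⟨h2, h1⟩
  · rintro x ⟨hx, hxX⟩
    refine ⟨{x | eval x.rep G' ≠ 0}, isOpen_basic hGh', hx, D, Ah, hAh, ?_⟩
    rintro w ⟨hw, _⟩
    apply hg
    intro h
    exact ((hGne' _).1 hw).2.1 (congrFun h i0)
  · rintro z ⟨hz, hzY⟩
    exact (hYpt z hzY hz).2
  · rintro x ⟨hx, hxX⟩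
    exact (hXpt x hxX _ (rep_rep x) hx).2.2

end

end Pool.Agent.Y166.SM
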