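import Mathlib
import Pool.Agent.Y166.SM.GenB

/-!
# Parametrised points of a variety with a generically finite morphism
-/

set_option autoImplicit false
set_option linter.unusedSectionVars false
set_option linter.deprecated false
set_option linter.style.haveILetI false

namespace Pool.Agent.Y166.SM

open MvPolynomial Pool.Agent.Y166.GM

section
variable {k : Type} [Field k]

theorem exists_eval_ne [Infinite k] {ι : Type} {P : MvPolynomial ι k} (hP : P ≠ 0) :
    ∃ t : ι → k, eval t P ≠ 0 := by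
  by_contra hcon
  push Not at hcon
  apply hP
  apply MvPolynomial.funext
  intro t
  rw [hcon, map_zero]

theorem zero_of_dense [Infinite k] {ι : Type} {D Q : MvPolynomial ι k} (hD : D ≠ 0)
    (h : ∀ t : ι → k, eval t D ≠ 0 → eval t Q = 0) : Q = 0 := by
  have h1 : D * Q = 0 := by
    apply MvPolynomial.funext
    intro t
    rw [map_mul, map_zero]
    by_cases ht : eval t D = 0
    · rw [ht, zero_mul]
    · rw [h t ht, mul_zero]
  rcases mul_eq_zero.1 h1 with h2 | h2
  · exact absurd h2 hD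
  · exact h2

/-- A parametrised family of points of `Y` over a parametrised family of points of `Z`. -/
structure Param {τ : Type} {n : ℕ} (Y : Set (PP k (Fin (n + 1))))
    (f : PP k (Fin (n + 1)) → PP k τ) (ι : Type) where
  ψ : τ → MvPolynomial ι k
  H : Fin (n + 1) → MvPolynomial ι k
  D : MvPolynomial ι k
  hD : D ≠ 0
  pt : ∀ t : ι → k, eval t D ≠ 0 →
    ∃ y ∈ Y, Rep y (fun j => eval t (H j)) ∧ Rep (f y) (fun j => eval t (ψ j))

theorem param_data [IsAlgClosed k] {W τ ρ ι : Type} [Field W] [Algebra k W] {n : ℕ}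
    {Z : Set (PP k τ)} (ch : Chart Z ρ) {Y : Set (PP k (Fin (n + 1)))} 
    {f : PP k (Fin (n + 1)) → PP k τ} (hf : IsMorphism Y f) (p : Param Y f ι)
    (hψ : p.ψ ch.j0 ≠ 0) (g : MvPolynomial ι k →ₐ[k] W) (hg : Function.Injective g) :
    ∃ (m : ℕ) (F : τ → MvPolynomial (Fin (n + 1)) k) (mP : ℕ) (P : MvPolynomial (Fin (n + 1)) k)
      (i0 : Fin (n + 1)),
      (∀ j, (F j).IsHomogeneous m) ∧ P.IsHomogeneous mP ∧
      (∀ z ∈ Y, eval z.rep P ≠ 0 → Rep (f z) (fun j => eval z.rep (F j))) ∧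
      (∀ Q ∈ coneIdeal Y, aeval (fun j => g (p.H j)) Q = 0) ∧
      aeval (fun j => g (p.H j)) P ≠ 0 ∧ g (p.H i0) ≠ 0 ∧
      aeval (fun j => g (p.H j)) (F ch.j0) ≠ 0 ∧
      ∀ j, aeval (fun j => g (p.H j)) (F j) / aeval (fun j => g (p.H j)) (F ch.j0) =
        g (p.ψ j) / g (p.ψ ch.j0) := by
  classical
  haveI : Infinite k := IsAlgClosed.instInfinite
  obtain ⟨t0, ht0⟩ := exists_eval_ne p.hD
  obtain ⟨y0, hy0, hr0, _⟩ := p.pt t0 ht0
  obtain ⟨U, hU, hy0U, m, F, hF, hFU⟩ := hf y0 hy0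
  obtain ⟨mP, P, hP, hP0, hPU⟩ := exists_basic hU hy0U
  have hrep : ∀ z ∈ Y, eval z.rep P ≠ 0 → Rep (f z) (fun j => eval z.rep (F j)) :=
    fun z hz h => hFU z ⟨hPU z h, hz⟩
  have hcomp : ∀ Q : MvPolynomial (Fin (n + 1)) k,
      aeval (fun j => g (p.H j)) Q = g (aeval p.H Q) := by
    intro Q
    have h : (aeval (fun j => g (p.H j)) : MvPolynomial (Fin (n + 1)) k →ₐ[k] W) =
        g.comp (aeval p.H) := by
      apply MvPolynomial.algHom_ext
      intro i
      rw [AlgHom.comp_apply, aeval_X, aeval_X]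
    exact congrArg (fun φ : MvPolynomial (Fin (n + 1)) k →ₐ[k] W => φ Q) h
  have hne : ∀ Q : MvPolynomial (Fin (n + 1)) k, aeval p.H Q ≠ 0 →
      aeval (fun j => g (p.H j)) Q ≠ 0 := by
    intro Q hQ
    rw [hcomp]
    intro h
    exact hQ (hg (by rw [h, map_zero]))
  have hPH : aeval p.H P ≠ 0 := by
    intro h
    apply hP0
    rw [← zero_iff hr0 hP, ← eval_aeval, h, map_zero]
  obtain ⟨i0, hi0⟩ : ∃ i0, eval t0 (p.H i0) ≠ 0 := by
    by_contra hcon
    push Not at hcon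
    exact hr0.ne_zero (funext hcon)
  have hi0' : g (p.H i0) ≠ 0 := by
    intro h
    apply hi0
    have : p.H i0 = 0 := hg (by rw [h, map_zero])
    rw [this, map_zero]
  -- proportionality at points
  have hprop : ∀ t : ι → k, eval t (p.D * aeval p.H P) ≠ 0 → ∃ c : k, c ≠ 0 ∧
      ∀ j, eval t (aeval p.H (F j)) = c * eval t (p.ψ j) := by
    intro t ht
    rw [map_mul] at ht
    obtain ⟨y, hy, hr, hr'⟩ := p.pt t (left_ne_zero_of_mul ht)
    have h1 : eval y.rep P ≠ 0 := by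
      intro h
      apply right_ne_zero_of_mul ht
      rw [eval_aeval, zero_iff hr hP]
      exact h
    have h2 := (hr.eval_iff hF).1 (hrep y hy h1)
    obtain ⟨c, hc, hcv⟩ := hr'.exists_smul h2
    refine ⟨c, hc, fun j => ?_⟩
    rw [eval_aeval]
    exact congrFun hcv j
  have hDP : p.D * aeval p.H P ≠ 0 := mul_ne_zero p.hD hPH
  have hF0 : aeval p.H (F ch.j0) ≠ 0 := by
    obtain ⟨t1, ht1⟩ := exists_eval_ne (mul_ne_zero hDP hψ)
    rw [map_mul] at ht1
    obtain ⟨c, hc, hcj⟩ := hprop t1 (left_ne_zero_of_mul ht1)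
    intro h
    have h1 := hcj ch.j0
    rw [h, map_zero] at h1
    exact mul_ne_zero hc (right_ne_zero_of_mul ht1) h1.symm
  have hratio : ∀ j, aeval p.H (F j) * p.ψ ch.j0 = aeval p.H (F ch.j0) * p.ψ j := by
    intro j
    rw [← sub_eq_zero]
    apply zero_of_dense hDP
    intro t ht
    obtain ⟨c, hc, hcj⟩ := hprop t ht
    rw [map_sub, map_mul, map_mul, hcj, hcj]
    ring
  have hψ' : g (p.ψ ch.j0) ≠ 0 := by
    intro h
    exact hψ (hg (by rw [h, map_zero]))
  refine ⟨m, F, mP, P, i0, hF, hP, hrep, ?_, hne _ hPH, hi0', hne _ hF0, ?_⟩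
  · intro Q hQ
    rw [hcomp]
    have h1 : aeval p.H Q = 0 := by
      apply zero_of_dense p.hD
      intro t ht
      obtain ⟨y, hy, hr, _⟩ := p.pt t ht
      rw [eval_aeval]
      exact hQ y hy _ hr
    rw [h1, map_zero]
  · intro j
    rw [div_eq_div_iff (hne _ hF0) hψ', hcomp, hcomp, ← map_mul, ← map_mul, hratio j,
      mul_comm]

/-- The coordinates of a parametrised point are algebraic over the coordinates of its image. -/
theorem param_alg [IsAlgClosed k] {W τ ρ ι : Type} [Finite ρ] [Field W] [Algebra k W] {n : ℕ}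
    {Z : Set (PP k τ)} (ch : Chart Z ρ) {Y : Set (PP k (Fin (n + 1)))} (hY : IsProjVar Y)
    {f : PP k (Fin (n + 1)) → PP k τ} (hf : IsMorphism Y f) (hfZ : Set.MapsTo f Y Z)
    (hfin : GenFinite Y f) (p : Param Y f ι)
    (hψ : p.ψ ch.j0 ≠ 0) (g : MvPolynomial ι k →ₐ[k] W) (hg : Function.Injective g)
    (hind : AlgebraicIndependent k (fun i => g (p.ψ (ch.rr i)) / g (p.ψ ch.j0))) :
    ∃ i0, p.H i0 ≠ 0 ∧ ∀ i, IsAlgebraic (IntermediateField.adjoin k
      (Set.range (fun i => g (p.ψ (ch.rr i)) / g (p.ψ ch.j0)))) (g (p.H i) / g (p.H i0)) := by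
  obtain ⟨m, F, mP, P, i0, hF, hP, hrep, hy, hP0, hi0, hF0, hrat⟩ :=
    param_data (W := W) ch hf p hψ g hg
  have hxs : (fun i => aeval (fun j => g (p.H j)) (F (ch.rr i)) /
      aeval (fun j => g (p.H j)) (F ch.j0)) = fun i => g (p.ψ (ch.rr i)) / g (p.ψ ch.j0) := by
    funext i
    exact hrat _
  have h1 := FLa ch hY.1 hY.2 hfZ hfin F hF P hP hrep i0 (fun j => g (p.H j)) hy hP0 hi0 hF0
    (by rw [hxs]; exact hind)
  rw [hxs] at h1
  refine ⟨i0, ?_, h1.1⟩
  intro h
  apply hi0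
  rw [h, map_zero]

/-- A parametrised family of points with rational coordinates: the morphism is birational. -/
theorem param_birational [IsAlgClosed k] {W τ ρ ι : Type} [Finite ρ] [Field W] [Algebra k W]
    {n : ℕ} {Z : Set (PP k τ)} (ch : Chart Z ρ) {Y : Set (PP k (Fin (n + 1)))} (hY : IsProjVar Y)
    {f : PP k (Fin (n + 1)) → PP k τ} (hf : IsMorphism Y f) (hfZ : Set.MapsTo f Y Z)
    (hfin : GenFinite Y f) (p : Param Y f ι)
    (hψ : p.ψ ch.j0 ≠ 0) (g : MvPolynomial ι k →ₐ[k] W) (hg : Function.Injective g)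
    (hind : AlgebraicIndependent k (fun i => g (p.ψ (ch.rr i)) / g (p.ψ ch.j0)))
    (htop : ∀ Q : MvPolynomial ι k, g Q ∈ IntermediateField.adjoin k
      (Set.range (fun i => g (p.ψ (ch.rr i)) / g (p.ψ ch.j0)))) :
    Birational Y Z f := by
  obtain ⟨m, F, mP, P, i0, hF, hP, hrep, hy, hP0, hi0, hF0, hrat⟩ :=
    param_data (W := W) ch hf p hψ g hg
  have hxs : (fun i => aeval (fun j => g (p.H j)) (F (ch.rr i)) /
      aeval (fun j => g (p.H j)) (F ch.j0)) = fun i => g (p.ψ (ch.rr i)) / g (p.ψ ch.j0) := by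
    funext i
    exact hrat _
  have h1 := FLa ch hY.1 hY.2 hfZ hfin F hF P hP hrep i0 (fun j => g (p.H j)) hy hP0 hi0 hF0
    (by rw [hxs]; exact hind)
  refine FLb ch hY.1 hfZ F hF P hP hrep i0 (fun j => g (p.H j)) hy hP0 hi0 hF0
    (by rw [hxs]; exact hind) ?_ h1.2
  intro i
  rw [hxs]
  exact div_mem (htop _) (htop _)

/-- A parametrised family of points: the morphism is dominant if the parametrised points of the
target are dense. -/
theorem param_dominant [IsAlgClosed k] {τ ι : Type} {n : ℕ}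
    {Z : Set (PP k τ)} {Y : Set (PP k (Fin (n + 1)))}
    {f : PP k (Fin (n + 1)) → PP k τ} (p : Param Y f ι)
    (hdense : ∀ (m : ℕ) (Q : MvPolynomial τ k), Q.IsHomogeneous m → aeval p.ψ Q = 0 →
      ∀ x ∈ Z, eval x.rep Q = 0) : Dominant Y Z f := by
  haveI : Infinite k := IsAlgClosed.instInfinite
  intro x hx
  rw [mem_closure_iff']
  intro m Q hQ hQ0
  refine hdense m Q hQ ?_ x hx
  apply zero_of_dense p.hD
  intro t ht
  obtain ⟨y, hy, _, hr⟩ := p.pt t ht
  rw [eval_aeval, zero_iff hr hQ]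
  exact hQ0 _ ⟨y, hy, rfl⟩

end

end Pool.Agent.Y166.SM
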