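import Mathlib
import Pool.Agent.Y166.SM.GenC
import Pool.Agent.Y166.SM.Stm

/-!
# The affine chart of `Xsym` and generic points
-/

set_option autoImplicit false
set_option linter.unusedSectionVars false
set_option linter.deprecated false
set_option linter.style.haveILetI false

namespace Pool.Agent.Y166.SM

open MvPolynomial Pool.Agent.Y166.GM

section rings
variable {A B : Type} [CommRing A] [CommRing B]

theorem pt_map (φ : A →+* B) (C : Matrix (Fin 6) (Fin 3) A) (Q : Matrix (Fin 3) (Fin 3) A)
    (j : S3 × S2) : φ (pt C Q j) = pt (C.map φ) (Q.map φ) j := by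
  unfold pt
  rw [map_mul]
  congr 1
  · rw [RingHom.map_det]
    congr 1
  · have : (C.map φ * Q.map φ * (C.map φ).transpose) = (C * Q * C.transpose).map φ := by
      rw [Matrix.map_mul, Matrix.map_mul, Matrix.transpose_map]
    rw [this]
    rfl

theorem Jm_map (φ : A →+* B) : (Jm A).map φ = Jm B := by
  ext i j
  fin_cases i <;> fin_cases j <;> simp [Jm, map_ofNat]

theorem Jm_symm : (Jm A).transpose = Jm A := by
  ext i j
  fin_cases i <;> fin_cases j <;> simp [Jm]

theorem Jm_det : (Jm A).det = 2 := by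
  simp [Jm, Matrix.det_fin_three]

/-- Change of the basis of the subspace. -/
theorem pt_mul (C : Matrix (Fin 6) (Fin 3) A) (B Q : Matrix (Fin 3) (Fin 3) A) (j : S3 × S2) :
    pt (C * B) Q j = B.det * pt C (B * Q * B.transpose) j := by
  unfold pt
  have h1 : (C * B).submatrix j.1 id = C.submatrix j.1 id * B := rfl
  rw [h1, Matrix.det_mul, Matrix.transpose_mul]
  have h2 : C * B * Q * (B.transpose * C.transpose) =
      C * (B * Q * B.transpose) * C.transpose := by
    simp only [Matrix.mul_assoc]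
  rw [h2]
  ring

theorem pt_smul (C : Matrix (Fin 6) (Fin 3) A) (Q : Matrix (Fin 3) (Fin 3) A) (c : A)
    (j : S3 × S2) : pt C (c • Q) j = c * pt C Q j := by
  unfold pt
  rw [Matrix.mul_smul, Matrix.smul_mul, Matrix.smul_apply, smul_eq_mul]
  ring

theorem Nmat_map (φ : A →+* B) (x : Rho → A) : (Nmat x).map φ = Nmat fun i => φ (x i) := by
  ext i j
  fin_cases i <;> fin_cases j <;> simp [Nmat]

theorem Amat_map (φ : A →+* B) (x : Rho → A) : (Amat x).map φ = Amat fun i => φ (x i) := by
  ext i j
  fin_cases i <;> fin_cases j <;> simp [Amat]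

theorem Amat_symm (x : Rho → A) : (Amat x).transpose = Amat x := by
  ext i j
  fin_cases i <;> fin_cases j <;> simp [Amat]

/-- The coordinates of the chart. -/
theorem pt_Nmat_jz (x : Rho → A) (Q : Matrix (Fin 3) (Fin 3) A) :
    pt (Nmat x) Q jz = Q 0 0 := by
  have h1 : ((Nmat x).submatrix (![0, 1, 2] : S3) id) = 1 := by
    ext i j
    fin_cases i <;> fin_cases j <;> simp [Nmat, Matrix.one_apply]
  show ((Nmat x).submatrix (![0, 1, 2] : S3) id).det * _ = _
  rw [h1, Matrix.det_one, one_mul]
  simp [Matrix.mul_apply, Fin.sum_univ_three, Nmat, jz, Matrix.vecMul, dotProduct]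

theorem pt_Nmat_inl (x : Rho → A) (Q : Matrix (Fin 3) (Fin 3) A) (i j : Fin 3) :
    pt (Nmat x) Q (rrX (.inl (i, j))) = x (.inl (i, j)) * Q 0 0 := by
  have h1 : ((Nmat x).submatrix (Function.update (![0, 1, 2] : S3) i (lo j)) id).det =
      x (.inl (i, j)) := by
    fin_cases i <;> fin_cases j <;>
      simp [Matrix.det_fin_three, Nmat, lo, Function.update, Matrix.submatrix]
  show ((Nmat x).submatrix (Function.update (![0, 1, 2] : S3) i (lo j)) id).det * _ = _
  rw [h1]
  congr 1
  simp [Matrix.mul_apply, Fin.sum_univ_three, Nmat, rrX, Matrix.vecMul, dotProduct]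

theorem pt_Nmat_inr (x : Rho → A) (Q : Matrix (Fin 3) (Fin 3) A) (p : Fin 5) :
    pt (Nmat x) Q (rrX (.inr p)) = Q (![0, 0, 1, 1, 2] p) (![1, 2, 1, 2, 2] p) := by
  have h1 : ((Nmat x).submatrix (![0, 1, 2] : S3) id) = 1 := by
    ext i j
    fin_cases i <;> fin_cases j <;> simp [Nmat, Matrix.one_apply]
  show ((Nmat x).submatrix (![0, 1, 2] : S3) id).det * _ = _
  rw [h1, Matrix.det_one, one_mul]
  fin_cases p <;> simp [Matrix.mul_apply, Fin.sum_univ_three, Nmat, rrX, symIdx, Matrix.vecMul,
    dotProduct]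

end rings

section
variable {k : Type} [Field k]

/-- The chart of `Xsym`. -/
noncomputable def chX (hCh : StmChart) : Chart (Xsym k) Rho where
  j0 := jz
  rr := rrX
  vv := pt (Nmat X) (Amat X)
  rel := by
    intro x hx V hV h0 j
    have h1 := hCh k x hx V hV h0 j
    have h2 := pt_map (eval (fun i => V (rrX i) / V jz))
      (Nmat (X : Rho → MvPolynomial Rho k)) (Amat X) j
    rw [Nmat_map, Amat_map] at h2
    simp only [eval_X] at h2
    rw [h2]
    exact h1

/-- Clearing denominators. -/
theorem exists_clear {σ ι : Type} (R : MvPolynomial σ k) (num : σ → MvPolynomial ι k)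
    (den : MvPolynomial ι k) : ∃ (D : ℕ) (Rt : MvPolynomial ι k),
      ∀ (K : Type) [Field K] [Algebra k K] (φ : MvPolynomial ι k →ₐ[k] K), φ den ≠ 0 →
        φ Rt = φ den ^ D * aeval (fun s => φ (num s) / φ den) R := by
  obtain ⟨Ah, hAh, hAe⟩ := exists_homog R le_rfl (none : Option σ) some
  refine ⟨R.totalDegree, aeval (fun o : Option σ => o.elim den num) Ah, ?_⟩
  intro K _ _ φ hφ
  have h1 := hAe K (fun o : Option σ => φ (o.elim den num)) hφ
  have h2 : φ (aeval (fun o : Option σ => o.elim den num) Ah) =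
      aeval (fun o : Option σ => φ (o.elim den num)) Ah := by
    have h : (aeval (fun o : Option σ => φ (o.elim den num)) : MvPolynomial (Option σ) k →ₐ[k] K) =
        φ.comp (aeval (fun o : Option σ => o.elim den num)) := by
      apply MvPolynomial.algHom_ext
      intro i
      rw [AlgHom.comp_apply, aeval_X, aeval_X]
    exact (congrArg (fun φ : MvPolynomial (Option σ) k →ₐ[k] K => φ Ah) h).symm
  rw [h2]
  exact h1

/-- Algebraic independence of the affine coordinates of a parametrised point with dense image. -/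
theorem indep_of_points [Infinite k] {τ ρ ι W : Type} [Field W] [Algebra k W]
    (ψ : τ → MvPolynomial ι k) (j0 : τ) (rr : ρ → τ) (E : MvPolynomial ρ k) (hE : E ≠ 0)
    (h : ∀ x : ρ → k, eval x E ≠ 0 → ∃ t : ι → k, eval t (ψ j0) ≠ 0 ∧
      ∀ i, eval t (ψ (rr i)) / eval t (ψ j0) = x i)
    (g : MvPolynomial ι k →ₐ[k] W) (hg : Function.Injective g) :
    AlgebraicIndependent k (fun i => g (ψ (rr i)) / g (ψ j0)) := by
  rw [algebraicIndependent_iff]
  intro P hP
  obtain ⟨D, Rt, hRt⟩ := exists_clear P (fun i => ψ (rr i)) (ψ j0)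
  have hψ : ψ j0 ≠ 0 := by
    obtain ⟨x, hx⟩ := exists_eval_ne hE
    obtain ⟨t, ht, _⟩ := h x hx
    intro h0
    rw [h0, map_zero] at ht
    exact ht rfl
  have hgψ : g (ψ j0) ≠ 0 := fun h0 => hψ (hg (by rw [h0, map_zero]))
  have h1 := hRt W g hgψ
  rw [hP, mul_zero] at h1
  have h2 : Rt = 0 := hg (by rw [h1, map_zero])
  apply zero_of_dense hE
  intro x hx
  obtain ⟨t, ht, htx⟩ := h x hx
  have h3 := hRt k (aeval t) (by rw [aeval_eq_eval]; exact ht)
  rw [h2, map_zero] at h3
  have h4 : (fun s => (aeval t : MvPolynomial ι k →ₐ[k] k) (ψ (rr s)) /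
      (aeval t : MvPolynomial ι k →ₐ[k] k) (ψ j0)) = x := by
    funext s
    rw [aeval_eq_eval]
    exact htx s
  rw [h4, aeval_eq_eval, aeval_eq_eval] at h3
  rcases mul_eq_zero.1 h3.symm with h5 | h5
  · exact absurd (eq_zero_of_pow_eq_zero h5) ht
  · exact h5

/-- The generic `6 × 3` matrix. -/
noncomputable def Cgen (k : Type) [Field k] :
    Matrix (Fin 6) (Fin 3) (MvPolynomial (Fin 6 × Fin 3) k) :=
  Matrix.of fun i j => X (i, j)

theorem eval_psi (c : Fin 6 × Fin 3 → k) (j : S3 × S2) :
    eval c (pt (Cgen k) (Jm _) j) = pt (Matrix.of fun i j => c (i, j)) (Jm k) j := by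
  rw [pt_map, Jm_map]
  congr 1
  ext i j
  simp [Cgen]

/-- The equations of the points with the split form vanish on `Xsym`. -/
theorem dense_J [IsAlgClosed k] [CharZero k] (hNF : StmNF) (m : ℕ)
    (Q : MvPolynomial (S3 × S2) k) (hQ : Q.IsHomogeneous m)
    (h0 : aeval (pt (Cgen k) (Jm _)) Q = 0) (x : PP k (S3 × S2)) (hx : x ∈ Xsym k) :
    eval x.rep Q = 0 := by
  classical
  haveI : Infinite k := IsAlgClosed.instInfinite
  have hJ : ∀ C : Matrix (Fin 6) (Fin 3) k, eval (pt C (Jm k)) Q = 0 := by
    intro C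
    have h1 := congrArg (eval fun x : Fin 6 × Fin 3 => C x.1 x.2) h0
    rw [map_zero, eval_aeval] at h1
    have h2 : (fun j => eval (fun x : Fin 6 × Fin 3 => C x.1 x.2) (pt (Cgen k) (Jm _) j)) =
        pt C (Jm k) := by
      funext j
      rw [eval_psi]
      rfl
    rw [h2] at h1
    exact h1
  have hinv : ∀ (C : Matrix (Fin 6) (Fin 3) k) (S : Matrix (Fin 3) (Fin 3) k),
      S.transpose = S → S.det ≠ 0 → eval (pt C S) Q = 0 := by
    intro C S hS hd
    obtain ⟨U, hU, hSU⟩ := hNF k S hS hd
    have h1 : pt (C * U) (Jm k) = U.det • pt C S := by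
      funext j
      rw [pt_mul, ← hSU]
      rfl
    have h2 := hJ (C * U)
    rw [h1, eval_smul_homog hQ] at h2
    rcases mul_eq_zero.1 h2 with h3 | h3
    · exact absurd (eq_zero_of_pow_eq_zero h3) hU
    · exact h3
  obtain ⟨C, S, hS, hr⟩ := hx
  rw [← zero_iff hr hQ]
  -- deform the form
  let St : Matrix (Fin 3) (Fin 3) (Polynomial k) :=
    S.map Polynomial.C + (Polynomial.X : Polynomial k) • (1 : Matrix (Fin 3) (Fin 3) (Polynomial k))
  have hSt : ∀ e : k, St.map (Polynomial.evalRingHom e) =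
      S + e • (1 : Matrix (Fin 3) (Fin 3) k) := by
    intro e
    ext i j
    simp [St, Matrix.one_apply]
    split_ifs <;> simp
  let P : Polynomial k := aeval (pt (C.map Polynomial.C) St) Q
  have hP : ∀ e : k, P.eval e = eval (pt C (S + e • (1 : Matrix (Fin 3) (Fin 3) k))) Q := by
    intro e
    have h1 : P.eval e = (Polynomial.evalRingHom e) (aeval (pt (C.map Polynomial.C) St) Q) := rfl
    rw [h1]
    have h2 : ((Polynomial.evalRingHom e).comp
        (aeval (pt (C.map Polynomial.C) St) : MvPolynomial (S3 × S2) k →ₐ[k] Polynomial k).toRingHom) =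
        (eval (pt C (S + e • (1 : Matrix (Fin 3) (Fin 3) k))) :
          MvPolynomial (S3 × S2) k →+* k) := by
      apply MvPolynomial.ringHom_ext
      · intro r
        simp
      · intro j
        simp only [RingHom.comp_apply, AlgHom.toRingHom_eq_coe, RingHom.coe_coe, aeval_X, eval_X]
        rw [pt_map, hSt]
        congr 1
        ext i j
        simp
    exact congrArg (fun φ : MvPolynomial (S3 × S2) k →+* k => φ Q) h2
  have hdet : St.det ≠ 0 := by
    intro h
    have h1 : Matrix.charpoly (-S) = 0 := by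
      rw [Matrix.charpoly, ← h]
      congr 1
      ext i j
      simp [St, Matrix.charmatrix_apply, Matrix.diagonal_apply, Matrix.one_apply]
      split_ifs <;> simp [add_comm]
    exact (Matrix.charpoly_monic (-S)).ne_zero h1
  have hP0 : P = 0 := by
    have h1 : St.det * P = 0 := by
      apply Polynomial.funext
      intro e
      rw [Polynomial.eval_mul, Polynomial.eval_zero, hP]
      by_cases he : St.det.eval e = 0
      · rw [he, zero_mul]
      · rw [hinv C (S + e • (1 : Matrix (Fin 3) (Fin 3) k)) (by rw [Matrix.transpose_add, hS, Matrix.transpose_smul,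
          Matrix.transpose_one]) ?_, mul_zero]
        rw [← hSt e]
        have h5 := RingHom.map_det (Polynomial.evalRingHom e) St
        rw [RingHom.mapMatrix_apply] at h5
        rw [← h5]
        exact he
    rcases mul_eq_zero.1 h1 with h2 | h2
    · exact absurd h2 hdet
    · exact h2
  have h3 := hP 0
  rw [hP0, Polynomial.eval_zero, zero_smul, add_zero] at h3
  exact h3.symm

/-- The affine coordinates of the generic point are algebraically independent. -/
theorem indep_C [IsAlgClosed k] [CharZero k] (hNF : StmNF) {W : Type} [Field W] [Algebra k W]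
    (g : MvPolynomial (Fin 6 × Fin 3) k →ₐ[k] W) (hg : Function.Injective g) :
    AlgebraicIndependent k (fun i => g (pt (Cgen k) (Jm _) (rrX i)) /
      g (pt (Cgen k) (Jm _) jz)) := by
  haveI : Infinite k := IsAlgClosed.instInfinite
  have hE : (Amat (X : Rho → MvPolynomial Rho k)).det ≠ 0 := by
    intro h
    have h1 := congrArg (eval (fun i : Rho => i.elim (fun _ => (0 : k))
      ![0, 0, 1, 0, 1])) h
    rw [map_zero, RingHom.map_det, RingHom.mapMatrix_apply, Amat_map] at h1
    simp [Amat, Matrix.det_fin_three] at h1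
  refine indep_of_points (pt (Cgen k) (Jm _)) jz rrX _ hE ?_ g hg
  intro x hx
  rw [RingHom.map_det, RingHom.mapMatrix_apply, Amat_map] at hx
  simp only [eval_X] at hx
  obtain ⟨U, hU, hAU⟩ := hNF k (Amat x) (Amat_symm x) hx
  have hpt : ∀ j, pt (Nmat x * U) (Jm k) j = U.det * pt (Nmat x) (Amat x) j := by
    intro j
    rw [pt_mul, ← hAU]
  refine ⟨fun y => (Nmat x * U) y.1 y.2, ?_, ?_⟩
  · rw [eval_psi]
    have h1 : (Matrix.of fun i j => (Nmat x * U) i j) = Nmat x * U := rfl
    rw [h1, hpt, pt_Nmat_jz]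
    simpa [Amat] using hU
  · intro i
    rw [eval_psi, eval_psi]
    have h1 : (Matrix.of fun i j => (Nmat x * U) i j) = Nmat x * U := rfl
    rw [h1, hpt, hpt, mul_div_mul_left _ _ hU, pt_Nmat_jz]
    have h2 : (Amat x) 0 0 = 1 := by simp [Amat]
    rw [h2, div_one]
    rcases i with ⟨i, j⟩ | p
    · rw [pt_Nmat_inl, h2, mul_one]
    · rw [pt_Nmat_inr]
      fin_cases p <;> simp [Amat]

end

end Pool.Agent.Y166.SM
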