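import Mathlib
import Pool.Agent.Y166.SM.Phi0

/-!
# Invariance of the coordinates along rational curves in the fibres
-/

set_option autoImplicit false
set_option linter.unusedSectionVars false
set_option linter.deprecated false
set_option linter.style.haveILetI false

namespace Pool.Agent.Y166.SM

open MvPolynomial Pool.Agent.Y166.GM
open scoped IntermediateField.algebraAdjoinAdjoin

section
variable {k : Type} [Field k]

/-- The ratio of two coordinates of the parametrised point satisfies a polynomial equation over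
the affine coordinates of the image. -/
def HasRel {n : ℕ} (H : Fin (n + 1) → MvPolynomial (Fin 6 × Fin 3) k) (i0 i : Fin (n + 1)) :
    Prop :=
  ∃ R : MvPolynomial (Option Rho) k, R ≠ 0 ∧ ∀ c : Fin 6 × Fin 3 → k,
    eval c (H i0) ≠ 0 → eval c (pt (Cgen k) (Jm _) jz) ≠ 0 →
      eval (fun o : Option Rho => o.elim (eval c (H i) / eval c (H i0))
        (fun r => eval c (pt (Cgen k) (Jm _) (rrX r)) / eval c (pt (Cgen k) (Jm _) jz))) R = 0

theorem param_rel [IsAlgClosed k] [CharZero k] (hNF : StmNF) (hCh : StmChart) {n : ℕ}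
    {Y : Set (PP k (Fin (n + 1)))} (hY : IsProjVar Y)
    {f : PP k (Fin (n + 1)) → PP k (S3 × S2)} (hf : IsMorphism Y f)
    (hfZ : Set.MapsTo f Y (Xsym k)) (hfin : GenFinite Y f) (p : Param Y f (Fin 6 × Fin 3))
    (hp : p.ψ = pt (Cgen k) (Jm _)) :
    ∃ i0, p.H i0 ≠ 0 ∧ ∀ i, HasRel p.H i0 i := by
  classical
  haveI : Infinite k := IsAlgClosed.instInfinite
  set W := FractionRing (MvPolynomial (Fin 6 × Fin 3) k) with hW
  let g : MvPolynomial (Fin 6 × Fin 3) k →ₐ[k] W := IsScalarTower.toAlgHom k _ W
  have hg : Function.Injective g := IsFractionRing.injective _ W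
  have hind := indep_C hNF g hg
  have hψ : pt (Cgen k) (Jm _) jz ≠ 0 := by
    intro h
    have h1 := hind.ne_zero (.inr 0)
    apply h1
    rw [h, map_zero, div_zero]
  obtain ⟨i0, hi0, halg⟩ := param_alg (W := W) (chX hCh) hY hf hfZ hfin p
    (by rw [hp]; exact hψ) g hg (by rw [hp]; exact hind)
  refine ⟨i0, hi0, fun i => ?_⟩
  have h1 := halg i
  rw [hp] at h1
  have h2 : IsAlgebraic (Algebra.adjoin k (Set.range fun i : Rho =>
      g (pt (Cgen k) (Jm _) (rrX i)) / g (pt (Cgen k) (Jm _) jz))) (g (p.H i) / g (p.H i0)) :=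
    (IsFractionRing.isAlgebraic_iff (Algebra.adjoin k (Set.range fun i : Rho =>
      g (pt (Cgen k) (Jm _) (rrX i)) / g (pt (Cgen k) (Jm _) jz)))
      (IntermediateField.adjoin k (Set.range fun i : Rho =>
      g (pt (Cgen k) (Jm _) (rrX i)) / g (pt (Cgen k) (Jm _) jz))) W).2 h1
  have h3 : ¬ AlgebraicIndependent k (fun o : Option Rho => o.elim (g (p.H i) / g (p.H i0))
      (fun i => g (pt (Cgen k) (Jm _) (rrX i)) / g (pt (Cgen k) (Jm _) jz))) := by
    rw [hind.option_iff_transcendental]
    unfold Transcendental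
    rw [not_not]
    exact h2
  rw [algebraicIndependent_iff] at h3
  push Not at h3
  obtain ⟨R, hR, hR0⟩ := h3
  refine ⟨R, hR0, ?_⟩
  obtain ⟨D, Rt, hRt⟩ := exists_clear R (fun o : Option Rho => o.elim
    (p.H i * pt (Cgen k) (Jm _) jz) (fun r => pt (Cgen k) (Jm _) (rrX r) * p.H i0))
    (p.H i0 * pt (Cgen k) (Jm _) jz)
  have hgi0 : g (p.H i0) ≠ 0 := fun h => hi0 (hg (by rw [h, map_zero]))
  have hgψ : g (pt (Cgen k) (Jm _) jz) ≠ 0 := fun h => hψ (hg (by rw [h, map_zero]))
  have hfun : ∀ (K : Type) [Field K] [Algebra k K] (φ : MvPolynomial (Fin 6 × Fin 3) k →ₐ[k] K),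
      φ (p.H i0) ≠ 0 → φ (pt (Cgen k) (Jm _) jz) ≠ 0 →
      (fun s : Option Rho => φ (s.elim (p.H i * pt (Cgen k) (Jm _) jz)
        (fun r => pt (Cgen k) (Jm _) (rrX r) * p.H i0)) /
        φ (p.H i0 * pt (Cgen k) (Jm _) jz)) =
      fun o : Option Rho => o.elim (φ (p.H i) / φ (p.H i0))
        (fun i => φ (pt (Cgen k) (Jm _) (rrX i)) / φ (pt (Cgen k) (Jm _) jz)) := by
    intro K _ _ φ h1 h2
    funext o
    rcases o with _ | r
    · show φ (_ * _) / φ (_ * _) = φ _ / φ _
      rw [map_mul, map_mul, mul_div_mul_right _ _ h2]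
    · show φ (_ * _) / φ (_ * _) = φ _ / φ _
      rw [map_mul, map_mul, mul_comm (φ (p.H i0)), mul_div_mul_right _ _ h1]
  have hRt0 : Rt = 0 := by
    have h4 := hRt W g (by rw [map_mul]; exact mul_ne_zero hgi0 hgψ)
    rw [hfun W g hgi0 hgψ, hR, mul_zero] at h4
    exact hg (by rw [h4, map_zero])
  intro c hc1 hc2
  have h4 := hRt k (aeval c) (by
    rw [map_mul, aeval_eq_eval]
    exact mul_ne_zero hc1 hc2)
  rw [hRt0, map_zero, hfun k (aeval c) (by rw [aeval_eq_eval]; exact hc1)
    (by rw [aeval_eq_eval]; exact hc2), aeval_eq_eval, aeval_eq_eval] at h4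
  rcases mul_eq_zero.1 h4.symm with h5 | h5
  · exact absurd (eq_zero_of_pow_eq_zero h5) (by
      rw [map_mul]
      exact mul_ne_zero hc1 hc2)
  · exact h5

/-- The polynomial of the values of a polynomial along a polynomial family of matrices. -/
noncomputable def along (P : MvPolynomial (Fin 6 × Fin 3) k)
    (M : Matrix (Fin 6) (Fin 3) (Polynomial k)) : Polynomial k :=
  aeval (fun y : Fin 6 × Fin 3 => M y.1 y.2) P

theorem along_eval (P : MvPolynomial (Fin 6 × Fin 3) k)
    (M : Matrix (Fin 6) (Fin 3) (Polynomial k)) (t : k) :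
    (along P M).eval t = eval (fun y : Fin 6 × Fin 3 => (M y.1 y.2).eval t) P := by
  have h : ((Polynomial.evalRingHom t).comp
      (aeval (fun y : Fin 6 × Fin 3 => M y.1 y.2) :
        MvPolynomial (Fin 6 × Fin 3) k →ₐ[k] Polynomial k).toRingHom) =
      (eval (fun y : Fin 6 × Fin 3 => (M y.1 y.2).eval t) : MvPolynomial _ k →+* k) := by
    apply MvPolynomial.ringHom_ext
    · intro r
      simp
    · intro j
      simp
  exact congrArg (fun φ : MvPolynomial (Fin 6 × Fin 3) k →+* k => φ P) h

/-- The parametrised point does not change along rational curves in the fibres. -/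
theorem inv [IsAlgClosed k] [CharZero k] (hNF : StmNF) {n : ℕ}
    (H : Fin (n + 1) → MvPolynomial (Fin 6 × Fin 3) k) (i0 : Fin (n + 1)) (hi0 : H i0 ≠ 0)
    (hrel : ∀ i, HasRel H i0 i) :
    ∃ δ : MvPolynomial (Fin 6 × Fin 3) k, δ ≠ 0 ∧
      ∀ C : Matrix (Fin 6) (Fin 3) k, eval (fun y : Fin 6 × Fin 3 => C y.1 y.2) δ ≠ 0 →
      ∀ (B : Matrix (Fin 3) (Fin 3) (Polynomial k)) (μ : Polynomial k),
        B * Jm _ * B.transpose = μ • Jm _ → B.map (Polynomial.eval 0) = 1 →
        ∀ i j, eval (fun y : Fin 6 × Fin 3 => C y.1 y.2) (H i) *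
            eval (fun y : Fin 6 × Fin 3 => (C * B.map (Polynomial.eval 1)) y.1 y.2) (H j) =
          eval (fun y : Fin 6 × Fin 3 => C y.1 y.2) (H j) *
            eval (fun y : Fin 6 × Fin 3 => (C * B.map (Polynomial.eval 1)) y.1 y.2) (H i) := by
  classical
  haveI : Infinite k := IsAlgClosed.instInfinite
  set W := FractionRing (MvPolynomial (Fin 6 × Fin 3) k) with hW
  let g : MvPolynomial (Fin 6 × Fin 3) k →ₐ[k] W := IsScalarTower.toAlgHom k _ W
  have hg : Function.Injective g := IsFractionRing.injective _ W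
  have hind := indep_C hNF g hg
  have hψ : pt (Cgen k) (Jm _) jz ≠ 0 := by
    intro h
    have h1 := hind.ne_zero (.inr 0)
    apply h1
    rw [h, map_zero, div_zero]
  have hgψ : g (pt (Cgen k) (Jm _) jz) ≠ 0 := fun h => hψ (hg (by rw [h, map_zero]))
  choose R hR0 hR using hrel
  -- special values
  have hT : ∀ i, ∃ (T : k) (ct : MvPolynomial (Fin 6 × Fin 3) k), ct ≠ 0 ∧
      ∀ c : Fin 6 × Fin 3 → k, eval c (pt (Cgen k) (Jm _) jz) ≠ 0 → eval c ct ≠ 0 →
        eval (fun o : Option Rho => o.elim T
          (fun r => eval c (pt (Cgen k) (Jm _) (rrX r)) / eval c (pt (Cgen k) (Jm _) jz)))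
          (R i) ≠ 0 := by
    intro i
    obtain ⟨x, hx⟩ := exists_eval_ne (hR0 i)
    let Rs : MvPolynomial Rho k := aeval (fun o : Option Rho => o.elim (C (x none)) X) (R i)
    have hRs : ∀ z : Rho → k, eval z Rs = eval (fun o : Option Rho => o.elim (x none) z) (R i) := by
      intro z
      rw [eval_aeval]
      congr 1
      congr 1
      funext o
      rcases o with _ | r
      · simp
      · simp
    have hRs0 : Rs ≠ 0 := by
      intro h
      apply hx
      have h1 := hRs (fun r => x (some r))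
      rw [h, map_zero] at h1
      rw [h1]
      congr 1
      congr 1
      funext o
      rcases o with _ | r <;> rfl
    obtain ⟨D, Rt, hRt⟩ := exists_clear Rs (fun r => pt (Cgen k) (Jm _) (rrX r))
      (pt (Cgen k) (Jm _) jz)
    refine ⟨x none, Rt, ?_, ?_⟩
    · intro h
      have h1 := hRt W g hgψ
      rw [h, map_zero] at h1
      rcases mul_eq_zero.1 h1.symm with h2 | h2
      · exact hgψ (eq_zero_of_pow_eq_zero h2)
      · exact hRs0 (hind (by rw [h2, map_zero]))
    · intro c hc1 hc2 h
      have h1 := hRt k (aeval c) (by rw [aeval_eq_eval]; exact hc1)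
      rw [aeval_eq_eval, aeval_eq_eval, hRs] at h1
      apply hc2
      rw [h1, h, mul_zero]
  choose T ct hct0 hct using hT
  refine ⟨H i0 * pt (Cgen k) (Jm _) jz * ∏ i, ct i, ?_, ?_⟩
  · exact mul_ne_zero (mul_ne_zero hi0 hψ) (Finset.prod_ne_zero_iff.2 fun i _ => hct0 i)
  intro C0 hC B μ hB hB0
  set c : Fin 6 × Fin 3 → k := fun y => C0 y.1 y.2 with hc
  rw [map_mul, map_mul, map_prod] at hC
  have hc1 : eval c (H i0) ≠ 0 := left_ne_zero_of_mul (left_ne_zero_of_mul hC)
  have hc2 : eval c (pt (Cgen k) (Jm _) jz) ≠ 0 :=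
    right_ne_zero_of_mul (left_ne_zero_of_mul hC)
  have hc3 : ∀ i, eval c (ct i) ≠ 0 := fun i =>
    Finset.prod_ne_zero_iff.1 (right_ne_zero_of_mul hC) i (Finset.mem_univ i)
  -- the family
  set M : Matrix (Fin 6) (Fin 3) (Polynomial k) := C0.map Polynomial.C * B with hM
  have hMt : ∀ t : k, (fun y : Fin 6 × Fin 3 => (M y.1 y.2).eval t) =
      fun y : Fin 6 × Fin 3 => (C0 * B.map (Polynomial.eval t)) y.1 y.2 := by
    intro t
    funext y
    rw [hM, Matrix.mul_apply, Matrix.mul_apply, Polynomial.eval_finset_sum]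
    refine Finset.sum_congr rfl fun j _ => ?_
    rw [Polynomial.eval_mul, Matrix.map_apply, Polynomial.eval_C, Matrix.map_apply]
  have hBt : ∀ t : k, B.map (Polynomial.eval t) * Jm k * (B.map (Polynomial.eval t)).transpose =
      μ.eval t • Jm k := by
    intro t
    have h1 := congrArg (fun N : Matrix (Fin 3) (Fin 3) (Polynomial k) =>
      N.map (Polynomial.evalRingHom t)) hB
    simp only [Matrix.map_mul, Jm_map, Matrix.transpose_map] at h1
    refine h1.trans ?_
    ext i j
    have h2 : Polynomial.eval t (Jm (Polynomial k) i j) = Jm k i j :=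
      congrFun (congrFun (Jm_map (Polynomial.evalRingHom t)) i) j
    show Polynomial.eval t (μ * Jm (Polynomial k) i j) = Polynomial.eval t μ * Jm k i j
    rw [Polynomial.eval_mul, h2]
  have hμ0 : μ.eval 0 = 1 := by
    have h1 := congrFun (congrFun (hBt 0) 0) 2
    rw [hB0] at h1
    simp [Jm] at h1
    exact h1.symm
  have hd0 : B.det.eval 0 = 1 := by
    have h1 := RingHom.map_det (Polynomial.evalRingHom (0 : k)) B
    rw [RingHom.mapMatrix_apply] at h1
    have h2 : B.map (Polynomial.evalRingHom (0 : k)) = 1 := hB0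
    rw [h2, Matrix.det_one] at h1
    exact h1
  have hpsi : ∀ (t : k) (j : S3 × S2),
      eval (fun y : Fin 6 × Fin 3 => (C0 * B.map (Polynomial.eval t)) y.1 y.2)
        (pt (Cgen k) (Jm _) j) = B.det.eval t * μ.eval t * eval c (pt (Cgen k) (Jm _) j) := by
    intro t j
    rw [eval_psi, eval_psi]
    have h1 : (Matrix.of fun i j => (C0 * B.map (Polynomial.eval t)) i j) =
      C0 * B.map (Polynomial.eval t) := rfl
    have h2 : (Matrix.of fun i j => c (i, j)) = C0 := rfl
    rw [h1, h2, pt_mul, hBt, pt_smul, ← mul_assoc]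
    congr 2
    have h3 := RingHom.map_det (Polynomial.evalRingHom t) B
    rw [RingHom.mapMatrix_apply] at h3
    exact h3.symm
  set b : Polynomial k := along (H i0) M with hb
  have hM0 : (fun y : Fin 6 × Fin 3 => (M y.1 y.2).eval 0) = c := by
    rw [hMt, hB0, Matrix.mul_one]
  have hb0 : b.eval 0 = eval c (H i0) := by
    rw [hb, along_eval, hM0]
  have hne : b * B.det * μ ≠ 0 := by
    intro h
    have h1 := congrArg (Polynomial.eval 0) h
    rw [Polynomial.eval_mul, Polynomial.eval_mul, hμ0, hd0, mul_one, mul_one, hb0,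
      Polynomial.eval_zero] at h1
    exact hc1 h1
  have key : ∀ i, ∃ r : k, along (H i) M = Polynomial.C r * b := by
    intro i
    set q : Polynomial k := aeval (fun o : Option Rho => o.elim Polynomial.X
      (fun r => Polynomial.C (eval c (pt (Cgen k) (Jm _) (rrX r)) /
        eval c (pt (Cgen k) (Jm _) jz)))) (R i) with hq
    have hqe : ∀ s : k, q.eval s = eval (fun o : Option Rho => o.elim s
        (fun r => eval c (pt (Cgen k) (Jm _) (rrX r)) /
          eval c (pt (Cgen k) (Jm _) jz))) (R i) := by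
      intro s
      have h : ((Polynomial.evalRingHom s).comp
          (aeval (fun o : Option Rho => o.elim Polynomial.X
            (fun r => Polynomial.C (eval c (pt (Cgen k) (Jm _) (rrX r)) /
              eval c (pt (Cgen k) (Jm _) jz)))) :
            MvPolynomial (Option Rho) k →ₐ[k] Polynomial k).toRingHom) =
          (eval (fun o : Option Rho => o.elim s
            (fun r => eval c (pt (Cgen k) (Jm _) (rrX r)) /
              eval c (pt (Cgen k) (Jm _) jz))) : MvPolynomial _ k →+* k) := by
        apply MvPolynomial.ringHom_ext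
        · intro r
          simp
        · rintro (_ | r)
          · simp
          · simp
      exact congrArg (fun φ : MvPolynomial (Option Rho) k →+* k => φ (R i)) h
    have hq0 : q ≠ 0 := by
      intro h
      apply hct i c hc2 (hc3 i)
      rw [← hqe, h, Polynomial.eval_zero]
    have hprod : (∏ r ∈ q.roots.toFinset, (along (H i) M - Polynomial.C r * b)) = 0 := by
      have h1 : (b * B.det * μ) *
          (∏ r ∈ q.roots.toFinset, (along (H i) M - Polynomial.C r * b)) = 0 := by
        apply Polynomial.funext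
        intro t
        rw [Polynomial.eval_mul, Polynomial.eval_zero]
        by_cases ht : (b * B.det * μ).eval t = 0
        · rw [ht, zero_mul]
        rw [Polynomial.eval_mul, Polynomial.eval_mul] at ht
        have ht1 : b.eval t ≠ 0 := left_ne_zero_of_mul (left_ne_zero_of_mul ht)
        have ht2 : B.det.eval t * μ.eval t ≠ 0 :=
          mul_ne_zero (right_ne_zero_of_mul (left_ne_zero_of_mul ht)) (right_ne_zero_of_mul ht)
        rw [Polynomial.eval_prod]
        rw [Finset.prod_eq_zero (i := (along (H i) M).eval t / b.eval t), mul_zero]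
        · rw [Multiset.mem_toFinset, Polynomial.mem_roots hq0, Polynomial.IsRoot.def, hqe]
          have h2 := hR i (fun y : Fin 6 × Fin 3 => (C0 * B.map (Polynomial.eval t)) y.1 y.2)
            (by
              rw [← hMt, ← along_eval]
              exact ht1)
            (by
              rw [hpsi]
              exact mul_ne_zero ht2 hc2)
          have h3 : (fun r : Rho => eval (fun y : Fin 6 × Fin 3 =>
              (C0 * B.map (Polynomial.eval t)) y.1 y.2) (pt (Cgen k) (Jm _) (rrX r)) /
              eval (fun y : Fin 6 × Fin 3 => (C0 * B.map (Polynomial.eval t)) y.1 y.2)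
                (pt (Cgen k) (Jm _) jz)) =
              fun r => eval c (pt (Cgen k) (Jm _) (rrX r)) / eval c (pt (Cgen k) (Jm _) jz) := by
            funext r
            rw [hpsi, hpsi, mul_div_mul_left _ _ ht2]
          rw [h3] at h2
          rw [along_eval, hb, along_eval, hMt]
          exact h2
        · rw [Polynomial.eval_sub, Polynomial.eval_mul, Polynomial.eval_C,
            div_mul_cancel₀ _ ht1, sub_self]
      rcases mul_eq_zero.1 h1 with h2 | h2
      · exact absurd h2 hne
      · exact h2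
    obtain ⟨r, _, hr⟩ := Finset.prod_eq_zero_iff.1 hprod
    exact ⟨r, sub_eq_zero.1 hr⟩
  intro i j
  obtain ⟨ri, hri⟩ := key i
  obtain ⟨rj, hrj⟩ := key j
  have e0 : ∀ l, eval c (H l) = (along (H l) M).eval 0 := by
    intro l
    rw [along_eval, hM0]
  have e1 : ∀ l, eval (fun y : Fin 6 × Fin 3 => (C0 * B.map (Polynomial.eval 1)) y.1 y.2) (H l) =
      (along (H l) M).eval 1 := by
    intro l
    rw [along_eval, hMt]
  rw [e0, e0, e1, e1, hri, hrj]
  simp only [Polynomial.eval_mul, Polynomial.eval_C]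
  ring

end

end Pool.Agent.Y166.SM
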