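import Mathlib
import Pool.Agent.Y166.SM.Phi1
import Pool.Agent.Y899.SM.Even

/-!
# The family of split forms and its double cover
-/

set_option autoImplicit false
set_option linter.unusedSectionVars false
set_option linter.deprecated false
set_option linter.style.haveILetI false

namespace Pool.Agent.Y166.SM

open Pool.Agent.Y166.GM

section
variable {k : Type} [Field k]

/-- The ring of the parameters `p`, `q`, `r` (three vectors of length six) and `γ`. -/
abbrev RA (k : Type) [Field k] : Type := MvPolynomial (Option (Fin 6 × Fin 3)) k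

/-- The matrix with the columns `γ (p - ω q)`, `r`, `p + ω q`. -/
def Com {A : Type} [CommRing A] (a : Option (Fin 6 × Fin 3) → A) (w : A) :
    Matrix (Fin 6) (Fin 3) A :=
  Matrix.of fun i j => ![a none * (a (some (i, 0)) - w * a (some (i, 1))), a (some (i, 2)),
    a (some (i, 0)) + w * a (some (i, 1))] j

/-- The matrix with the columns `p`, `q`, `r`. -/
def Cpq {A : Type} [CommRing A] (a : Option (Fin 6 × Fin 3) → A) : Matrix (Fin 6) (Fin 3) A :=
  Matrix.of fun i j => a (some (i, j))

/-- The diagonal form. -/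
def Qd {A : Type} [CommRing A] (c b : A) : Matrix (Fin 3) (Fin 3) A :=
  !![c, 0, 0; 0, -(c * b), 0; 0, 0, -1]

/-- The change of the basis. -/
def Ed {A : Type} [CommRing A] (c w : A) : Matrix (Fin 3) (Fin 3) A :=
  !![c, 0, 1; -(c * w), 0, w; 0, 1, 0]

theorem Com_eq {A : Type} [CommRing A] (a : Option (Fin 6 × Fin 3) → A) (w : A) :
    Com a w = Cpq a * Ed (a none) w := by
  ext i j
  rw [Matrix.mul_apply, Fin.sum_univ_three]
  fin_cases j <;> simp [Com, Cpq, Ed] <;> ring

theorem Ed_form {A : Type} [CommRing A] (c w : A) :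
    Ed c w * Jm A * (Ed c w).transpose = (2 : A) • Qd c (w ^ 2) := by
  ext i j
  fin_cases i <;> fin_cases j <;>
    simp [Ed, Jm, Qd, Matrix.mul_apply, Fin.sum_univ_three, Matrix.vecMul, dotProduct] <;> ring

theorem Ed_det {A : Type} [CommRing A] (c w : A) : (Ed c w).det = -(2 * c * w) := by
  simp [Ed, Matrix.det_fin_three]
  ring

theorem pt_Com {A : Type} [CommRing A] (a : Option (Fin 6 × Fin 3) → A) (w : A) (j : S3 × S2) :
    pt (Com a w) (Jm A) j = -(4 * a none * w) * pt (Cpq a) (Qd (a none) (w ^ 2)) j := by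
  rw [Com_eq, pt_mul, Ed_form, Ed_det, pt_smul]
  ring

/-- Evaluation at values of the parameters and of `ω`. -/
noncomputable def ev (a : Option (Fin 6 × Fin 3) → k) (w : k) : Polynomial (RA k) →+* k :=
  Polynomial.eval₂RingHom (MvPolynomial.eval a) w

theorem ev_X (a : Option (Fin 6 × Fin 3) → k) (w : k) : ev a w Polynomial.X = w := by
  simp [ev]

theorem ev_C (a : Option (Fin 6 × Fin 3) → k) (w : k) (P : RA k) :
    ev a w (Polynomial.C P) = MvPolynomial.eval a P := by
  simp [ev]

theorem ev_algebraMap (a : Option (Fin 6 × Fin 3) → k) (w : k) (r : k) :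
    ev a w (algebraMap k _ r) = r := by
  have : algebraMap k (Polynomial (RA k)) r = Polynomial.C (MvPolynomial.C r) := rfl
  rw [this, ev_C, MvPolynomial.eval_C]

theorem ev_comp (a : Option (Fin 6 × Fin 3) → k) (w : k) (P Q : Polynomial (RA k)) :
    ev a w (P.comp Q) = ev a (ev a w Q) P := by
  show Polynomial.eval₂ _ _ _ = Polynomial.eval₂ _ _ _
  rw [Polynomial.eval₂_comp]
  rfl

theorem ev_ext [Infinite k] {P : Polynomial (RA k)} (h : ∀ a w, ev a w P = 0) : P = 0 := by
  haveI : Infinite (RA k) := Infinite.of_injective _ (MvPolynomial.C_injective _ k)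
  have h1 : ∀ a : Option (Fin 6 × Fin 3) → k, P.map (MvPolynomial.eval a) = 0 := by
    intro a
    apply Polynomial.funext
    intro w
    rw [Polynomial.eval_map, Polynomial.eval_zero]
    exact h a w
  ext i : 1
  rw [Polynomial.coeff_zero]
  apply MvPolynomial.funext
  intro a
  rw [map_zero, ← Polynomial.coeff_map, h1 a, Polynomial.coeff_zero]

theorem ev_exists [Infinite k] {P : Polynomial (RA k)} (h : P ≠ 0) : ∃ a w, ev a w P ≠ 0 := by
  by_contra hcon
  push Not at hcon
  exact h (ev_ext hcon)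

theorem ev_dense [Infinite k] {D P : Polynomial (RA k)} (hD : D ≠ 0)
    (h : ∀ a w, ev a w D ≠ 0 → ev a w P = 0) : P = 0 := by
  have h1 : D * P = 0 := by
    apply ev_ext
    intro a w
    rw [map_mul]
    by_cases h0 : ev a w D = 0
    · rw [h0, zero_mul]
    · rw [h a w h0, mul_zero]
  rcases mul_eq_zero.1 h1 with h2 | h2
  · exact absurd h2 hD
  · exact h2

/-- The generic parameters. -/
noncomputable def genA (k : Type) [Field k] (o : Option (Fin 6 × Fin 3)) : Polynomial (RA k) :=
  Polynomial.C (MvPolynomial.X o)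

theorem ev_genA (a : Option (Fin 6 × Fin 3) → k) (w : k) (o : Option (Fin 6 × Fin 3)) :
    ev a w (genA k o) = a o := by
  rw [genA, ev_C, MvPolynomial.eval_X]

/-- The value of a polynomial at the matrix `Com`. -/
noncomputable def atCom (P : MvPolynomial (Fin 6 × Fin 3) k) : Polynomial (RA k) :=
  MvPolynomial.aeval (fun y : Fin 6 × Fin 3 =>
    Com (genA k) Polynomial.X y.1 y.2) P

theorem ev_atCom (a : Option (Fin 6 × Fin 3) → k) (w : k) (P : MvPolynomial (Fin 6 × Fin 3) k) :
    ev a w (atCom P) = MvPolynomial.eval (fun y : Fin 6 × Fin 3 => Com a w y.1 y.2) P := by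
  have h : ((ev a w).comp
      (MvPolynomial.aeval (fun y : Fin 6 × Fin 3 =>
        Com (genA k) Polynomial.X y.1 y.2) :
        MvPolynomial (Fin 6 × Fin 3) k →ₐ[k] Polynomial (RA k)).toRingHom) =
      (MvPolynomial.eval (fun y : Fin 6 × Fin 3 => Com a w y.1 y.2) :
        MvPolynomial _ k →+* k) := by
    apply MvPolynomial.ringHom_ext
    · intro r
      rw [RingHom.comp_apply, MvPolynomial.eval_C]
      have : (MvPolynomial.aeval (fun y : Fin 6 × Fin 3 =>
        Com (genA k) Polynomial.X y.1 y.2) :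
        MvPolynomial (Fin 6 × Fin 3) k →ₐ[k] Polynomial (RA k)).toRingHom (MvPolynomial.C r) =
          algebraMap k _ r := MvPolynomial.aeval_C _ r
      rw [this, ev_algebraMap]
    · rintro ⟨i, j⟩
      rw [RingHom.comp_apply, MvPolynomial.eval_X]
      have : (MvPolynomial.aeval (fun y : Fin 6 × Fin 3 =>
        Com (genA k) Polynomial.X y.1 y.2) :
        MvPolynomial (Fin 6 × Fin 3) k →ₐ[k] Polynomial (RA k)).toRingHom
          (MvPolynomial.X (i, j)) =
          Com (genA k) Polynomial.X i j :=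
        MvPolynomial.aeval_X _ _
      rw [this]
      fin_cases j
      · simp [Com, ev_X, ev_genA]
      · simp [Com, ev_genA]
      · simp [Com, ev_X, ev_genA]
  exact congrArg (fun φ : MvPolynomial (Fin 6 × Fin 3) k →+* k => φ P) h

/-- Every matrix is of the form `Com a 1` with `γ = 1`. -/
theorem exists_Com [CharZero k] (C : Matrix (Fin 6) (Fin 3) k) :
    ∃ a : Option (Fin 6 × Fin 3) → k, a none = 1 ∧ Com a 1 = C := by
  refine ⟨fun o => o.elim 1 fun y => ![(C y.1 2 + C y.1 0) / 2, (C y.1 2 - C y.1 0) / 2,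
    C y.1 1] y.2, rfl, ?_⟩
  ext i j
  fin_cases j
  · simp [Com]
    ring
  · simp [Com]
  · simp [Com]
    ring

theorem atCom_ne_zero [CharZero k] {P : MvPolynomial (Fin 6 × Fin 3) k} (hP : P ≠ 0) :
    atCom P ≠ 0 := by
  obtain ⟨c, hc⟩ := exists_eval_ne hP
  obtain ⟨a, _, ha⟩ := exists_Com (Matrix.of fun i j => c (i, j))
  intro h
  apply hc
  have h1 := ev_atCom a 1 P
  rw [h, map_zero, ha] at h1
  exact h1.symm

/-- An even polynomial is a polynomial in the square of the variable. -/
theorem even_poly {A : Type} [CommRing A] [IsDomain A] [CharZero A] (N : Polynomial A)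
    (hN : N.comp (-Polynomial.X) = N) : ∃ M : Polynomial A, N = M.comp (Polynomial.X ^ 2) := by
  refine ⟨Pool.Agent.Y899.SM.ev N, ?_⟩
  have h1 := Pool.Agent.Y899.SM.split N
  have h2 := Pool.Agent.Y899.SM.comp_neg N
  rw [hN] at h2
  have h3 : (2 : Polynomial A) * N =
      2 * (Pool.Agent.Y899.SM.ev N).comp (Polynomial.X ^ 2) := by
    calc (2 : Polynomial A) * N = N + N := by ring
      _ = ((Pool.Agent.Y899.SM.ev N).comp (Polynomial.X ^ 2) +
          Polynomial.X * (Pool.Agent.Y899.SM.od N).comp (Polynomial.X ^ 2)) +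
          ((Pool.Agent.Y899.SM.ev N).comp (Polynomial.X ^ 2) -
          Polynomial.X * (Pool.Agent.Y899.SM.od N).comp (Polynomial.X ^ 2)) := by
        rw [← h1, ← h2]
      _ = _ := by ring
  exact mul_left_cancel₀ two_ne_zero h3

/-- The path between the two points of the double cover. -/
noncomputable def path (c : k) : Matrix (Fin 3) (Fin 3) (Polynomial k) :=
  (1 + Polynomial.X * Polynomial.C (1 / c - 1)) •
    rhoM (1 - Polynomial.X) (Polynomial.X * Polynomial.C c) Polynomial.X (1 - Polynomial.X)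

theorem path_zero (c : k) : (path c).map (Polynomial.eval 0) = 1 := by
  ext i j
  fin_cases i <;> fin_cases j <;> simp [path, rhoM]

theorem path_form (hRho : StmRho) (c : k) : path c * Jm _ * (path c).transpose =
    ((1 + Polynomial.X * Polynomial.C (1 / c - 1)) ^ 2 *
      ((1 - Polynomial.X) * (1 - Polynomial.X) -
        Polynomial.X * Polynomial.C c * Polynomial.X) ^ 2) • Jm _ := by
  unfold path
  rw [Matrix.smul_mul, Matrix.smul_mul, Matrix.transpose_smul, Matrix.mul_smul,
    (hRho _ _ _ _ _).1, smul_smul, smul_smul]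
  congr 1
  ring

theorem path_one (a : Option (Fin 6 × Fin 3) → k) (w : k) (ha : a none ≠ 0) :
    Com a w * (path (a none)).map (Polynomial.eval 1) = Com a (-w) := by
  ext i j
  rw [Matrix.mul_apply, Fin.sum_univ_three]
  fin_cases j
  · simp [Com, path, rhoM]
    field_simp
  · simp [Com, path, rhoM]
    field_simp
  · simp [Com, path, rhoM]
    field_simp
    ring

/-- The parametrised point over the quotient of the double cover. -/
theorem descend [IsAlgClosed k] [CharZero k] (hNF : StmNF) (hRho : StmRho) (hEv : StmEven)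
    {n : ℕ} (H : Fin (n + 1) → MvPolynomial (Fin 6 × Fin 3) k) (i0 : Fin (n + 1))
    (hi0 : H i0 ≠ 0) (hrel : ∀ i, HasRel H i0 i) (D : MvPolynomial (Fin 6 × Fin 3) k)
    (hD : D ≠ 0) :
    ∃ (h : Fin (n + 1) → Polynomial (RA k)) (N : Polynomial (RA k)), (∃ i, h i ≠ 0) ∧ N ≠ 0 ∧
      (∀ a w, ev a (w ^ 2) N ≠ 0 →
        MvPolynomial.eval (fun y : Fin 6 × Fin 3 => Com a w y.1 y.2) D ≠ 0) ∧
      ∀ a w i j, MvPolynomial.eval (fun y : Fin 6 × Fin 3 => Com a w y.1 y.2) (H i) *
          ev a (w ^ 2) (h j) =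
        MvPolynomial.eval (fun y : Fin 6 × Fin 3 => Com a w y.1 y.2) (H j) *
          ev a (w ^ 2) (h i) := by
  classical
  haveI : Infinite k := IsAlgClosed.instInfinite
  obtain ⟨δ, hδ, hinv⟩ := inv hNF H i0 hi0 hrel
  have hrel2 : ∀ i j, atCom (H i) * (atCom (H j)).comp (-Polynomial.X) =
      atCom (H j) * (atCom (H i)).comp (-Polynomial.X) := by
    intro i j
    rw [← sub_eq_zero]
    refine ev_dense (mul_ne_zero (atCom_ne_zero hδ)
      (Polynomial.C_ne_zero.2 (MvPolynomial.X_ne_zero (R := k) (none : Option (Fin 6 × Fin 3))))) ?_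
    intro a w haw
    rw [map_mul, ev_atCom, ev_C, MvPolynomial.eval_X] at haw
    have h1 := hinv (Com a w) (left_ne_zero_of_mul haw) (path (a none)) _
      (path_form hRho (a none)) (path_zero (a none)) i j
    rw [path_one a w (right_ne_zero_of_mul haw)] at h1
    rw [map_sub, map_mul, map_mul, ev_comp, ev_comp, map_neg, ev_X, ev_atCom, ev_atCom, ev_atCom,
      ev_atCom, h1, sub_self]
  obtain ⟨h, hh, hhr⟩ := hEv (RA k) n (fun i => atCom (H i)) ⟨i0, atCom_ne_zero hi0⟩ hrel2
  have hDc : atCom D ≠ 0 := atCom_ne_zero hD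
  have hDc' : (atCom D).comp (-Polynomial.X) ≠ 0 := by
    intro h0
    apply hDc
    have h1 := congrArg (fun P => Polynomial.comp P (-Polynomial.X)) h0
    simp only [Polynomial.zero_comp] at h1
    rw [Polynomial.comp_assoc] at h1
    simpa using h1
  obtain ⟨N, hN⟩ := even_poly (atCom D * (atCom D).comp (-Polynomial.X)) (by
    rw [Polynomial.mul_comp, Polynomial.comp_assoc, mul_comm]
    simp)
  refine ⟨h, N, hh, ?_, ?_, ?_⟩
  · intro h0
    rw [h0, Polynomial.zero_comp] at hN
    exact mul_ne_zero hDc hDc' hN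
  · intro a w haw h0
    apply haw
    have h1 := congrArg (ev a w) hN
    have h2 : ev a w (N.comp (Polynomial.X ^ 2)) = ev a (w ^ 2) N := by
      rw [ev_comp, map_pow, ev_X]
    have h3 : ev a w (atCom D) = 0 := by rw [ev_atCom, h0]
    rw [map_mul, h2, h3, zero_mul] at h1
    exact h1.symm
  · intro a w i j
    have h1 := congrArg (ev a w) (hhr i j)
    have h2 : ∀ l, ev a w ((h l).comp (Polynomial.X ^ 2)) = ev a (w ^ 2) (h l) := by
      intro l
      rw [ev_comp, map_pow, ev_X]
    rw [map_mul, map_mul, h2, h2, ev_atCom, ev_atCom] at h1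
    exact h1

end

end Pool.Agent.Y166.SM
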