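import Mathlib
import Pool.Agent.Y166.SM.Phi2
import Pool.Agent.Y110.SM.NF
import Pool.Agent.Y337.SM.Two
import Pool.Agent.Y894.SM.Chart

/-!
# Rational sections: a generically finite morphism through which the split forms factor is
birational
-/

set_option autoImplicit false
set_option linter.unusedSectionVars false
set_option linter.deprecated false
set_option linter.style.haveILetI false

namespace Pool.Agent.Y166.SM

open MvPolynomial Pool.Agent.Y166.GM

section rings
variable {A B : Type} [CommRing A] [CommRing B]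

/-- A unipotent lower triangular matrix. -/
def Lm (x : Rho → A) : Matrix (Fin 3) (Fin 3) A :=
  !![1, 0, 0; x (.inr 0), 1, 0; x (.inr 1), x (.inr 2), 1]

/-- The matrices of the slice. -/
def Sl (T : Matrix (Fin 3) (Fin 3) A) (x : Rho → A) : Matrix (Fin 6) (Fin 3) A :=
  Nmat x * (T * Lm x)

/-- The parameters of the slice. -/
def slA (T : Matrix (Fin 3) (Fin 3) A) (x : Rho → A) (o : Option (Fin 6 × Fin 3)) : A :=
  o.elim (x (.inr 3)) fun y => Sl T x y.1 y.2

theorem Lm_map (φ : A →+* B) (x : Rho → A) : (Lm x).map φ = Lm fun i => φ (x i) := by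
  ext i j
  fin_cases i <;> fin_cases j <;> simp [Lm]

theorem Lm_det (x : Rho → A) : (Lm x).det = 1 := by
  simp [Lm, Matrix.det_fin_three]

theorem Sl_map (φ : A →+* B) (T : Matrix (Fin 3) (Fin 3) A) (x : Rho → A) :
    (Sl T x).map φ = Sl (T.map φ) fun i => φ (x i) := by
  unfold Sl
  rw [Matrix.map_mul, Matrix.map_mul, Nmat_map, Lm_map]

theorem slA_map (φ : A →+* B) (T : Matrix (Fin 3) (Fin 3) A) (x : Rho → A)
    (o : Option (Fin 6 × Fin 3)) : φ (slA T x o) = slA (T.map φ) (fun i => φ (x i)) o := by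
  rcases o with _ | y
  · rfl
  · show φ (Sl T x y.1 y.2) = Sl _ _ y.1 y.2
    rw [← Sl_map]
    rfl

theorem Cpq_slA (T : Matrix (Fin 3) (Fin 3) A) (x : Rho → A) : Cpq (slA T x) = Sl T x := rfl

theorem Qd_map (φ : A →+* B) (c b : A) : (Qd c b).map φ = Qd (φ c) (φ b) := by
  ext i j
  fin_cases i <;> fin_cases j <;> simp [Qd]

/-- The Gram matrix of the slice. -/
def Gr (T : Matrix (Fin 3) (Fin 3) A) (x : Rho → A) : Matrix (Fin 3) (Fin 3) A :=
  T * Lm x * Qd (x (.inr 3)) (x (.inr 4)) * (T * Lm x).transpose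

theorem pt_Sl (T : Matrix (Fin 3) (Fin 3) A) (x : Rho → A) (j : S3 × S2) :
    pt (Sl T x) (Qd (x (.inr 3)) (x (.inr 4))) j = T.det * pt (Nmat x) (Gr T x) j := by
  unfold Sl
  rw [pt_mul, Matrix.det_mul, Lm_det, mul_one]
  rfl

theorem Qd_symm (c b : A) : (Qd c b).transpose = Qd c b := by
  ext i j
  fin_cases i <;> fin_cases j <;> simp [Qd]

theorem Gr_symm (T : Matrix (Fin 3) (Fin 3) A) (x : Rho → A) :
    (Gr T x).transpose = Gr T x := by
  unfold Gr
  rw [Matrix.transpose_mul, Matrix.transpose_mul (T * Lm x), Matrix.transpose_transpose, Qd_symm]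
  simp only [Matrix.mul_assoc]

end rings

section
variable {k : Type} [Field k]

/-- The restriction to the slice. -/
noncomputable def Psi (T : Matrix (Fin 3) (Fin 3) k) : Polynomial (RA k) →+* MvPolynomial Rho k :=
  Polynomial.eval₂RingHom
    (MvPolynomial.eval₂Hom MvPolynomial.C (slA (T.map MvPolynomial.C) MvPolynomial.X))
    (MvPolynomial.X (.inr 4))

theorem eval_Psi (T : Matrix (Fin 3) (Fin 3) k) (x : Rho → k) (P : Polynomial (RA k)) :
    eval x (Psi T P) = ev (slA T x) (x (.inr 4)) P := by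
  have h : (eval x).comp (Psi T) = ev (slA T x) (x (.inr 4)) := by
    apply Polynomial.ringHom_ext'
    · apply MvPolynomial.ringHom_ext
      · intro r
        simp [Psi, ev]
      · intro o
        simp only [Psi, ev, RingHom.comp_apply, Polynomial.coe_eval₂RingHom, Polynomial.eval₂_C,
          eval₂Hom_X', eval_X]
        rw [slA_map]
        congr 1
        · ext i j
          simp
        · funext i
          simp
    · simp [Psi, ev]
  exact congrArg (fun φ : Polynomial (RA k) →+* k => φ P) h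

theorem rep_prop {σ : Type} {y : PP k σ} {v u : σ → k} (hv : Rep y v) (hu : u ≠ 0)
    (h : ∀ i j, v i * u j = v j * u i) : Rep y u := by
  obtain ⟨j, hj⟩ : ∃ j, v j ≠ 0 := by
    by_contra hcon
    push Not at hcon
    exact hv.ne_zero (funext hcon)
  have h1 : u = (u j / v j) • v := by
    funext i
    rw [Pi.smul_apply, smul_eq_mul]
    field_simp
    rw [mul_comm, h j i, mul_comm]
  have h2 : u j / v j ≠ 0 := by
    intro h0
    apply hu
    rw [h1, h0, zero_smul]
  rw [h1]
  exact hv.smul h2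

/-- Base points lie on slices. -/
theorem exists_slice (a : Option (Fin 6 × Fin 3) → k) (b : k)
    (hT : ((Cpq a).submatrix (![0, 1, 2] : S3) id).det ≠ 0) :
    ∃ x : Rho → k, slA ((Cpq a).submatrix (![0, 1, 2] : S3) id) x = a ∧ x (.inr 4) = b := by
  set T := (Cpq a).submatrix (![0, 1, 2] : S3) id with hTdef
  set Lw := (Cpq a).submatrix lo id with hLw
  set x : Rho → k := fun r => r.elim (fun y => (Lw * T⁻¹) y.2 y.1)
    ![0, 0, 0, a none, b] with hx
  have hL : Lm x = 1 := by
    ext i j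
    fin_cases i <;> fin_cases j <;> simp [Lm, hx]
  have hLT : Lw * T⁻¹ * T = Lw := by
    rw [Matrix.mul_assoc, Matrix.nonsing_inv_mul _ (isUnit_iff_ne_zero.2 hT), Matrix.mul_one]
  have hlow : ∀ i j, ∑ l, (Lw * T⁻¹) i l * T l j = Lw i j := by
    intro i j
    rw [← Matrix.mul_apply, hLT]
  refine ⟨x, ?_, ?_⟩
  · funext o
    rcases o with _ | ⟨i, j⟩
    · simp [slA, hx]
    · show (Nmat x * (T * Lm x)) i j = a (some (i, j))
      rw [hL, Matrix.mul_one, Matrix.mul_apply, Fin.sum_univ_three]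
      have e0 := hlow 0 j
      have e1 := hlow 1 j
      have e2 := hlow 2 j
      rw [Fin.sum_univ_three] at e0 e1 e2
      fin_cases i
      · simp [Nmat, hTdef, Cpq]
      · simp [Nmat, hTdef, Cpq]
      · simp [Nmat, hTdef, Cpq]
      · simpa [Nmat, hx, hLw, Cpq, lo] using e0
      · simpa [Nmat, hx, hLw, Cpq, lo] using e1
      · simpa [Nmat, hx, hLw, Cpq, lo] using e2
  · simp [hx]

/-- A parametrised point over a slice. -/
theorem exists_slParam [IsAlgClosed k] [CharZero k] (hNF : StmNF) (hRho : StmRho)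
    (hEv : StmEven) (hCh : StmChart) {n : ℕ} {Y : Set (PP k (Fin (n + 1)))} (hY : IsProjVar Y)
    {f : PP k (Fin (n + 1)) → PP k (S3 × S2)} (hf : IsMorphism Y f)
    (hfZ : Set.MapsTo f Y (Xsym k)) (hfin : GenFinite Y f) (p : Param Y f (Fin 6 × Fin 3))
    (hp : p.ψ = pt (Cgen k) (Jm _)) :
    ∃ (T : Matrix (Fin 3) (Fin 3) k) (p' : Param Y f Rho), T.det ≠ 0 ∧
      p'.ψ = pt (Sl (T.map C) X) (Qd (X (.inr 3)) (X (.inr 4))) ∧ p'.ψ jz ≠ 0 := by
  classical
  haveI : Infinite k := IsAlgClosed.instInfinite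
  obtain ⟨i0, hi0, hrel⟩ := param_rel hNF hCh hY hf hfZ hfin p hp
  obtain ⟨h, N, ⟨i1, hi1⟩, hN0, hND, hpr⟩ := descend hNF hRho hEv p.H i0 hi0 hrel p.D p.hD
  -- the first coordinate
  set E6 : Polynomial (RA k) := pt (Cpq (genA k)) (Qd (genA k none) Polynomial.X) jz with hE6
  have hevE6 : ∀ a b, ev a b E6 = pt (Cpq a) (Qd (a none) b) jz := by
    intro a b
    rw [hE6, pt_map]
    congr 1
    · ext i j
      exact ev_genA a b _
    · rw [Qd_map, ev_genA, ev_X]
  have hE60 : E6 ≠ 0 := by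
    intro h0
    have h1 := hevE6 (fun o => o.elim 1 fun y => Nmat (fun _ => (0 : k)) y.1 y.2) 1
    rw [h0, map_zero] at h1
    have h2 : Cpq (fun o : Option (Fin 6 × Fin 3) => o.elim (1 : k)
      fun y => Nmat (fun _ => (0 : k)) y.1 y.2) = Nmat fun _ => (0 : k) := rfl
    rw [h2, pt_Nmat_jz] at h1
    simp [Qd] at h1
  have hγ0 : genA k none ≠ 0 := by
    intro h0
    have h1 := ev_genA (k := k) (fun _ => 1) 0 none
    rw [h0, map_zero] at h1
    exact zero_ne_one h1
  obtain ⟨a, b, hab⟩ := ev_exists (mul_ne_zero (mul_ne_zero (mul_ne_zero (mul_ne_zero hN0 hi1)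
    hγ0) (Polynomial.X_ne_zero (R := RA k))) hE60)
  rw [map_mul, map_mul, map_mul, map_mul, ev_genA, ev_X, hevE6] at hab
  have hab5 := right_ne_zero_of_mul hab
  have hab4 := right_ne_zero_of_mul (left_ne_zero_of_mul hab)
  have hab3 := right_ne_zero_of_mul (left_ne_zero_of_mul (left_ne_zero_of_mul hab))
  have hab2 := right_ne_zero_of_mul
    (left_ne_zero_of_mul (left_ne_zero_of_mul (left_ne_zero_of_mul hab)))
  have hab1 := left_ne_zero_of_mul
    (left_ne_zero_of_mul (left_ne_zero_of_mul (left_ne_zero_of_mul hab)))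
  set T := (Cpq a).submatrix (![0, 1, 2] : S3) id with hT
  have hTdet : T.det ≠ 0 := left_ne_zero_of_mul hab5
  obtain ⟨x0, hx0, hx0b⟩ := exists_slice a b hTdet
  rw [← hT] at hx0
  -- the parametrised point
  set ψ' : S3 × S2 → MvPolynomial Rho k :=
    pt (Sl (T.map C) X) (Qd (X (.inr 3)) (X (.inr 4))) with hψ'
  have hevψ : ∀ (x : Rho → k) (j : S3 × S2), eval x (ψ' j) =
      pt (Cpq (slA T x)) (Qd (slA T x none) (x (.inr 4))) j := by
    intro x j
    rw [hψ', pt_map, Sl_map, Qd_map, eval_X, eval_X]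
    have h1 : (T.map C).map (eval x) = T := by
      ext i j
      simp
    have h2 : (fun i => eval x (X i : MvPolynomial Rho k)) = x := by
      funext i
      exact eval_X _
    rw [h1, h2]
    rfl
  refine ⟨T, ⟨ψ', fun i => Psi T (h i), Psi T N * Psi T (h i1) * X (.inr 3) * X (.inr 4),
    ?_, ?_⟩, hTdet, rfl, ?_⟩
  · intro h0
    have h1 := congrArg (eval x0) h0
    rw [map_mul, map_mul, map_mul, eval_Psi, eval_Psi, eval_X, eval_X, map_zero, hx0, hx0b] at h1
    have h2 : x0 (.inr 3) = a none := by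
      rw [← hx0]
      rfl
    rw [h2] at h1
    exact mul_ne_zero (mul_ne_zero (mul_ne_zero hab1 hab2) hab3) hab4 h1
  · intro x hx
    rw [map_mul, map_mul, map_mul, eval_Psi, eval_Psi, eval_X, eval_X] at hx
    have hx4 := right_ne_zero_of_mul hx
    have hx3 := right_ne_zero_of_mul (left_ne_zero_of_mul hx)
    have hx2 := right_ne_zero_of_mul (left_ne_zero_of_mul (left_ne_zero_of_mul hx))
    have hx1 := left_ne_zero_of_mul (left_ne_zero_of_mul (left_ne_zero_of_mul hx))
    obtain ⟨w, hw⟩ := IsAlgClosed.exists_pow_nat_eq (x (.inr 4)) (show 0 < 2 by norm_num)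
    have hw0 : w ≠ 0 := by
      intro h0
      rw [h0] at hw
      exact hx4 (by rw [← hw]; simp)
    have hD := hND (slA T x) w (by rw [hw]; exact hx1)
    obtain ⟨y, hyY, hyr, hyf⟩ := p.pt _ hD
    refine ⟨y, hyY, ?_, ?_⟩
    · refine rep_prop hyr ?_ ?_
      · intro h0
        apply hx2
        have h1 := congrFun h0 i1
        simp only [eval_Psi] at h1
        exact h1
      · intro i j
        have h1 := hpr (slA T x) w i j
        rw [hw] at h1
        simp only [eval_Psi]
        exact h1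
    · rw [hp] at hyf
      have h1 : (fun j => eval (fun y : Fin 6 × Fin 3 => Com (slA T x) w y.1 y.2)
          (pt (Cgen k) (Jm _) j)) =
          (-(4 * slA T x none * w)) • fun j => eval x (ψ' j) := by
        funext j
        rw [eval_psi]
        have h2 : (Matrix.of fun i j => Com (slA T x) w i j) = Com (slA T x) w := rfl
        rw [h2, pt_Com, Pi.smul_apply, smul_eq_mul, hevψ, hw]
      rw [h1] at hyf
      have hc : -(4 * slA T x none * w) ≠ 0 := by
        have h4 : (4 : k) ≠ 0 := by norm_num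
        have : slA T x none = x (.inr 3) := rfl
        rw [this]
        exact neg_ne_zero.2 (mul_ne_zero (mul_ne_zero h4 hx3) hw0)
      have h3 := hyf.smul (inv_ne_zero hc)
      rw [smul_smul, inv_mul_cancel₀ hc, one_smul] at h3
      exact h3
  · intro h0
    have h1 := hevψ x0 jz
    have h2 : ψ' jz = 0 := h0
    rw [h2, map_zero, hx0, hx0b] at h1
    exact hab5 h1.symm

/-- The affine coordinates of the slice generate the field of rational functions. -/
theorem slice_top {W : Type} [Field W] [Algebra k W] (g : MvPolynomial Rho k →ₐ[k] W)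
    (hg : Function.Injective g) (T : Matrix (Fin 3) (Fin 3) k) (hT : T.det ≠ 0)
    (ψ : S3 × S2 → MvPolynomial Rho k)
    (hψ : ψ = pt (Sl (T.map C) X) (Qd (X (.inr 3)) (X (.inr 4)))) (hψ0 : ψ jz ≠ 0) :
    (∀ Q : MvPolynomial Rho k, g Q ∈ IntermediateField.adjoin k (Set.range fun i : Rho =>
      g (ψ (rrX i)) / g (ψ jz))) ∧
    AlgebraicIndependent k (fun i : Rho => g (ψ (rrX i)) / g (ψ jz)) := by
  classical
  set xh : Rho → W := fun i => g (X i) with hxh
  have hindx : AlgebraicIndependent k xh := by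
    rw [algebraicIndependent_iff]
    intro P hP
    apply hg
    rw [map_zero, ← hP]
    have h : (aeval xh : MvPolynomial Rho k →ₐ[k] W) = g := by
      apply MvPolynomial.algHom_ext
      intro i
      rw [aeval_X]
    rw [h]
  set Th : Matrix (Fin 3) (Fin 3) W := T.map (algebraMap k W) with hTh
  have hThdet : Th.det ≠ 0 := by
    have h1 := RingHom.map_det (algebraMap k W) T
    rw [RingHom.mapMatrix_apply] at h1
    rw [hTh, ← h1]
    exact fun h => hT ((map_eq_zero _).1 h)
  have hgψ : ∀ j, g (ψ j) = Th.det * pt (Nmat xh) (Gr Th xh) j := by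
    intro j
    rw [hψ, ← pt_Sl]
    have h1 := pt_map (g : MvPolynomial Rho k →+* W) (Sl (T.map C) X)
      (Qd (X (.inr 3)) (X (.inr 4))) j
    rw [Sl_map, Qd_map] at h1
    refine h1.trans ?_
    congr 2
    ext i j
    show g (C (T i j)) = algebraMap k W (T i j)
    exact g.commutes _
  have hG00 : Gr Th xh 0 0 ≠ 0 := by
    intro h0
    apply hψ0
    apply hg
    rw [map_zero, hgψ, pt_Nmat_jz, h0, mul_zero]
  set K' := IntermediateField.adjoin k (Set.range fun i : Rho =>
    g (ψ (rrX i)) / g (ψ jz)) with hK'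
  have hmem : ∀ i : Rho, g (ψ (rrX i)) / g (ψ jz) ∈ K' := fun i =>
    IntermediateField.subset_adjoin k _ ⟨i, rfl⟩
  have hinl : ∀ i j, xh (.inl (i, j)) ∈ K' := by
    intro i j
    have h1 := hmem (.inl (i, j))
    rw [hgψ, hgψ, pt_Nmat_inl, pt_Nmat_jz, mul_div_mul_left _ _ hThdet,
      mul_div_cancel_right₀ _ hG00] at h1
    exact h1
  have hinr : ∀ p : Fin 5, Gr Th xh (![0, 0, 1, 1, 2] p) (![1, 2, 1, 2, 2] p) /
      Gr Th xh 0 0 ∈ K' := by
    intro q
    have h1 := hmem (.inr q)
    rw [hgψ, hgψ, pt_Nmat_inr, pt_Nmat_jz, mul_div_mul_left _ _ hThdet] at h1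
    exact h1
  have hsymm : ∀ u v, Gr Th xh u v = Gr Th xh v u := by
    intro u v
    have h1 := congrFun (congrFun (Gr_symm Th xh) v) u
    exact h1
  have hall : ∀ u v, Gr Th xh u v / Gr Th xh 0 0 ∈ K' := by
    have h01 := hinr 0
    have h02 := hinr 1
    have h11 := hinr 2
    have h12 := hinr 3
    have h22 := hinr 4
    simp only [Matrix.cons_val_zero, Matrix.cons_val_one, Matrix.cons_val] at h01 h02 h11 h12 h22
    intro u v
    fin_cases u <;> fin_cases v
    · show Gr Th xh 0 0 / Gr Th xh 0 0 ∈ K'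
      rw [div_self hG00]
      exact K'.one_mem
    · exact h01
    · exact h02
    · show Gr Th xh 1 0 / Gr Th xh 0 0 ∈ K'
      rw [hsymm 1 0]
      exact h01
    · exact h11
    · exact h12
    · show Gr Th xh 2 0 / Gr Th xh 0 0 ∈ K'
      rw [hsymm 2 0]
      exact h02
    · show Gr Th xh 2 1 / Gr Th xh 0 0 ∈ K'
      rw [hsymm 2 1]
      exact h12
    · exact h22
  -- the unipotent part
  set Ti : Matrix (Fin 3) (Fin 3) W := (T⁻¹).map (algebraMap k W) with hTi
  have hTiT : Ti * Th = 1 := by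
    rw [hTi, hTh, ← Matrix.map_mul, Matrix.nonsing_inv_mul _ (isUnit_iff_ne_zero.2 hT)]
    ext i j
    simp [Matrix.one_apply]
  set c := xh (.inr 3) with hc
  set b := xh (.inr 4) with hb
  set e := (Gr Th xh 0 0)⁻¹ with he
  have hA' : Lm xh * Qd c b * (Lm xh).transpose = Ti * Gr Th xh * Ti.transpose := by
    unfold Gr
    have h1 : Ti * (Th * Lm xh * Qd c b * (Th * Lm xh).transpose) * Ti.transpose =
        (Ti * Th) * Lm xh * Qd c b * ((Ti * Th) * Lm xh).transpose := by
      rw [Matrix.transpose_mul, Matrix.transpose_mul, Matrix.transpose_mul]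
      simp only [Matrix.mul_assoc]
    rw [h1, hTiT, Matrix.one_mul]
  have hLmem : ∀ i j, (Lm xh * Qd c b * (Lm xh).transpose) i j * e ∈ K' := by
    intro i j
    rw [hA', Matrix.mul_apply, Finset.sum_mul]
    refine K'.sum_mem fun v _ => ?_
    rw [Matrix.mul_apply, Finset.sum_mul, Finset.sum_mul]
    refine K'.sum_mem fun u _ => ?_
    have h1 : Ti i u * Gr Th xh u v * Ti.transpose v j * e =
        algebraMap k W ((T⁻¹) i u) * (Gr Th xh u v / Gr Th xh 0 0) *
          algebraMap k W ((T⁻¹) j v) := by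
      rw [he, div_eq_mul_inv]
      show algebraMap k W ((T⁻¹) i u) * _ * algebraMap k W ((T⁻¹) j v) * _ = _
      ring
    rw [h1]
    exact K'.mul_mem (K'.mul_mem (K'.algebraMap_mem _) (hall u v)) (K'.algebraMap_mem _)
  have e00 : c * e ∈ K' := by
    have h1 := hLmem 0 0
    simp [Lm, Qd, Matrix.mul_apply, Fin.sum_univ_three, Matrix.vecMul, dotProduct] at h1
    exact h1
  have e01 : c * xh (.inr 0) * e ∈ K' := by
    have h1 := hLmem 0 1
    simp [Lm, Qd, Matrix.mul_apply, Fin.sum_univ_three, Matrix.vecMul, dotProduct] at h1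
    exact h1
  have e02 : c * xh (.inr 1) * e ∈ K' := by
    have h1 := hLmem 0 2
    simp [Lm, Qd, Matrix.mul_apply, Fin.sum_univ_three, Matrix.vecMul, dotProduct] at h1
    exact h1
  have e11 : (c * xh (.inr 0) ^ 2 - c * b) * e ∈ K' := by
    have h1 := hLmem 1 1
    simp [Lm, Qd, Matrix.mul_apply, Fin.sum_univ_three, Matrix.vecMul, dotProduct] at h1
    have h2 : (c * xh (.inr 0) ^ 2 - c * b) * e =
        (xh (Sum.inr 0) * c * xh (Sum.inr 0) + -(c * b)) * e := by ring
    rw [h2]
    exact h1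
  have e12 : (c * xh (.inr 0) * xh (.inr 1) - c * b * xh (.inr 2)) * e ∈ K' := by
    have h1 := hLmem 1 2
    simp [Lm, Qd, Matrix.mul_apply, Fin.sum_univ_three, Matrix.vecMul, dotProduct] at h1
    have h2 : (c * xh (.inr 0) * xh (.inr 1) - c * b * xh (.inr 2)) * e =
        (xh (Sum.inr 0) * c * xh (Sum.inr 1) + -(c * b * xh (Sum.inr 2))) * e := by ring
    rw [h2]
    exact h1
  have e22 : (c * xh (.inr 1) ^ 2 - c * b * xh (.inr 2) ^ 2 - 1) * e ∈ K' := by
    have h1 := hLmem 2 2
    simp [Lm, Qd, Matrix.mul_apply, Fin.sum_univ_three, Matrix.vecMul, dotProduct] at h1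
    have h2 : (c * xh (.inr 1) ^ 2 - c * b * xh (.inr 2) ^ 2 - 1) * e =
        (xh (Sum.inr 1) * c * xh (Sum.inr 1) + -(xh (Sum.inr 2) * (c * b) * xh (Sum.inr 2)) +
          -1) * e := by ring
    rw [h2]
    exact h1
  have hc0 : c ≠ 0 := hindx.ne_zero _
  have hb0 : b ≠ 0 := hindx.ne_zero _
  have he0 : e ≠ 0 := inv_ne_zero hG00
  have hce : c * e ≠ 0 := mul_ne_zero hc0 he0
  have hl1 : xh (.inr 0) ∈ K' := by
    have h1 := K'.div_mem e01 e00
    have h2 : c * xh (.inr 0) * e / (c * e) = xh (.inr 0) := by field_simp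
    rwa [h2] at h1
  have hl2 : xh (.inr 1) ∈ K' := by
    have h1 := K'.div_mem e02 e00
    have h2 : c * xh (.inr 1) * e / (c * e) = xh (.inr 1) := by field_simp
    rwa [h2] at h1
  have hbm : b ∈ K' := by
    have h1 : xh (.inr 0) ^ 2 - (c * xh (.inr 0) ^ 2 - c * b) * e / (c * e) ∈ K' :=
      K'.sub_mem (pow_mem hl1 2) (K'.div_mem e11 e00)
    have h2 : xh (.inr 0) ^ 2 - (c * xh (.inr 0) ^ 2 - c * b) * e / (c * e) = b := by
      field_simp
      ring
    rwa [h2] at h1
  have hl3 : xh (.inr 2) ∈ K' := by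
    have h1 := K'.div_mem (K'.sub_mem (K'.mul_mem hl1 hl2) (K'.div_mem e12 e00)) hbm
    have h2 : (xh (.inr 0) * xh (.inr 1) -
        (c * xh (.inr 0) * xh (.inr 1) - c * b * xh (.inr 2)) * e / (c * e)) / b =
        xh (.inr 2) := by
      field_simp
      ring
    rwa [h2] at h1
  have hem : e ∈ K' := by
    have h1 : c * e * (xh (.inr 1) ^ 2 - b * xh (.inr 2) ^ 2) -
        (c * xh (.inr 1) ^ 2 - c * b * xh (.inr 2) ^ 2 - 1) * e ∈ K' :=
      K'.sub_mem (K'.mul_mem e00 (K'.sub_mem (pow_mem hl2 2)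
        (K'.mul_mem hbm (pow_mem hl3 2)))) e22
    have h2 : c * e * (xh (.inr 1) ^ 2 - b * xh (.inr 2) ^ 2) -
        (c * xh (.inr 1) ^ 2 - c * b * xh (.inr 2) ^ 2 - 1) * e = e := by ring
    rwa [h2] at h1
  have hcm : c ∈ K' := by
    have h1 := K'.div_mem e00 hem
    have h2 : c * e / e = c := by field_simp
    rwa [h2] at h1
  have hX : ∀ i : Rho, xh i ∈ K' := by
    rintro (⟨i, j⟩ | q)
    · exact hinl i j
    · fin_cases q
      · exact hl1
      · exact hl2
      · exact hl3
      · exact hcm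
      · exact hbm
  have htop : ∀ Q : MvPolynomial Rho k, g Q ∈ K' := by
    intro Q
    induction Q using MvPolynomial.induction_on with
    | C r =>
      have : g (C r) = algebraMap k W r := g.commutes r
      rw [this]
      exact K'.algebraMap_mem r
    | add P Q hP hQ => rw [map_add]; exact K'.add_mem hP hQ
    | mul_X P i hP => rw [map_mul]; exact K'.mul_mem hP (hX i)
  exact ⟨htop, Pool.Agent.Y337.SM.stmInd k W Rho Rho xh _ hindx le_rfl hX⟩

/-- The main result on the evaluation map: if the point given by a general `6 × 3` matrix and the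
split form lifts rationally to `Y`, then `f : Y → X` is dominant and birational. -/
theorem phi [IsAlgClosed k] [CharZero k] {n : ℕ} {Y : Set (PP k (Fin (n + 1)))}
    (hY : IsProjVar Y) {f : PP k (Fin (n + 1)) → PP k (S3 × S2)} (hf : IsMorphism Y f)
    (hfZ : Set.MapsTo f Y (Xsym k)) (hfin : GenFinite Y f) (p : Param Y f (Fin 6 × Fin 3))
    (hp : p.ψ = pt (Cgen k) (Jm _)) : Dominant Y (Xsym k) f ∧ Birational Y (Xsym k) f := by
  classical
  haveI : Infinite k := IsAlgClosed.instInfinite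
  have hNF : StmNF := Pool.Agent.Y110.SM.stmNF
  have hCh : StmChart := Pool.Agent.Y894.SM.stmChart
  refine ⟨param_dominant p (by
    intro m Q hQ h0 x hx
    rw [hp] at h0
    exact dense_J hNF m Q hQ h0 x hx), ?_⟩
  obtain ⟨T, p', hT, hp', hψ0⟩ := exists_slParam hNF Pool.Agent.Y110.SM.stmRho
    Pool.Agent.Y899.SM.stmEven hCh hY hf hfZ hfin p hp
  let g : MvPolynomial Rho k →ₐ[k] FractionRing (MvPolynomial Rho k) :=
    IsScalarTower.toAlgHom k _ _
  have hg : Function.Injective g := IsFractionRing.injective _ _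
  obtain ⟨htop, hind⟩ := slice_top g hg T hT p'.ψ hp' hψ0
  exact param_birational (W := FractionRing (MvPolynomial Rho k)) (chX hCh) hY hf hfZ hfin p'
    hψ0 g hg hind htop

end

end Pool.Agent.Y166.SM
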