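import Mathlib
import Pool.Agent.Y166.SM.Phi3
import Pool.Agent.Y166.GM.Strata

/-!
# The two families of curves
-/

set_option autoImplicit false
set_option linter.unusedSectionVars false
set_option linter.deprecated false
set_option linter.style.haveILetI false

namespace Pool.Agent.Y166.SM

open Polynomial Pool.Agent.Y166.GM

section rings
variable {A B : Type} [CommRing A] [CommRing B]

/-- The matrices of monomials of the two families. -/
def Eh (b : Bool) (x y : A) : Matrix (Fin 6) (Fin 3) A :=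
  bif b then !![y ^ 2, 0, 0; x * y, 0, 0; x ^ 2, 0, 0; 0, y, 0; 0, x, 0; 0, 0, 1]
  else !![y, 0, 0; 0, y, 0; 0, 0, y; x, 0, 0; 0, x, 0; 0, 0, x]

/-- The Plücker coordinates of the curve with the parameter `g`. -/
def ldet (b : Bool) (g : Matrix (Fin 6) (Fin 6) A) (x y : A) (a : S3) : A :=
  ((g * Eh b x y).submatrix a id).det

/-- The symmetric matrices of the curve with the parameter `g`. -/
def mform (b : Bool) (g : Matrix (Fin 6) (Fin 6) A) (x y : A) (t : S2) : A :=
  (g * Eh b x y * Jm A * (g * Eh b x y).transpose) t.1 t.2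

theorem Eh_map (φ : A →+* B) (b : Bool) (x y : A) : (Eh b x y).map φ = Eh b (φ x) (φ y) := by
  ext i j
  cases b <;> fin_cases i <;> fin_cases j <;> simp [Eh]

theorem ldet_map (φ : A →+* B) (b : Bool) (g : Matrix (Fin 6) (Fin 6) A) (x y : A) (a : S3) :
    φ (ldet b g x y a) = ldet b (g.map φ) (φ x) (φ y) a := by
  unfold ldet
  rw [RingHom.map_det, RingHom.mapMatrix_apply, ← Eh_map, ← Matrix.map_mul]
  rfl

theorem mform_map (φ : A →+* B) (b : Bool) (g : Matrix (Fin 6) (Fin 6) A) (x y : A) (t : S2) :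
    φ (mform b g x y t) = mform b (g.map φ) (φ x) (φ y) t := by
  unfold mform
  rw [← Eh_map, ← Matrix.map_mul, ← Jm_map φ, ← Matrix.map_mul, ← Matrix.transpose_map,
    ← Matrix.map_mul]
  rfl

theorem pt_eq (b : Bool) (g : Matrix (Fin 6) (Fin 6) A) (x y : A) (t : S3 × S2) :
    pt (g * Eh b x y) (Jm A) t = ldet b g x y t.1 * mform b g x y t.2 := rfl

/-- The scaling matrix. -/
def Dl (b : Bool) (y : A) : Matrix (Fin 3) (Fin 3) A :=
  bif b then !![y ^ 2, 0, 0; 0, y, 0; 0, 0, 1] else !![y, 0, 0; 0, y, 0; 0, 0, y]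

theorem Eh_scale (b : Bool) (x y : A) : Eh b (x * y) y = Eh b x 1 * Dl b y := by
  ext i j
  rw [Matrix.mul_apply, Fin.sum_univ_three]
  cases b <;> fin_cases i <;> fin_cases j <;> simp [Eh, Dl] <;> ring

theorem Dl_det (b : Bool) (y : A) : (Dl b y).det = y ^ 3 := by
  cases b <;> simp [Dl, Matrix.det_fin_three] <;> ring

theorem Dl_form (b : Bool) (y : A) : Dl b y * Jm A * (Dl b y).transpose = y ^ 2 • Jm A := by
  ext i j
  cases b <;> fin_cases i <;> fin_cases j <;>
    simp [Dl, Jm, Matrix.mul_apply, Fin.sum_univ_three, Matrix.vecMul, dotProduct] <;> ring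

theorem ldet_scale (b : Bool) (g : Matrix (Fin 6) (Fin 6) A) (x y : A) (a : S3) :
    ldet b g (x * y) y a = y ^ 3 * ldet b g x 1 a := by
  unfold ldet
  rw [Eh_scale, ← Matrix.mul_assoc]
  have h1 : (g * Eh b x 1 * Dl b y).submatrix a id = (g * Eh b x 1).submatrix a id * Dl b y := rfl
  rw [h1, Matrix.det_mul, Dl_det, mul_comm]

theorem mform_scale (b : Bool) (g : Matrix (Fin 6) (Fin 6) A) (x y : A) (t : S2) :
    mform b g (x * y) y t = y ^ 2 * mform b g x 1 t := by
  unfold mform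
  rw [Eh_scale, ← Matrix.mul_assoc, Matrix.transpose_mul]
  have h1 : g * Eh b x 1 * Dl b y * Jm A * ((Dl b y).transpose * (g * Eh b x 1).transpose) =
      g * Eh b x 1 * (Dl b y * Jm A * (Dl b y).transpose) * (g * Eh b x 1).transpose := by
    simp only [Matrix.mul_assoc]
  rw [h1, Dl_form, Matrix.mul_smul, Matrix.smul_mul]
  rfl

theorem ldet_smul (b : Bool) (g : Matrix (Fin 6) (Fin 6) A) (c x y : A) (a : S3) :
    ldet b (c • g) x y a = c ^ 3 * ldet b g x y a := by
  unfold ldet
  rw [Matrix.smul_mul]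
  have h1 : (c • (g * Eh b x y)).submatrix a id = c • (g * Eh b x y).submatrix a id := rfl
  rw [h1, Matrix.det_smul, Fintype.card_fin]

theorem mform_smul (b : Bool) (g : Matrix (Fin 6) (Fin 6) A) (c x y : A) (t : S2) :
    mform b (c • g) x y t = c ^ 2 * mform b g x y t := by
  unfold mform
  rw [Matrix.smul_mul, Matrix.transpose_smul, Matrix.smul_mul, Matrix.smul_mul, Matrix.mul_smul,
    smul_smul, ← sq]
  rfl

/-- The weights of the columns. -/
def wt (b : Bool) : Fin 3 → ℕ := bif b then ![2, 1, 0] else ![1, 1, 1]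

theorem natDegree_entry (b : Bool) (g : Matrix (Fin 6) (Fin 6) A) (i : Fin 6) (j : Fin 3) :
    (((g.map C : Matrix (Fin 6) (Fin 6) A[X]) * Eh b (X : A[X]) (1 : A[X])) i j).natDegree ≤
      wt b j := by
  rw [Matrix.mul_apply]
  refine Polynomial.natDegree_sum_le_of_forall_le _ _ fun l _ => ?_
  rw [Matrix.map_apply]
  refine (Polynomial.natDegree_C_mul_le _ _).trans ?_
  cases b <;> fin_cases l <;> fin_cases j <;> simp [Eh, wt] <;>
    first
      | exact Polynomial.natDegree_X_le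
      | exact Polynomial.natDegree_X_le.trans (by norm_num)
      | exact Polynomial.natDegree_X_pow_le _

theorem natDegree_det {w : Fin 3 → ℕ} (M : Matrix (Fin 3) (Fin 3) A[X])
    (h : ∀ i j, (M i j).natDegree ≤ w j) : M.det.natDegree ≤ w 0 + w 1 + w 2 := by
  rw [Matrix.det_apply]
  refine Polynomial.natDegree_sum_le_of_forall_le _ _ fun σ _ => ?_
  have h1 : (∏ i, M (σ i) i).natDegree ≤ w 0 + w 1 + w 2 := by
    refine (Polynomial.natDegree_prod_le _ _).trans ?_
    rw [Fin.sum_univ_three]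
    exact Nat.add_le_add (Nat.add_le_add (h _ _) (h _ _)) (h _ _)
  rcases Int.units_eq_one_or (Equiv.Perm.sign σ) with h2 | h2
  · rw [h2, one_smul]
    exact h1
  · rw [h2, Units.neg_smul, one_smul, Polynomial.natDegree_neg]
    exact h1

theorem natDegree_ldet (b : Bool) (g : Matrix (Fin 6) (Fin 6) A) (a : S3) :
    (ldet b (g.map C) (X : A[X]) 1 a).natDegree ≤ 3 := by
  have h1 := natDegree_det (w := wt b)
    (((g.map C : Matrix (Fin 6) (Fin 6) A[X]) * Eh b (X : A[X]) (1 : A[X])).submatrix a id)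
    (fun i j => natDegree_entry b g (a i) j)
  refine h1.trans ?_
  cases b <;> simp [wt]

theorem mform_eq (b : Bool) (g : Matrix (Fin 6) (Fin 6) A) (x y : A) (t : S2) :
    mform b g x y t = (g * Eh b x y) t.1 0 * (g * Eh b x y) t.2 2 +
      (g * Eh b x y) t.1 2 * (g * Eh b x y) t.2 0 -
      2 * ((g * Eh b x y) t.1 1 * (g * Eh b x y) t.2 1) := by
  unfold mform
  generalize g * Eh b x y = N
  rw [Matrix.mul_apply, Fin.sum_univ_three]
  simp only [Matrix.mul_apply, Fin.sum_univ_three, Matrix.transpose_apply]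
  simp [Jm]
  ring

theorem natDegree_mform (b : Bool) (g : Matrix (Fin 6) (Fin 6) A) (t : S2) :
    (mform b (g.map C) (X : A[X]) 1 t).natDegree ≤ 2 := by
  rw [mform_eq]
  have h := natDegree_entry b g
  have hw : wt b 0 + wt b 2 ≤ 2 ∧ wt b 1 ≤ 1 := by
    cases b <;> simp [wt]
  refine (Polynomial.natDegree_sub_le _ _).trans (max_le ?_ ?_)
  · refine (Polynomial.natDegree_add_le _ _).trans (max_le ?_ ?_)
    · refine Polynomial.natDegree_mul_le.trans ?_
      have h1 := h t.1 0
      have h2 := h t.2 2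
      omega
    · refine Polynomial.natDegree_mul_le.trans ?_
      have h1 := h t.1 2
      have h2 := h t.2 0
      omega
  · have e2 : (2 : A[X]) = C 2 := (map_ofNat C 2).symm
    rw [e2]
    refine (Polynomial.natDegree_C_mul_le _ _).trans ?_
    refine Polynomial.natDegree_mul_le.trans ?_
    have h1 := h t.1 1
    have h2 := h t.2 1
    omega

/-- The coefficients of the Plücker coordinates. -/
noncomputable def lco (b : Bool) (g : Matrix (Fin 6) (Fin 6) A) (x : S3 × Fin 4) : A :=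
  (ldet b (g.map C) (X : A[X]) 1 x.1).coeff x.2

/-- The coefficients of the symmetric matrices. -/
noncomputable def mco (b : Bool) (g : Matrix (Fin 6) (Fin 6) A) (x : S2 × Fin 3) : A :=
  (mform b (g.map C) (X : A[X]) 1 x.1).coeff x.2

/-- The coordinates of the curve with the parameter `g`. -/
noncomputable def Ph (b : Bool) (g : Matrix (Fin 6) (Fin 6) A)
    (x : (S3 × Fin 4) × (S2 × Fin 3)) : A := lco b g x.1 * mco b g x.2

theorem map_map_C (φ : A →+* B) (g : Matrix (Fin 6) (Fin 6) A) :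
    (g.map C).map (Polynomial.mapRingHom φ) = (g.map φ).map C := by
  ext i j : 2
  simp

theorem lco_map (φ : A →+* B) (b : Bool) (g : Matrix (Fin 6) (Fin 6) A) (x : S3 × Fin 4) :
    φ (lco b g x) = lco b (g.map φ) x := by
  unfold lco
  rw [← Polynomial.coeff_map]
  congr 1
  have h1 := ldet_map (Polynomial.mapRingHom φ) b (g.map C) (X : A[X]) 1 x.1
  rw [map_map_C, map_one] at h1
  refine h1.trans ?_
  congr 1
  simp

theorem mco_map (φ : A →+* B) (b : Bool) (g : Matrix (Fin 6) (Fin 6) A) (x : S2 × Fin 3) :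
    φ (mco b g x) = mco b (g.map φ) x := by
  unfold mco
  rw [← Polynomial.coeff_map]
  congr 1
  have h1 := mform_map (Polynomial.mapRingHom φ) b (g.map C) (X : A[X]) 1 x.1
  rw [map_map_C, map_one] at h1
  refine h1.trans ?_
  congr 1
  simp

theorem Ph_map (φ : A →+* B) (b : Bool) (g : Matrix (Fin 6) (Fin 6) A)
    (x : (S3 × Fin 4) × (S2 × Fin 3)) : φ (Ph b g x) = Ph b (g.map φ) x := by
  unfold Ph
  rw [map_mul, lco_map, mco_map]

theorem lco_smul (b : Bool) (g : Matrix (Fin 6) (Fin 6) A) (c : A) (x : S3 × Fin 4) :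
    lco b (c • g) x = c ^ 3 * lco b g x := by
  unfold lco
  have h1 : (c • g).map C = (C c : A[X]) • g.map C := by
    ext i j : 2
    simp
  rw [h1, ldet_smul, ← map_pow, Polynomial.coeff_C_mul]

theorem mco_smul (b : Bool) (g : Matrix (Fin 6) (Fin 6) A) (c : A) (x : S2 × Fin 3) :
    mco b (c • g) x = c ^ 2 * mco b g x := by
  unfold mco
  have h1 : (c • g).map C = (C c : A[X]) • g.map C := by
    ext i j : 2
    simp
  rw [h1, mform_smul, ← map_pow, Polynomial.coeff_C_mul]

theorem Ph_smul (b : Bool) (g : Matrix (Fin 6) (Fin 6) A) (c : A) :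
    Ph b (c • g) = c ^ 5 • Ph b g := by
  funext x
  rw [Pi.smul_apply, smul_eq_mul]
  unfold Ph
  rw [lco_smul, mco_smul]
  ring

end rings

section
variable {k : Type} [Field k]

/-- Homogenisation. -/
theorem hom_eq [Infinite k] {d : ℕ} (P : k[X]) (hP : P.natDegree ≤ d) (F : k → k → k)
    (h1 : ∀ x y, y ≠ 0 → F x y = y ^ d * P.eval (x / y))
    (h2 : ∀ x, ∃ Q : k[X], ∀ y, Q.eval y = F x y) (x y : k) :
    ∑ l : Fin (d + 1), P.coeff l * x ^ (l : ℕ) * y ^ (d - (l : ℕ)) = F x y := by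
  obtain ⟨Q, hQ⟩ := h2 x
  have h3 : (∑ l : Fin (d + 1), C (P.coeff l * x ^ (l : ℕ)) * X ^ (d - (l : ℕ))) = Q := by
    have h4 : X * (∑ l : Fin (d + 1), C (P.coeff l * x ^ (l : ℕ)) * X ^ (d - (l : ℕ))) =
        X * Q := by
      apply Polynomial.funext
      intro z
      rw [Polynomial.eval_mul, Polynomial.eval_mul, Polynomial.eval_X]
      by_cases hz : z = 0
      · rw [hz, zero_mul, zero_mul]
      congr 1
      rw [hQ, h1 x z hz]
      have h5 := forms_aff (σ := Unit) (d := d) (fun y => P.coeff y.2) ![x, z]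
        (by simpa using hz) ()
      have h6 : (pol fun l : Fin (d + 1) => P.coeff l) = P := pol_coeff_self P hP
      simp only [forms, Matrix.cons_val_zero, Matrix.cons_val_one, h6] at h5
      rw [← h5, Polynomial.eval_finset_sum]
      refine Finset.sum_congr rfl fun l _ => ?_
      simp
    exact mul_left_cancel₀ Polynomial.X_ne_zero h4
  rw [← hQ, ← h3, Polynomial.eval_finset_sum]
  refine Finset.sum_congr rfl fun l _ => ?_
  simp

theorem forms_lco [Infinite k] (b : Bool) (g : Matrix (Fin 6) (Fin 6) k) (s : Fin 2 → k)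
    (a : S3) : forms (lco b g) s a = ldet b g (s 0) (s 1) a := by
  refine hom_eq (d := 3) (ldet b (g.map C) (X : k[X]) 1 a) (natDegree_ldet b g a)
    (fun x y => ldet b g x y a) ?_ ?_ (s 0) (s 1)
  · intro x y hy
    have h1 := ldet_map (Polynomial.evalRingHom (x / y)) b (g.map C) (X : k[X]) 1 a
    have h2 : (g.map C).map (Polynomial.evalRingHom (x / y)) = g := by
      ext i j
      simp
    rw [h2, map_one] at h1
    have h3 : Polynomial.eval (x / y) (ldet b (g.map C) (X : k[X]) 1 a) = ldet b g (x / y) 1 a := by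
      refine h1.trans ?_
      congr 1
      simp
    rw [h3, ← ldet_scale, div_mul_cancel₀ _ hy]
  · intro x
    refine ⟨ldet b (g.map C) (C x) X a, fun y => ?_⟩
    have h1 := ldet_map (Polynomial.evalRingHom y) b (g.map C) (C x) X a
    have h2 : (g.map C).map (Polynomial.evalRingHom y) = g := by
      ext i j
      simp
    rw [h2] at h1
    refine h1.trans ?_
    simp

theorem forms_mco [Infinite k] (b : Bool) (g : Matrix (Fin 6) (Fin 6) k) (s : Fin 2 → k)
    (t : S2) : forms (mco b g) s t = mform b g (s 0) (s 1) t := by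
  refine hom_eq (d := 2) (mform b (g.map C) (X : k[X]) 1 t) (natDegree_mform b g t)
    (fun x y => mform b g x y t) ?_ ?_ (s 0) (s 1)
  · intro x y hy
    have h1 := mform_map (Polynomial.evalRingHom (x / y)) b (g.map C) (X : k[X]) 1 t
    have h2 : (g.map C).map (Polynomial.evalRingHom (x / y)) = g := by
      ext i j
      simp
    rw [h2, map_one] at h1
    have h3 : Polynomial.eval (x / y) (mform b (g.map C) (X : k[X]) 1 t) =
        mform b g (x / y) 1 t := by
      refine h1.trans ?_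
      congr 1
      simp
    rw [h3, ← mform_scale, div_mul_cancel₀ _ hy]
  · intro x
    refine ⟨mform b (g.map C) (C x) X t, fun y => ?_⟩
    have h1 := mform_map (Polynomial.evalRingHom y) b (g.map C) (C x) X t
    have h2 : (g.map C).map (Polynomial.evalRingHom y) = g := by
      ext i j
      simp
    rw [h2] at h1
    refine h1.trans ?_
    simp

/-- The value of a product of coefficient vectors. -/
theorem biforms_prod {σ τ : Type} {e d : ℕ} (l : σ × Fin (e + 1) → k) (m : τ × Fin (d + 1) → k)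
    (s : Fin 2 → k) (t : σ × τ) :
    biforms (fun x : (σ × Fin (e + 1)) × (τ × Fin (d + 1)) => l x.1 * m x.2) s t =
      forms l s t.1 * forms m s t.2 := by
  unfold biforms forms
  rw [Finset.sum_mul_sum]
  refine Finset.sum_congr rfl fun p _ => Finset.sum_congr rfl fun q _ => ?_
  ring

theorem biforms_smul {σ τ : Type} {e d : ℕ} (c : k)
    (γ : (σ × Fin (e + 1)) × (τ × Fin (d + 1)) → k) (s : Fin 2 → k) :
    biforms (c • γ) s = c • biforms γ s := by
  funext t
  rw [Pi.smul_apply, smul_eq_mul]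
  unfold biforms
  rw [Finset.mul_sum]
  refine Finset.sum_congr rfl fun p _ => ?_
  rw [Finset.mul_sum]
  refine Finset.sum_congr rfl fun q _ => ?_
  rw [Pi.smul_apply, smul_eq_mul]
  ring

theorem rep_biforms {σ τ : Type} {e d : ℕ} {γ : PP k ((σ × Fin (e + 1)) × (τ × Fin (d + 1)))}
    {v : (σ × Fin (e + 1)) × (τ × Fin (d + 1)) → k} (h : Rep γ v) (s : Fin 2 → k)
    (z : PP k (σ × τ)) : Rep z (biforms γ.rep s) ↔ Rep z (biforms v s) := by
  obtain ⟨a, ha, hv⟩ := (rep_rep γ).exists_smul h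
  rw [hv, biforms_smul]
  constructor
  · exact fun h1 => h1.smul ha
  · intro h1
    have := h1.smul (inv_ne_zero ha)
    rw [smul_smul, inv_mul_cancel₀ ha, one_smul] at this
    exact this

theorem biforms_Ph [Infinite k] (b : Bool) (g : Matrix (Fin 6) (Fin 6) k) (s : Fin 2 → k) :
    biforms (Ph b g) s = pt (g * Eh b (s 0) (s 1)) (Jm k) := by
  funext t
  have h1 := biforms_prod (lco b g) (mco b g) s t
  refine h1.trans ?_
  rw [forms_lco, forms_mco, pt_eq]

/-- The matrices of monomials have left inverses. -/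
theorem exists_left (b : Bool) (s : Fin 2 → k) (hs : s ≠ 0) :
    ∃ B : Matrix (Fin 3) (Fin 6) k, B * Eh b (s 0) (s 1) = 1 := by
  by_cases h1 : s 1 = 0
  · have h0 : s 0 ≠ 0 := by
      intro h0
      apply hs
      funext i
      fin_cases i
      · exact h0
      · exact h1
    cases b
    · refine ⟨!![0, 0, 0, (s 0)⁻¹, 0, 0; 0, 0, 0, 0, (s 0)⁻¹, 0; 0, 0, 0, 0, 0, (s 0)⁻¹], ?_⟩
      ext i j
      rw [Matrix.mul_apply, Fin.sum_univ_six]
      fin_cases i <;> fin_cases j <;> simp [Eh, h0]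
    · refine ⟨!![0, 0, (s 0 ^ 2)⁻¹, 0, 0, 0; 0, 0, 0, 0, (s 0)⁻¹, 0; 0, 0, 0, 0, 0, 1], ?_⟩
      ext i j
      rw [Matrix.mul_apply, Fin.sum_univ_six]
      fin_cases i <;> fin_cases j <;> simp [Eh, h0]
  · cases b
    · refine ⟨!![(s 1)⁻¹, 0, 0, 0, 0, 0; 0, (s 1)⁻¹, 0, 0, 0, 0; 0, 0, (s 1)⁻¹, 0, 0, 0], ?_⟩
      ext i j
      rw [Matrix.mul_apply, Fin.sum_univ_six]
      fin_cases i <;> fin_cases j <;> simp [Eh, h1]
    · refine ⟨!![(s 1 ^ 2)⁻¹, 0, 0, 0, 0, 0; 0, 0, 0, (s 1)⁻¹, 0, 0; 0, 0, 0, 0, 0, 1], ?_⟩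
      ext i j
      rw [Matrix.mul_apply, Fin.sum_univ_six]
      fin_cases i <;> fin_cases j <;> simp [Eh, h1]

/-- A matrix with a left inverse gives a point. -/
theorem pt_ne_zero [CharZero k] (N : Matrix (Fin 6) (Fin 3) k) (B : Matrix (Fin 3) (Fin 6) k)
    (h : B * N = 1) : pt N (Jm k) ≠ 0 := by
  obtain ⟨a, ha⟩ := Pool.Agent.Y337.SM.stmMinor k N (by
    intro x hx
    have h1 := congrArg (fun v => B.mulVec v) hx
    simp only [Matrix.mulVec_mulVec, h, Matrix.one_mulVec, Matrix.mulVec_zero] at h1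
    exact h1)
  have h2 : ∃ i j, (N * Jm k * N.transpose) i j ≠ 0 := by
    by_contra hcon
    push Not at hcon
    have h3 : N * Jm k * N.transpose = 0 := by
      ext i j
      exact hcon i j
    have h4 : (B * N) * Jm k * (B * N).transpose = 0 := by
      rw [Matrix.transpose_mul]
      have h5 : B * N * Jm k * (N.transpose * B.transpose) =
          B * (N * Jm k * N.transpose) * B.transpose := by
        simp only [Matrix.mul_assoc]
      rw [h5, h3, Matrix.mul_zero, Matrix.zero_mul]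
    rw [h, Matrix.one_mul, Matrix.transpose_one, Matrix.mul_one] at h4
    have h5 := congrFun (congrFun h4 0) 2
    simp [Jm] at h5
  obtain ⟨i, j, hij⟩ := h2
  intro h0
  have h3 := congrFun h0 (a, (i, j))
  exact mul_ne_zero ha hij h3

/-- The two families. -/
def Fs (k : Type) [Field k] (b : Bool) : Set (PP k ((S3 × Fin 4) × (S2 × Fin 3))) :=
  {γ | ∃ g : Matrix (Fin 6) (Fin 6) k, g.det ≠ 0 ∧ Rep γ (Ph b g)}

theorem left_g (b : Bool) (g : Matrix (Fin 6) (Fin 6) k) (hg : g.det ≠ 0) (s : Fin 2 → k)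
    (hs : s ≠ 0) : ∃ B : Matrix (Fin 3) (Fin 6) k, B * (g * Eh b (s 0) (s 1)) = 1 := by
  obtain ⟨B, hB⟩ := exists_left b s hs
  refine ⟨B * g⁻¹, ?_⟩
  have h1 : B * g⁻¹ * (g * Eh b (s 0) (s 1)) = B * ((g⁻¹ * g) * Eh b (s 0) (s 1)) := by
    simp only [Matrix.mul_assoc]
  rw [h1, Matrix.nonsing_inv_mul _ (isUnit_iff_ne_zero.2 hg), Matrix.one_mul, hB]

theorem Ph_ne_zero [CharZero k] [Infinite k] (b : Bool) (g : Matrix (Fin 6) (Fin 6) k)
    (hg : g.det ≠ 0) : Ph b g ≠ 0 := by
  intro h0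
  obtain ⟨B, hB⟩ := left_g b g hg ![1, 0] (by
    intro h
    have := congrFun h 0
    simp at this)
  apply pt_ne_zero _ B hB
  rw [← biforms_Ph, h0]
  funext t
  simp [biforms]

theorem Fs_sub [CharZero k] [Infinite k] (b : Bool) : Fs k b ⊆ MorBi (Xsym k) 3 2 := by
  rintro γ ⟨g, hg, hγ⟩
  refine ⟨⟨lco b g, mco b g, hγ⟩, fun s hs => ?_⟩
  obtain ⟨B, hB⟩ := left_g b g hg s hs
  obtain ⟨z, hz⟩ := exists_rep (pt_ne_zero _ B hB)
  refine ⟨z, ⟨_, _, Jm_symm, hz⟩, ?_⟩
  rw [rep_biforms hγ, biforms_Ph]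
  exact hz

end

end Pool.Agent.Y166.SM
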