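import Mathlib
import Pool.Agent.Y166.SM.Fam

/-!
# The families are irreducible; their evaluation maps factor only through birational morphisms
-/

set_option autoImplicit false
set_option linter.unusedSectionVars false
set_option linter.deprecated false
set_option linter.style.haveILetI false

namespace Pool.Agent.Y166.SM

open MvPolynomial Pool.Agent.Y166.GM

section
variable {k : Type} [Field k]

abbrev Kap : Type := (S3 × Fin 4) × (S2 × Fin 3)

/-- The generic `6 × 6` matrix. -/
noncomputable def Ggen (k : Type) [Field k] :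
    Matrix (Fin 6) (Fin 6) (MvPolynomial (Fin 6 × Fin 6) k) :=
  Matrix.of fun i j => X (i, j)

theorem Ggen_map (c : Fin 6 × Fin 6 → k) :
    (Ggen k).map (eval c) = Matrix.of fun i j => c (i, j) := by
  ext i j
  simp [Ggen]

/-- The pullback of a polynomial under the parametrisation. -/
noncomputable def pullP (b : Bool) (P : MvPolynomial Kap k) : MvPolynomial (Fin 6 × Fin 6) k :=
  aeval (Ph b (Ggen k)) P

theorem eval_pullP (b : Bool) (P : MvPolynomial Kap k) (c : Fin 6 × Fin 6 → k) :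
    eval c (pullP b P) = eval (Ph b (Matrix.of fun i j => c (i, j))) P := by
  unfold pullP
  rw [eval_aeval]
  congr 1
  congr 1
  funext x
  rw [Ph_map, Ggen_map]

theorem det_Ggen_ne : (Ggen k).det ≠ 0 := by
  intro h
  have h1 := RingHom.map_det (eval fun x : Fin 6 × Fin 6 => (1 : Matrix (Fin 6) (Fin 6) k) x.1 x.2)
    (Ggen k)
  rw [h, map_zero, RingHom.mapMatrix_apply, Ggen_map] at h1
  have h2 : (Matrix.of fun i j => (1 : Matrix (Fin 6) (Fin 6) k) i j) = 1 := rfl
  rw [h2, Matrix.det_one] at h1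
  exact zero_ne_one h1

theorem eval_det_Ggen (c : Fin 6 × Fin 6 → k) :
    eval c (Ggen k).det = (Matrix.of fun i j => c (i, j)).det := by
  rw [RingHom.map_det, RingHom.mapMatrix_apply, Ggen_map]

theorem Fs_irreducible [IsAlgClosed k] [CharZero k] (b : Bool) : IsIrreducible (Fs k b) := by
  haveI : Infinite k := IsAlgClosed.instInfinite
  refine ⟨?_, ?_⟩
  · obtain ⟨γ, hγ⟩ := exists_rep (Ph_ne_zero b (1 : Matrix (Fin 6) (Fin 6) k) (by simp))
    exact ⟨γ, 1, by simp, hγ⟩
  · apply isPreirreducible_of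
    rintro m n P Q hP hQ ⟨p, ⟨g1, _, hp1⟩, hp⟩ ⟨q, ⟨g2, _, hq1⟩, hq⟩
    have hP1 : pullP b P ≠ 0 := by
      intro h
      apply hp
      have h1 := eval_pullP b P (fun x => g1 x.1 x.2)
      rw [h, map_zero] at h1
      rw [← zero_iff hp1 hP]
      exact h1.symm
    have hQ1 : pullP b Q ≠ 0 := by
      intro h
      apply hq
      have h1 := eval_pullP b Q (fun x => g2 x.1 x.2)
      rw [h, map_zero] at h1
      rw [← zero_iff hq1 hQ]
      exact h1.symm
    obtain ⟨c, hc⟩ := exists_eval_ne (mul_ne_zero (mul_ne_zero (det_Ggen_ne (k := k)) hP1) hQ1)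
    rw [map_mul, map_mul, eval_det_Ggen, eval_pullP, eval_pullP] at hc
    have hc1 := left_ne_zero_of_mul (left_ne_zero_of_mul hc)
    have hc2 := right_ne_zero_of_mul (left_ne_zero_of_mul hc)
    have hc3 := right_ne_zero_of_mul hc
    obtain ⟨γ, hγ⟩ := exists_rep (Ph_ne_zero b _ hc1)
    refine ⟨γ, ⟨_, hc1, hγ⟩, ?_, ?_⟩
    · rw [Ne, ← zero_iff hγ hP]
      exact hc2
    · rw [Ne, ← zero_iff hγ hQ]
      exact hc3

/-- A polynomial which vanishes on the cone over a set and not at some vector: a homogeneous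
component of it has the same property. -/
theorem exists_comp [Infinite k] {σ : Type} {Z : Set (PP k σ)} {P : MvPolynomial σ k}
    (hZ : ∀ z ∈ Z, ∀ v, Rep z v → eval v P = 0) {v : σ → k} (hv : eval v P ≠ 0) :
    ∃ (m : ℕ) (Q : MvPolynomial σ k), Q.IsHomogeneous m ∧ eval v Q ≠ 0 ∧
      ∀ z ∈ Z, eval z.rep Q = 0 := by
  obtain ⟨m, hm⟩ := exists_component hv
  refine ⟨m, homogeneousComponent m P, homogeneousComponent_isHomogeneous m P, hm, ?_⟩
  intro z hz
  apply component_zero
  intro a ha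
  exact hZ z hz _ ((rep_rep z).smul ha)

/-- Vanishing on the closure. -/
theorem closure_vanish [Infinite k] {σ : Type} {Z : Set (PP k σ)} {P : MvPolynomial σ k}
    (hZ : ∀ z ∈ Z, ∀ v, Rep z v → eval v P = 0) : ∀ z ∈ closure Z, ∀ v, Rep z v → eval v P = 0 := by
  intro z hz v hv
  by_contra hne
  obtain ⟨m, Q, hQ, hQv, hQZ⟩ := exists_comp hZ hne
  apply hQv
  rw [zero_iff hv hQ]
  exact (mem_closure_iff' Z z).1 hz m Q hQ hQZ

/-- Substitution of a value for `s`. -/
theorem eval_subst {κ ι : Type} (v : κ → MvPolynomial ι k) (s : Fin 2 → k) (c : ι → k)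
    (P : MvPolynomial (κ ⊕ Fin 2) k) :
    eval c (aeval (Sum.elim v fun i => C (s i)) P) =
      eval (Sum.elim (fun x => eval c (v x)) s) P := by
  rw [eval_aeval]
  congr 1
  congr 1
  funext x
  rcases x with x | i
  · rfl
  · simp

/-- The family map of the component factors only through dominant birational morphisms. -/
theorem fam_main [IsAlgClosed k] [CharZero k] (b : Bool) {n : ℕ}
    {Y : Set (PP k (Fin (n + 1)))} (hY : IsProjVar Y)
    {f : PP k (Fin (n + 1)) → PP k (S3 × S2)} (hf : IsMorphism Y f)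
    (hfZ : Set.MapsTo f Y (Xsym k)) (hfin : GenFinite Y f)
    (hfac : FactorsRat (Subtype.val ⁻¹' closure (Fs k b) : Set (MorBi (Xsym k) 3 2)) Y f) :
    Dominant Y (Xsym k) f ∧ Birational Y (Xsym k) f := by
  classical
  haveI : Infinite k := IsAlgClosed.instInfinite
  obtain ⟨H, G, ⟨γ, hγM, v, hv, s, hs, hHv⟩, hfac⟩ := hfac
  -- a parameter with nonzero value
  obtain ⟨g1, hg1, hH1⟩ : ∃ g1 : Matrix (Fin 6) (Fin 6) k, g1.det ≠ 0 ∧
      eval (Sum.elim (Ph b g1) s) H ≠ 0 := by
    by_contra hcon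
    push Not at hcon
    let Hs : MvPolynomial Kap k := aeval (Sum.elim X fun i => C (s i)) H
    have hHs : ∀ w : Kap → k, eval w Hs = eval (Sum.elim w s) H := by
      intro w
      have h1 := eval_subst (X : Kap → MvPolynomial Kap k) s w H
      have h2 : (fun x => eval w (X x : MvPolynomial Kap k)) = w := by
        funext x
        exact eval_X _
      rw [h2] at h1
      exact h1
    apply hHv
    rw [← hHs]
    refine closure_vanish (Z := Fs k b) ?_ γ.1 hγM v hv
    rintro z ⟨g, hg, hz⟩ w hw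
    rw [hHs]
    obtain ⟨c, hc, hcw⟩ := hz.exists_smul hw
    obtain ⟨r, hr⟩ := IsAlgClosed.exists_pow_nat_eq c (show 0 < 5 by norm_num)
    have hr0 : r ≠ 0 := by
      intro h0
      apply hc
      rw [← hr, h0]
      simp
    rw [hcw, ← hr, ← Ph_smul]
    apply hcon
    rw [Matrix.det_smul]
    exact mul_ne_zero (pow_ne_zero _ hr0) hg
  obtain ⟨B, hB⟩ := exists_left b s hs
  -- the parametrised family
  set C1 : Matrix (Fin 6) (Fin 3) k := g1 * Eh b (s 0) (s 1) with hC1
  obtain ⟨gh, hghe⟩ : ∃ gh : Matrix (Fin 6) (Fin 6) (MvPolynomial (Fin 6 × Fin 3) k),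
      ∀ c : Fin 6 × Fin 3 → k, gh.map (eval c) =
        g1 + ((Matrix.of fun i j => c (i, j)) - C1) * B := by
    refine ⟨Matrix.of fun i j => C (g1 i j) + ∑ l, (X (i, l) - C (C1 i l)) * C (B l j), ?_⟩
    intro c
    ext i j
    rw [Matrix.map_apply, Matrix.add_apply, Matrix.mul_apply, Matrix.of_apply, map_add, map_sum,
      eval_C]
    congr 1
    refine Finset.sum_congr rfl fun l _ => ?_
    rw [map_mul, map_sub, eval_X, eval_C, eval_C]
    rfl
  have hghE : ∀ c : Fin 6 × Fin 3 → k, gh.map (eval c) * Eh b (s 0) (s 1) =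
      Matrix.of fun i j => c (i, j) := by
    intro c
    rw [hghe, Matrix.add_mul, Matrix.mul_assoc, hB, Matrix.mul_one, ← hC1]
    exact add_sub_cancel _ _
  have hval : ∀ (P : MvPolynomial (Kap ⊕ Fin 2) k) (c : Fin 6 × Fin 3 → k),
      eval c (aeval (Sum.elim (Ph b gh) fun i => C (s i)) P) =
        eval (Sum.elim (Ph b (gh.map (eval c))) s) P := by
    intro P c
    rw [eval_subst]
    congr 1
    congr 1
    congr 1
    funext x
    exact Ph_map _ _ _ _
  have hdet : ∀ c : Fin 6 × Fin 3 → k, eval c gh.det = (gh.map (eval c)).det := by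
    intro c
    rw [RingHom.map_det, RingHom.mapMatrix_apply]
  have hbase : gh.map (eval fun x : Fin 6 × Fin 3 => C1 x.1 x.2) = g1 := by
    rw [hghe]
    have h1 : (Matrix.of fun i j => C1 i j) = C1 := rfl
    rw [h1, sub_self, Matrix.zero_mul, add_zero]
  let p : Param Y f (Fin 6 × Fin 3) :=
    { ψ := pt (Cgen k) (Jm _)
      H := fun j => aeval (Sum.elim (Ph b gh) fun i => C (s i)) (G j)
      D := aeval (Sum.elim (Ph b gh) fun i => C (s i)) H * gh.det
      hD := by
        intro h0
        have h1 := congrArg (eval fun x : Fin 6 × Fin 3 => C1 x.1 x.2) h0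
        rw [map_mul, hval, hdet, hbase, map_zero] at h1
        exact mul_ne_zero hH1 hg1 h1
      pt := by
        intro c hc
        rw [map_mul, hval, hdet] at hc
        have hc1 := left_ne_zero_of_mul hc
        have hc2 := right_ne_zero_of_mul hc
        obtain ⟨γ', hγ'⟩ := exists_rep (Ph_ne_zero b _ hc2)
        have hmem : γ' ∈ Fs k b := ⟨_, hc2, hγ'⟩
        obtain ⟨y, hyY, hy1, hy2⟩ := hfac ⟨γ', Fs_sub b hmem⟩ (subset_closure hmem) _ hγ' s hs hc1
        refine ⟨y, hyY, ?_, ?_⟩
        · have h1 : (fun j => eval c (aeval (Sum.elim (Ph b gh) fun i => C (s i)) (G j))) =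
              fun j => eval (Sum.elim (Ph b (gh.map (eval c))) s) (G j) := by
            funext j
            exact hval _ _
          rw [h1]
          exact hy1
        · have h1 : (fun j => eval c (pt (Cgen k) (Jm _) j)) =
              biforms (Ph b (gh.map (eval c))) s := by
            rw [biforms_Ph, hghE]
            funext j
            exact eval_psi c j
          rw [h1]
          exact hy2 }
  exact phi hY hf hfZ hfin p rfl

/-- Irreducible components from open subsets. -/
theorem comp_of_open {T : Type} [TopologicalSpace T] (S M O : Set T) (hMS : M ⊆ S)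
    (hirr : IsIrreducible M) (hO : IsOpen O) (hOS : O ∩ S ⊆ M) (hne : (O ∩ M).Nonempty) :
    (Subtype.val ⁻¹' closure M : Set S) ∈ irreducibleComponents S := by
  have h1 : IsIrreducible (Subtype.val ⁻¹' M : Set S) := by
    refine ⟨?_, ?_⟩
    · obtain ⟨x, hx⟩ := hirr.1
      exact ⟨⟨x, hMS hx⟩, hx⟩
    · rintro U V hU hV ⟨p, hp, hpU⟩ ⟨q, hq, hqV⟩
      obtain ⟨U', hU', rfl⟩ := isOpen_induced_iff.1 hU
      obtain ⟨V', hV', rfl⟩ := isOpen_induced_iff.1 hV
      obtain ⟨r, hr, hrU, hrV⟩ := hirr.2 U' V' hU' hV' ⟨p, hp, hpU⟩ ⟨q, hq, hqV⟩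
      exact ⟨⟨r, hMS hr⟩, hr, hrU, hrV⟩
  have h2 : closure (Subtype.val ⁻¹' M : Set S) = Subtype.val ⁻¹' closure M := by
    rw [Topology.IsInducing.subtypeVal.closure_eq_preimage_closure_image]
    rw [Subtype.image_preimage_coe, Set.inter_eq_self_of_subset_right hMS]
  refine ⟨by rw [← h2]; exact h1.closure, ?_⟩
  intro Z hZ hle x hx
  obtain ⟨r, hrO, hrM⟩ := hne
  have h3 : Z ⊆ closure (Z ∩ (Subtype.val ⁻¹' O : Set S)) :=
    subset_closure_inter_of_isPreirreducible_of_isOpen hZ.2 (hO.preimage continuous_subtype_val)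
      ⟨⟨r, hMS hrM⟩, hle (subset_closure hrM), hrO⟩
  have h4 : closure (Z ∩ (Subtype.val ⁻¹' O : Set S)) ⊆ closure (Subtype.val ⁻¹' M : Set S) := by
    apply closure_mono
    rintro y ⟨_, hy⟩
    exact hOS ⟨hy, y.2⟩
  rw [← h2]
  exact h4 (h3 hx)

end

end Pool.Agent.Y166.SM
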