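import Mathlib
import Pool.Agent.Y166.SM.FamB
import Pool.Agent.Y405.SM.Kappa
import Pool.Agent.Y73.SM.S0
import Pool.Agent.Y366.SM.S1
import Pool.Agent.Y99.SM.Sep

/-!
# Classification of the curves outside a closed subset
-/

set_option autoImplicit false
set_option linter.unusedSectionVars false
set_option linter.deprecated false
set_option linter.style.haveILetI false

namespace Pool.Agent.Y166.SM

open Pool.Agent.Y166.GM

section
variable {k : Type} [Field k]

/-- The coefficient matrices of a vector of quadratic forms. -/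
def Mq (m : S2 × Fin 3 → k) (q : Fin 3) : Matrix (Fin 6) (Fin 6) k :=
  Matrix.of fun i j => m ((i, j), q)

theorem point_data {L : S3 → k} {M : S2 → k} {z : PP k (S3 × S2)} (hz : z ∈ Xsym k)
    (h : Rep z (fun t => L t.1 * M t.2)) :
    ∃ (C : Matrix (Fin 6) (Fin 3) k) (Q : Matrix (Fin 3) (Fin 3) k), Q.transpose = Q ∧
      (∀ a : S3, L a = (C.submatrix a id).det) ∧ (∃ a : S3, (C.submatrix a id).det ≠ 0) ∧
      ∀ t : S2, M t = (C * Q * C.transpose) t.1 t.2 := by
  obtain ⟨C, Q, hQ, hr⟩ := hz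
  obtain ⟨μ, hμ, hv⟩ := hr.exists_smul h
  obtain ⟨⟨a0, t0⟩, h0⟩ : ∃ t, (fun t : S3 × S2 => L t.1 * M t.2) t ≠ 0 := by
    by_contra hcon
    push Not at hcon
    exact h.ne_zero (funext hcon)
  have hva : ∀ a t, L a * M t = μ * ((C.submatrix a id).det * (C * Q * C.transpose) t.1 t.2) :=
    fun a t => congrFun hv (a, t)
  have hL0 : L a0 ≠ 0 := left_ne_zero_of_mul h0
  have hM0 : M t0 ≠ 0 := right_ne_zero_of_mul h0
  have h00 := hva a0 t0
  have hne : μ * ((C.submatrix a0 id).det * (C * Q * C.transpose) t0.1 t0.2) ≠ 0 := by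
    rw [← h00]
    exact h0
  have hC0 : (C.submatrix a0 id).det ≠ 0 := left_ne_zero_of_mul (right_ne_zero_of_mul hne)
  have hS0 : (C * Q * C.transpose) t0.1 t0.2 ≠ 0 :=
    right_ne_zero_of_mul (right_ne_zero_of_mul hne)
  set lam : k := μ * (C * Q * C.transpose) t0.1 t0.2 / M t0 with hlam
  have hlam0 : lam ≠ 0 := div_ne_zero (mul_ne_zero hμ hS0) hM0
  have hL : ∀ a, L a = lam * (C.submatrix a id).det := by
    intro a
    have h1 := hva a t0
    rw [hlam]
    field_simp
    rw [h1]
    ring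
  have hM : ∀ t, M t = μ / lam * (C * Q * C.transpose) t.1 t.2 := by
    intro t
    have h1 := hva a0 t
    rw [hL a0] at h1
    have h2 : (C.submatrix a0 id).det * (lam * M t) =
        (C.submatrix a0 id).det * (μ * (C * Q * C.transpose) t.1 t.2) := by
      calc _ = lam * (C.submatrix a0 id).det * M t := by ring
        _ = _ := by rw [h1]; ring
    have h3 := mul_left_cancel₀ hC0 h2
    rw [div_mul_eq_mul_div, ← h3, mul_div_cancel_left₀ _ hlam0]
  let Δ : Matrix (Fin 3) (Fin 3) k := Matrix.diagonal ![lam, 1, 1]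
  let Δi : Matrix (Fin 3) (Fin 3) k := Matrix.diagonal ![lam⁻¹, 1, 1]
  have hΔ : Δ * Δi = 1 := by
    rw [Matrix.diagonal_mul_diagonal, ← Matrix.diagonal_one]
    congr 1
    funext i
    fin_cases i
    · exact mul_inv_cancel₀ hlam0
    · exact mul_one _
    · exact mul_one _
  have hΔdet : Δ.det = lam := by
    simp [Δ, Matrix.det_diagonal, Fin.prod_univ_three]
  have hdet : ∀ a : S3, ((C * Δ).submatrix a id).det = lam * (C.submatrix a id).det := by
    intro a
    have h1 : (C * Δ).submatrix a id = C.submatrix a id * Δ := rfl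
    rw [h1, Matrix.det_mul, hΔdet, mul_comm]
  refine ⟨C * Δ, (μ / lam) • (Δi * Q * Δi), ?_, ?_, ⟨a0, ?_⟩, ?_⟩
  · rw [Matrix.transpose_smul, Matrix.transpose_mul, Matrix.transpose_mul, hQ]
    have : Δi.transpose = Δi := Matrix.diagonal_transpose _
    rw [this, Matrix.mul_assoc]
  · intro a
    rw [hdet, hL]
  · rw [hdet]
    exact mul_ne_zero hlam0 hC0
  · intro t
    rw [hM t]
    have h1 : C * Δ * ((μ / lam) • (Δi * Q * Δi)) * (C * Δ).transpose =
        (μ / lam) • (C * Q * C.transpose) := by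
      rw [Matrix.transpose_mul]
      have h2 : Δ.transpose = Δ := Matrix.diagonal_transpose _
      rw [h2, Matrix.mul_smul, Matrix.smul_mul]
      congr 1
      have h3 : Δi * Δ = 1 := mul_eq_one_comm.1 hΔ
      calc C * Δ * (Δi * Q * Δi) * (Δ * C.transpose) =
          C * ((Δ * Δi) * Q * (Δi * Δ)) * C.transpose := by simp only [Matrix.mul_assoc]
        _ = _ := by rw [hΔ, h3, Matrix.one_mul, Matrix.mul_one]
    rw [h1]
    rfl

theorem forms_l_t (l : S3 × Fin 4 → k) (t : k) (a : S3) : forms l ![t, 1] a = Lt l t a := by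
  unfold forms Lt
  refine Finset.sum_congr rfl fun p _ => ?_
  simp

theorem forms_m_t (m : S2 × Fin 3 → k) (t : k) (x : S2) :
    forms m ![t, 1] x = Mt (Mq m 0) (Mq m 1) (Mq m 2) t x.1 x.2 := by
  unfold forms Mt Mq
  rw [Fin.sum_univ_three]
  simp
  ring

/-- The curves in the space of morphisms. -/
theorem curveIn {γ : PP k Kap} {l : S3 × Fin 4 → k} {m : S2 × Fin 3 → k}
    (hγ : Rep γ (fun x => l x.1 * m x.2)) (hM : γ ∈ MorBi (Xsym k) 3 2) :
    CurveIn l (Mq m 0) (Mq m 1) (Mq m 2) := by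
  have key : ∀ s : Fin 2 → k, s ≠ 0 → ∃ (C : Matrix (Fin 6) (Fin 3) k)
      (Q : Matrix (Fin 3) (Fin 3) k), Q.transpose = Q ∧
      (∀ a : S3, forms l s a = (C.submatrix a id).det) ∧ (∃ a : S3, (C.submatrix a id).det ≠ 0) ∧
      ∀ t : S2, forms m s t = (C * Q * C.transpose) t.1 t.2 := by
    intro s hs
    obtain ⟨z, hz, hzr⟩ := hM.2 s hs
    have h1 : Rep z (biforms (fun x : Kap => l x.1 * m x.2) s) := (rep_biforms hγ s z).1 hzr
    have h2 : biforms (fun x : Kap => l x.1 * m x.2) s =
        fun t : S3 × S2 => forms l s t.1 * forms m s t.2 := by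
      funext t
      exact biforms_prod l m s t
    rw [h2] at h1
    exact point_data hz h1
  refine ⟨fun t => ?_, ?_⟩
  · obtain ⟨C, Q, h1, h2, h3, h4⟩ := key ![t, 1] (by
      intro h
      have := congrFun h 1
      simp at this)
    refine ⟨C, Q, h1, fun a => by rw [← forms_l_t, h2], h3, ?_⟩
    ext i j
    rw [← h4 (i, j), forms_m_t]
  · obtain ⟨C, Q, h1, h2, h3, h4⟩ := key ![1, 0] (by
      intro h
      have := congrFun h 0
      simp at this)
    refine ⟨C, Q, h1, fun a => ?_, h3, ?_⟩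
    · rw [← h2, forms_inf _ _ (by simp)]
      simp
    · ext i j
      rw [← h4 (i, j), forms_inf _ _ (by simp)]
      simp
      rfl

theorem det_sub_mul {A : Type} [CommRing A] (N : Matrix (Fin 6) (Fin 3) A)
    (Q : Matrix (Fin 3) (Fin 3) A) (a b : S3) :
    ((N * Q * N.transpose).submatrix a b).det =
      (N.submatrix a id).det * Q.det * (N.submatrix b id).det := by
  have h1 : (N * Q * N.transpose).submatrix a b =
      N.submatrix a id * Q * (N.submatrix b id).transpose := rfl
  rw [h1, Matrix.det_mul, Matrix.det_mul, Matrix.det_transpose]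

/-- The curve has constant rank three if one minor does not vanish. -/
theorem full_of {l : S3 × Fin 4 → k} {M0 M1 M2 : Matrix (Fin 6) (Fin 6) k}
    (h : CurveIn l M0 M1 M2) {κ : k} (hκ : κ ≠ 0)
    (h1 : ∀ (t : k) (a b : S3), ((Mt M0 M1 M2 t).submatrix a b).det = κ * Lt l t a * Lt l t b)
    (h2 : ∀ a b : S3, (M2.submatrix a b).det = κ * l (a, 3) * l (b, 3)) : Full M0 M1 M2 := by
  refine ⟨fun t => ?_, ?_⟩
  · obtain ⟨C, Q, hQ, hL, ⟨a, ha⟩, hM⟩ := h.fin t
    refine ⟨C, Q, hQ, ?_, ⟨a, ha⟩, hM⟩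
    intro h0
    have h3 := h1 t a a
    rw [hM, det_sub_mul, h0, mul_zero, zero_mul, hL a] at h3
    exact mul_ne_zero (mul_ne_zero hκ ha) ha h3.symm
  · obtain ⟨C, Q, hQ, hL, ⟨a, ha⟩, hM⟩ := h.inf
    refine ⟨C, Q, hQ, ?_, ⟨a, ha⟩, hM⟩
    intro h0
    have h3 := h2 a a
    rw [hM, det_sub_mul, h0, mul_zero, zero_mul, hL a] at h3
    exact mul_ne_zero (mul_ne_zero hκ ha) ha h3.symm

/-- The coefficient matrices of the curves of the first family. -/
theorem mco_false (g : Matrix (Fin 6) (Fin 6) k) :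
    Mq (mco false g) 0 = g.submatrix id up * Jm k * (g.submatrix id up).transpose ∧
    Mq (mco false g) 1 = g.submatrix id up * Jm k * (g.submatrix id lo).transpose +
      g.submatrix id lo * Jm k * (g.submatrix id up).transpose ∧
    Mq (mco false g) 2 = g.submatrix id lo * Jm k * (g.submatrix id lo).transpose := by
  have hen : ∀ (i : Fin 6) (j : Fin 3),
      ((g.map Polynomial.C : Matrix (Fin 6) (Fin 6) (Polynomial k)) *
        Eh false (Polynomial.X : Polynomial k) 1) i j =
      Polynomial.C (g i (up j)) + Polynomial.X * Polynomial.C (g i (lo j)) := by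
    intro i j
    rw [Matrix.mul_apply, Fin.sum_univ_six]
    fin_cases j <;> simp [Eh, up, lo] <;> ring
  have key : ∀ i j : Fin 6, mform false (g.map Polynomial.C) (Polynomial.X : Polynomial k) 1 (i, j) =
      Polynomial.C ((g.submatrix id up * Jm k * (g.submatrix id up).transpose) i j) +
      Polynomial.X * Polynomial.C ((g.submatrix id up * Jm k * (g.submatrix id lo).transpose +
        g.submatrix id lo * Jm k * (g.submatrix id up).transpose) i j) +
      Polynomial.X ^ 2 *
        Polynomial.C ((g.submatrix id lo * Jm k * (g.submatrix id lo).transpose) i j) := by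
    intro i j
    rw [mform_eq]
    simp only [hen]
    have e2 : (Polynomial.C (2:k) : Polynomial k) = 2 := map_ofNat Polynomial.C 2
    simp [Matrix.mul_apply, Fin.sum_univ_three, Jm]
    simp only [e2]
    ring
  refine ⟨?_, ?_, ?_⟩
  · ext i j
    show (mform false (g.map Polynomial.C) (Polynomial.X : Polynomial k) 1 (i, j)).coeff 0 = _
    rw [key]
    simp
  · ext i j
    show (mform false (g.map Polynomial.C) (Polynomial.X : Polynomial k) 1 (i, j)).coeff 1 = _
    rw [key]
    simp [Polynomial.coeff_X_pow_mul', Polynomial.coeff_C]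
  · ext i j
    show (mform false (g.map Polynomial.C) (Polynomial.X : Polynomial k) 1 (i, j)).coeff 2 = _
    rw [key]
    simp [Polynomial.coeff_X_pow_mul', Polynomial.coeff_C]

/-- The coefficient matrices of the curves of the second family. -/
theorem mco_true (g : Matrix (Fin 6) (Fin 6) k) (i j : Fin 6) :
    Mq (mco true g) 0 i j = g i 0 * g j 5 + g i 5 * g j 0 - 2 * (g i 3 * g j 3) ∧
    Mq (mco true g) 1 i j = g i 1 * g j 5 + g i 5 * g j 1 -
      2 * (g i 3 * g j 4 + g i 4 * g j 3) ∧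
    Mq (mco true g) 2 i j = g i 2 * g j 5 + g i 5 * g j 2 - 2 * (g i 4 * g j 4) := by
  have h0 : ∀ i : Fin 6,
      ((g.map Polynomial.C : Matrix (Fin 6) (Fin 6) (Polynomial k)) *
        Eh true (Polynomial.X : Polynomial k) 1) i 0 =
      Polynomial.C (g i 0) + Polynomial.X * Polynomial.C (g i 1) +
        Polynomial.X ^ 2 * Polynomial.C (g i 2) := by
    intro i
    rw [Matrix.mul_apply, Fin.sum_univ_six]
    simp [Eh]
    try ring
  have h1 : ∀ i : Fin 6,
      ((g.map Polynomial.C : Matrix (Fin 6) (Fin 6) (Polynomial k)) *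
        Eh true (Polynomial.X : Polynomial k) 1) i 1 =
      Polynomial.C (g i 3) + Polynomial.X * Polynomial.C (g i 4) := by
    intro i
    rw [Matrix.mul_apply, Fin.sum_univ_six]
    simp [Eh]
    try ring
  have h2 : ∀ i : Fin 6,
      ((g.map Polynomial.C : Matrix (Fin 6) (Fin 6) (Polynomial k)) *
        Eh true (Polynomial.X : Polynomial k) 1) i 2 = Polynomial.C (g i 5) := by
    intro i
    rw [Matrix.mul_apply, Fin.sum_univ_six]
    simp [Eh]
  have key : mform true (g.map Polynomial.C) (Polynomial.X : Polynomial k) 1 (i, j) =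
      Polynomial.C (g i 0 * g j 5 + g i 5 * g j 0 - 2 * (g i 3 * g j 3)) +
      Polynomial.X * Polynomial.C (g i 1 * g j 5 + g i 5 * g j 1 -
        2 * (g i 3 * g j 4 + g i 4 * g j 3)) +
      Polynomial.X ^ 2 * Polynomial.C (g i 2 * g j 5 + g i 5 * g j 2 - 2 * (g i 4 * g j 4)) := by
    rw [mform_eq]
    simp only [h0, h1, h2]
    have e2 : (Polynomial.C (2:k) : Polynomial k) = 2 := map_ofNat Polynomial.C 2
    simp
    simp only [e2]
    ring
  refine ⟨?_, ?_, ?_⟩
  · show (mform true (g.map Polynomial.C) (Polynomial.X : Polynomial k) 1 (i, j)).coeff 0 = _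
    rw [key]
    simp
  · show (mform true (g.map Polynomial.C) (Polynomial.X : Polynomial k) 1 (i, j)).coeff 1 = _
    rw [key]
    simp [Polynomial.coeff_X_pow_mul', Polynomial.coeff_C]
  · show (mform true (g.map Polynomial.C) (Polynomial.X : Polynomial k) 1 (i, j)).coeff 2 = _
    rw [key]
    simp [Polynomial.coeff_X_pow_mul', Polynomial.coeff_C]

/-- The Plücker coordinates are determined by the symmetric matrices. -/
theorem match_l [IsAlgClosed k] [CharZero k] (b : Bool) {l : S3 × Fin 4 → k}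
    {m : S2 × Fin 3 → k} (h : CurveIn l (Mq m 0) (Mq m 1) (Mq m 2)) {κ : k} (hκ : κ ≠ 0)
    (h1 : ∀ (t : k) (a b : S3), ((Mt (Mq m 0) (Mq m 1) (Mq m 2) t).submatrix a b).det =
      κ * Lt l t a * Lt l t b)
    (g : Matrix (Fin 6) (Fin 6) k) (hg : mco b g = m) :
    ∃ c : k, c ≠ 0 ∧ ∀ x, lco b g x = c * l x := by
  haveI : Infinite k := IsAlgClosed.instInfinite
  let Lp : S3 → Polynomial k := fun a => pol fun p : Fin 4 => l (a, p)
  let Λ : S3 → Polynomial k := fun a => ldet b (g.map Polynomial.C) (Polynomial.X) 1 a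
  have hLp : ∀ a t, (Lp a).eval t = Lt l t a := by
    intro a t
    rw [pol_eval]
    rfl
  have hΛ : ∀ a t, (Λ a).eval t = ldet b g t 1 a := by
    intro a t
    have h2 := ldet_map (Polynomial.evalRingHom t) b (g.map Polynomial.C)
      (Polynomial.X : Polynomial k) 1 a
    have h3 : (g.map Polynomial.C).map (Polynomial.evalRingHom t) = g := by
      ext i j
      simp
    rw [h3, map_one] at h2
    refine h2.trans ?_
    congr 1
    simp
  have hrel : ∀ a a' : S3, (2 : Polynomial k) * Λ a * Λ a' = Polynomial.C κ * Lp a * Lp a' := by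
    intro a a'
    apply Polynomial.funext
    intro t
    rw [Polynomial.eval_mul, Polynomial.eval_mul, Polynomial.eval_mul, Polynomial.eval_mul, hΛ,
      hΛ, hLp, hLp, Polynomial.eval_C, ← h1 t a a']
    have h2 : Mt (Mq m 0) (Mq m 1) (Mq m 2) t =
        g * Eh b t 1 * Jm k * (g * Eh b t 1).transpose := by
      ext i j
      have h3 := forms_m_t m t (i, j)
      rw [← hg, forms_mco] at h3
      rw [← hg]
      exact h3.symm
    rw [h2, det_sub_mul, Jm_det]
    have h4 : Polynomial.eval t (2 : Polynomial k) = 2 := by simp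
    rw [h4]
    unfold ldet
    ring
  obtain ⟨_, _, _, hL0, ⟨a0, ha0⟩, _⟩ := h.fin 0
  have hLp0 : Lp a0 ≠ 0 := by
    intro h0
    apply ha0
    rw [← hL0, ← hLp, h0, Polynomial.eval_zero]
  obtain ⟨ν, hν⟩ := IsAlgClosed.exists_pow_nat_eq (κ / 2) (show 0 < 2 by norm_num)
  have h2k : (2 : k) ≠ 0 := two_ne_zero
  have hν0 : ν ≠ 0 := by
    intro h0
    rw [h0] at hν
    have h5 : κ / 2 = 0 := by rw [← hν]; simp
    rcases div_eq_zero_iff.1 h5 with h6 | h6
    · exact hκ h6
    · exact h2k h6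
  have hC2 : (2 : Polynomial k) = Polynomial.C 2 := (map_ofNat Polynomial.C 2).symm
  have hκν : Polynomial.C κ = 2 * Polynomial.C ν ^ 2 := by
    rw [hC2, ← map_pow, hν, ← map_mul]
    congr 1
    field_simp
  have hprod : (Λ a0 - Polynomial.C ν * Lp a0) * (Λ a0 + Polynomial.C ν * Lp a0) = 0 := by
    have h2 := hrel a0 a0
    rw [hκν] at h2
    have h3 : (2 : Polynomial k) * ((Λ a0 - Polynomial.C ν * Lp a0) *
        (Λ a0 + Polynomial.C ν * Lp a0)) = 0 := by
      calc _ = 2 * Λ a0 * Λ a0 - 2 * Polynomial.C ν ^ 2 * Lp a0 * Lp a0 := by ring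
        _ = 0 := by rw [h2, sub_self]
    rcases mul_eq_zero.1 h3 with h4 | h4
    · exact absurd h4 two_ne_zero
    · exact h4
  obtain ⟨c, hc0, hcκ, hcΛ⟩ : ∃ c : k, c ≠ 0 ∧ Polynomial.C κ = 2 * Polynomial.C c ^ 2 ∧
      Λ a0 = Polynomial.C c * Lp a0 := by
    rcases mul_eq_zero.1 hprod with h2 | h2
    · exact ⟨ν, hν0, hκν, sub_eq_zero.1 h2⟩
    · refine ⟨-ν, neg_ne_zero.2 hν0, ?_, ?_⟩
      · rw [hκν, Polynomial.C_neg]
        ring
      · rw [Polynomial.C_neg, neg_mul]
        exact eq_neg_of_add_eq_zero_left h2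
  have hall : ∀ a, Λ a = Polynomial.C c * Lp a := by
    intro a
    have h2 := hrel a0 a
    rw [hcΛ, hcκ] at h2
    have h3 : (2 * Polynomial.C c * Lp a0) * Λ a = (2 * Polynomial.C c * Lp a0) *
        (Polynomial.C c * Lp a) := by
      calc _ = 2 * (Polynomial.C c * Lp a0) * Λ a := by ring
        _ = _ := by rw [h2]; ring
    refine mul_left_cancel₀ (mul_ne_zero (mul_ne_zero two_ne_zero ?_) hLp0) h3
    exact Polynomial.C_ne_zero.2 hc0
  refine ⟨c, hc0, ?_⟩
  rintro ⟨a, p⟩
  show (Λ a).coeff p = _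
  rw [hall, Polynomial.coeff_C_mul]
  congr 1
  exact pol_coeff (fun p : Fin 4 => l (a, p)) p

end

end Pool.Agent.Y166.SM
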