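import Mathlib
import Pool.Agent.Y166.SM.CompA

/-!
# Curves of rank three belong to one of the two families
-/

set_option autoImplicit false
set_option linter.unusedSectionVars false
set_option linter.deprecated false
set_option linter.style.haveILetI false

namespace Pool.Agent.Y166.SM

open Pool.Agent.Y166.GM

section
variable {k : Type} [Field k]

theorem eq_of_Mq {m m' : S2 × Fin 3 → k} (h : ∀ q, Mq m q = Mq m' q) : m = m' := by
  funext x
  exact congrFun (congrFun (h x.2) x.1.1) x.1.2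

/-- The matrix with the columns of two matrices. -/
def joinM (A B : Matrix (Fin 6) (Fin 3) k) : Matrix (Fin 6) (Fin 6) k :=
  Matrix.of fun i j => ![A i 0, A i 1, A i 2, B i 0, B i 1, B i 2] j

theorem join_up (A B : Matrix (Fin 6) (Fin 3) k) : (joinM A B).submatrix id up = A := by
  ext i j
  fin_cases j <;> rfl

theorem join_lo (A B : Matrix (Fin 6) (Fin 3) k) : (joinM A B).submatrix id lo = B := by
  ext i j
  fin_cases j <;> rfl

theorem class0 [IsAlgClosed k] [CharZero k] {m : S2 × Fin 3 → k}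
    (h : Full (Mq m 0) (Mq m 1) (Mq m 2))
    (h0 : ∀ x : Fin 6 → k, (Mq m 0).mulVec x = 0 → (Mq m 2).mulVec x = 0 → x = 0) :
    ∃ g : Matrix (Fin 6) (Fin 6) k, g.det ≠ 0 ∧ mco false g = m := by
  obtain ⟨C0, C1, Q, hQ, hQd, e0, e1, e2⟩ := Pool.Agent.Y73.SM.stmS0 k _ _ _ h h0
  obtain ⟨U, hU, hQU⟩ := Pool.Agent.Y110.SM.stmNF k Q hQ hQd
  have key : ∀ A B : Matrix (Fin 6) (Fin 3) k,
      A * Q * B.transpose = (A * U) * Jm k * (B * U).transpose := by
    intro A B
    rw [hQU, Matrix.transpose_mul]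
    simp only [Matrix.mul_assoc]
  rw [key] at e0 e2
  rw [key, key] at e1
  refine ⟨joinM (C0 * U) (C1 * U), ?_, ?_⟩
  · intro hd
    obtain ⟨y, hy, hyg⟩ := Matrix.exists_vecMul_eq_zero_iff.2 hd
    have hcol : ∀ j, ∑ i, y i * joinM (C0 * U) (C1 * U) i j = 0 := fun j => congrFun hyg j
    have ha : (C0 * U).transpose.mulVec y = 0 := by
      funext j
      have h1 := hcol (up j)
      have h2 : ∀ i, joinM (C0 * U) (C1 * U) i (up j) = (C0 * U) i j := fun i =>
        congrFun (congrFun (join_up (C0 * U) (C1 * U)) i) j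
      simp only [h2] at h1
      rw [Pi.zero_apply, ← h1]
      show ∑ i, (C0 * U) i j * y i = ∑ i, y i * (C0 * U) i j
      exact Finset.sum_congr rfl fun i _ => mul_comm _ _
    have hb : (C1 * U).transpose.mulVec y = 0 := by
      funext j
      have h1 := hcol (lo j)
      have h2 : ∀ i, joinM (C0 * U) (C1 * U) i (lo j) = (C1 * U) i j := fun i =>
        congrFun (congrFun (join_lo (C0 * U) (C1 * U)) i) j
      simp only [h2] at h1
      rw [Pi.zero_apply, ← h1]
      show ∑ i, (C1 * U) i j * y i = ∑ i, y i * (C1 * U) i j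
      exact Finset.sum_congr rfl fun i _ => mul_comm _ _
    apply hy
    apply h0
    · rw [e0, ← Matrix.mulVec_mulVec, ha, Matrix.mulVec_zero]
    · rw [e2, ← Matrix.mulVec_mulVec, hb, Matrix.mulVec_zero]
  · apply eq_of_Mq
    obtain ⟨f0, f1, f2⟩ := mco_false (joinM (C0 * U) (C1 * U))
    rw [join_up, join_lo] at f1
    rw [join_up] at f0
    rw [join_lo] at f2
    intro q
    fin_cases q
    · exact f0.trans e0.symm
    · exact f1.trans e1.symm
    · exact f2.trans e2.symm

theorem class1 [IsAlgClosed k] [CharZero k] {m : S2 × Fin 3 → k}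
    (h : Full (Mq m 0) (Mq m 1) (Mq m 2))
    (h0 : ∃ x : Fin 6 → k, x ≠ 0 ∧ (Mq m 0).mulVec x = 0 ∧ (Mq m 2).mulVec x = 0)
    (h1 : ∀ y : Fin 6 → k, (Mq m 0).mulVec y = 0 → (Mq m 1).mulVec y = 0 →
      (Mq m 2).mulVec y = 0 → y = 0) :
    ∃ g : Matrix (Fin 6) (Fin 6) k, g.det ≠ 0 ∧ mco true g = m := by
  obtain ⟨f, e0, e1, e2⟩ := Pool.Agent.Y366.SM.stmS1 k _ _ _ h h0 h1
  refine ⟨Matrix.of fun i j => f j i, ?_, ?_⟩
  · intro hd
    obtain ⟨y, hy, hyg⟩ := Matrix.exists_vecMul_eq_zero_iff.2 hd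
    have hcol : ∀ j, ∑ i, f j i * y i = 0 := by
      intro j
      have h2 : ∑ i, y i * f j i = 0 := congrFun hyg j
      rw [← h2]
      exact Finset.sum_congr rfl fun i _ => mul_comm _ _
    have lin : ∀ (a b c d : Fin 6 → k) (p q r s : k), (∑ j, a j * y j = 0) →
        (∑ j, b j * y j = 0) → (∑ j, c j * y j = 0) → (∑ j, d j * y j = 0) →
        ∑ j, (p * a j + q * b j - (r * c j + s * d j)) * y j = 0 := by
      intro a b c d p q r s ha hb hc hd
      have h2 : ∑ j, (p * a j + q * b j - (r * c j + s * d j)) * y j =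
          p * ∑ j, a j * y j + q * ∑ j, b j * y j -
            (r * ∑ j, c j * y j + s * ∑ j, d j * y j) := by
        simp only [Finset.mul_sum, ← Finset.sum_add_distrib, ← Finset.sum_sub_distrib]
        exact Finset.sum_congr rfl fun i _ => by ring
      rw [h2, ha, hb, hc, hd]
      ring
    apply hy
    apply h1
    · funext i
      have h2 := lin (f 5) (f 0) (f 3) (f 3) (f 0 i) (f 5 i) (2 * f 3 i) 0 (hcol 5) (hcol 0)
        (hcol 3) (hcol 3)
      rw [Pi.zero_apply, ← h2]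
      show ∑ j, Mq m 0 i j * y j = _
      refine Finset.sum_congr rfl fun j _ => ?_
      rw [e0]
      ring
    · funext i
      have h2 := lin (f 5) (f 1) (f 4) (f 3) (f 1 i) (f 5 i) (2 * f 3 i) (2 * f 4 i) (hcol 5)
        (hcol 1) (hcol 4) (hcol 3)
      rw [Pi.zero_apply, ← h2]
      show ∑ j, Mq m 1 i j * y j = _
      refine Finset.sum_congr rfl fun j _ => ?_
      rw [e1]
      ring
    · funext i
      have h2 := lin (f 5) (f 2) (f 4) (f 4) (f 2 i) (f 5 i) (2 * f 4 i) 0 (hcol 5) (hcol 2)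
        (hcol 4) (hcol 4)
      rw [Pi.zero_apply, ← h2]
      show ∑ j, Mq m 2 i j * y j = _
      refine Finset.sum_congr rfl fun j _ => ?_
      rw [e2]
      ring
  · apply eq_of_Mq
    intro q
    ext i j
    obtain ⟨f0, f1, f2⟩ := mco_true (Matrix.of fun i j => f j i) i j
    fin_cases q
    · exact f0.trans (e0 i j).symm
    · exact f1.trans (e1 i j).symm
    · exact f2.trans (e2 i j).symm

/-- The curves with coefficient matrices `Mq (mco b g)` belong to the family. -/
theorem mem_Fs [IsAlgClosed k] [CharZero k] (b : Bool) {γ : PP k Kap} {l : S3 × Fin 4 → k}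
    {m : S2 × Fin 3 → k} (hγ : Rep γ (fun x => l x.1 * m x.2))
    (h : CurveIn l (Mq m 0) (Mq m 1) (Mq m 2)) {κ : k} (hκ : κ ≠ 0)
    (h1 : ∀ (t : k) (a b : S3), ((Mt (Mq m 0) (Mq m 1) (Mq m 2) t).submatrix a b).det =
      κ * Lt l t a * Lt l t b)
    (hg : ∃ g : Matrix (Fin 6) (Fin 6) k, g.det ≠ 0 ∧ mco b g = m) : γ ∈ Fs k b := by
  obtain ⟨g, hg0, hg⟩ := hg
  obtain ⟨c, hc, hl⟩ := match_l b h hκ h1 g hg
  refine ⟨g, hg0, ?_⟩
  have h2 : Ph b g = c • fun x : Kap => l x.1 * m x.2 := by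
    funext x
    show lco b g x.1 * mco b g x.2 = c * (l x.1 * m x.2)
    rw [hl, hg]
    ring
  rw [h2]
  exact hγ.smul hc

end

end Pool.Agent.Y166.SM
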