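import Mathlib
import Pool.Agent.Y166.SM.CompB
import Pool.Agent.Y166.GM.Sep

/-!
# The closures of the two families are irreducible components
-/

set_option autoImplicit false
set_option linter.unusedSectionVars false
set_option linter.deprecated false
set_option linter.style.haveILetI false

namespace Pool.Agent.Y166.SM

open MvPolynomial Pool.Agent.Y166.GM

section rings
variable {A B : Type} [CommRing A] [CommRing B]

/-- The first indices. -/
def az : S3 × Fin 4 := (![0, 1, 2], 0)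

/-- The matrices of coefficients, read off from the coordinates. -/
def Mv (v : Kap → A) (q : Fin 3) : Matrix (Fin 6) (Fin 6) A :=
  Matrix.of fun i j => v (az, ((i, j), q))

theorem Mv_map (φ : A →+* B) (v : Kap → A) (q : Fin 3) :
    (Mv v q).map φ = Mv (fun x => φ (v x)) q := rfl

theorem Gmat_map (φ : A →+* B) (M0 M1 M2 : Matrix (Fin 6) (Fin 6) A) :
    (Gmat M0 M1 M2).map φ = Gmat (M0.map φ) (M1.map φ) (M2.map φ) := by
  have hdet : ∀ M : Matrix (Fin 3) (Fin 3) A, φ M.det = (M.map φ).det := by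
    intro M
    rw [RingHom.map_det, RingHom.mapMatrix_apply]
  have hadj : ∀ (M : Matrix (Fin 3) (Fin 3) A) (i j : Fin 3),
      φ (M.adjugate i j) = (M.map φ).adjugate i j := by
    intro M i j
    have h1 := congrFun (congrFun (RingHom.map_adjugate φ M) i) j
    exact h1
  ext i j
  rw [Matrix.map_apply]
  unfold Gmat
  simp only [Matrix.sub_apply, Matrix.add_apply, Matrix.smul_apply, smul_eq_mul,
    Matrix.mul_apply, map_sub, map_add, map_mul, map_sum, hdet, hadj, Matrix.submatrix_apply,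
    Matrix.map_apply, Matrix.submatrix_map, map_ofNat]

theorem Efun_map (φ : A →+* B) (M0 M1 M2 : Matrix (Fin 6) (Fin 6) A) :
    φ (Efun M0 M1 M2) = Efun (M0.map φ) (M1.map φ) (M2.map φ) := by
  unfold Efun
  rw [map_mul, map_mul, ← Gmat_map, RingHom.map_det, RingHom.map_det, RingHom.map_det]
  rfl

end rings

section
variable {k : Type} [Field k]

/-- The polynomial which separates the two families. -/
noncomputable def Epoly (k : Type) [Field k] : MvPolynomial Kap k := Efun (Mv X 0) (Mv X 1) (Mv X 2)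

theorem eval_Epoly (v : Kap → k) : eval v (Epoly k) = Efun (Mv v 0) (Mv v 1) (Mv v 2) := by
  unfold Epoly
  rw [Efun_map, Mv_map, Mv_map, Mv_map]
  simp only [eval_X]

/-- The first minor of the first matrix. -/
noncomputable def Pmin (k : Type) [Field k] : MvPolynomial Kap k := ((Mv X 0).submatrix up up).det

theorem Pmin_homog : (Pmin k).IsHomogeneous 3 :=
  det_homog _ fun _ _ => isHomogeneous_X _ _

theorem eval_Pmin (v : Kap → k) : eval v (Pmin k) = ((Mv v 0).submatrix up up).det := by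
  unfold Pmin
  rw [RingHom.map_det, RingHom.mapMatrix_apply]
  congr 1
  ext i j
  exact eval_X _

theorem Mv_prod (l : S3 × Fin 4 → k) (m : S2 × Fin 3 → k) (q : Fin 3) :
    Mv (fun x : Kap => l x.1 * m x.2) q = l az • Mq m q := rfl

/-- The vectors of the values of the matrices. -/
def PhiL {r : ℕ} (qs : Fin r → Fin 3) :
    (Kap → k) →ₗ[k] (Fin 6 → k) →ₗ[k] ((S3 × Fin 4) × Fin 6 × Fin r → k) :=
  LinearMap.mk₂ k (fun v x t => ∑ j, v (t.1, ((t.2.1, j), qs t.2.2)) * x j)
    (by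
      intro v w x
      funext t
      rw [Pi.add_apply, ← Finset.sum_add_distrib]
      exact Finset.sum_congr rfl fun j _ => by rw [Pi.add_apply, add_mul])
    (by
      intro c v x
      funext t
      rw [Pi.smul_apply, smul_eq_mul, Finset.mul_sum]
      exact Finset.sum_congr rfl fun j _ => by rw [Pi.smul_apply, smul_eq_mul, mul_assoc])
    (by
      intro v x y
      funext t
      rw [Pi.add_apply, ← Finset.sum_add_distrib]
      exact Finset.sum_congr rfl fun j _ => by rw [Pi.add_apply, mul_add])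
    (by
      intro c v x
      funext t
      rw [Pi.smul_apply, smul_eq_mul, Finset.mul_sum]
      exact Finset.sum_congr rfl fun j _ => by rw [Pi.smul_apply, smul_eq_mul]; ring)

theorem PhiL_prod {r : ℕ} (qs : Fin r → Fin 3) (l : S3 × Fin 4 → k) (m : S2 × Fin 3 → k)
    (x : Fin 6 → k) (t : (S3 × Fin 4) × Fin 6 × Fin r) :
    PhiL qs (fun y : Kap => l y.1 * m y.2) x t = l t.1 * (Mq m (qs t.2.2)).mulVec x t.2.1 := by
  show ∑ j, (l t.1 * m ((t.2.1, j), qs t.2.2)) * x j =
    l t.1 * ∑ j, m ((t.2.1, j), qs t.2.2) * x j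
  rw [Finset.mul_sum]
  exact Finset.sum_congr rfl fun j _ => by rw [mul_assoc]

theorem sep_ex [CharZero k] [Infinite k] {r : ℕ} (qs : Fin r → Fin 3) (b : Bool)
    (hinj : ∀ x : Fin 6 → k, (∀ e, (Mq (mco b (1 : Matrix (Fin 6) (Fin 6) k)) (qs e)).mulVec x = 0) →
      x = 0) :
    ∃ (n : ℕ) (P : MvPolynomial Kap k), P.IsHomogeneous n ∧
      eval (Ph b (1 : Matrix (Fin 6) (Fin 6) k)) P ≠ 0 ∧
      ∀ (l : S3 × Fin 4 → k) (m : S2 × Fin 3 → k) (x : Fin 6 → k), x ≠ 0 →
        (∀ e, (Mq m (qs e)).mulVec x = 0) → eval (fun y : Kap => l y.1 * m y.2) P = 0 := by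
  obtain ⟨y0, hy0⟩ : ∃ y, Ph b (1 : Matrix (Fin 6) (Fin 6) k) y ≠ 0 := by
    by_contra hcon
    push Not at hcon
    exact Ph_ne_zero b (1 : Matrix (Fin 6) (Fin 6) k) (by simp) (funext hcon)
  have hl0 : lco b (1 : Matrix (Fin 6) (Fin 6) k) y0.1 ≠ 0 := left_ne_zero_of_mul hy0
  obtain ⟨n, P, hP, hP0, hPv⟩ := sep (PhiL qs) (Ph b (1 : Matrix (Fin 6) (Fin 6) k)) (by
    rw [← LinearMap.ker_eq_bot, LinearMap.ker_eq_bot']
    intro x hx
    apply hinj
    intro e
    funext i
    have h1 := congrFun hx (y0.1, i, e)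
    have h2 := PhiL_prod qs (lco b (1 : Matrix (Fin 6) (Fin 6) k)) (mco b 1) x (y0.1, i, e)
    have h3 : lco b (1 : Matrix (Fin 6) (Fin 6) k) y0.1 *
        (Mq (mco b (1 : Matrix (Fin 6) (Fin 6) k)) (qs e)).mulVec x i = 0 := h2.symm.trans h1
    rcases mul_eq_zero.1 h3 with h4 | h4
    · exact absurd h4 hl0
    · exact h4)
  refine ⟨n, P, hP, hP0, fun l m x hx he => hPv _ ⟨x, hx, ?_⟩⟩
  funext t
  rw [PhiL_prod, he, Pi.zero_apply, mul_zero]
  rfl

theorem inj_false [CharZero k] (x : Fin 6 → k)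
    (h0 : (Mq (mco false (1 : Matrix (Fin 6) (Fin 6) k)) 0).mulVec x = 0)
    (h2 : (Mq (mco false (1 : Matrix (Fin 6) (Fin 6) k)) 2).mulVec x = 0) : x = 0 := by
  obtain ⟨e0, _, e2⟩ := mco_false (1 : Matrix (Fin 6) (Fin 6) k)
  rw [e0] at h0
  rw [e2] at h2
  have a0 := congrFun h0 0
  have a1 := congrFun h0 1
  have a2 := congrFun h0 2
  have b0 := congrFun h2 3
  have b1 := congrFun h2 4
  have b2 := congrFun h2 5
  simp [Matrix.mulVec, dotProduct, Fin.sum_univ_six, Matrix.mul_apply, Fin.sum_univ_three, Jm, up,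
    Matrix.one_apply] at a0 a1 a2
  simp [Matrix.mulVec, dotProduct, Fin.sum_univ_six, Matrix.mul_apply, Fin.sum_univ_three, Jm, lo,
    Matrix.one_apply] at b0 b1 b2
  funext i
  fin_cases i
  · exact a2
  · exact a1
  · exact a0
  · exact b2
  · exact b1
  · exact b0

theorem inj_true [CharZero k] (x : Fin 6 → k)
    (h0 : (Mq (mco true (1 : Matrix (Fin 6) (Fin 6) k)) 0).mulVec x = 0)
    (h1 : (Mq (mco true (1 : Matrix (Fin 6) (Fin 6) k)) 1).mulVec x = 0)
    (h2 : (Mq (mco true (1 : Matrix (Fin 6) (Fin 6) k)) 2).mulVec x = 0) : x = 0 := by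
  have e := mco_true (1 : Matrix (Fin 6) (Fin 6) k)
  have a0 := congrFun h0 0
  have a3 := congrFun h0 3
  have a5 := congrFun h0 5
  have b5 := congrFun h1 5
  have b3 := congrFun h1 3
  have c5 := congrFun h2 5
  simp [Matrix.mulVec, dotProduct, Fin.sum_univ_six, (e _ _).1, Matrix.one_apply] at a0 a3 a5
  simp [Matrix.mulVec, dotProduct, Fin.sum_univ_six, (e _ _).2.1, Matrix.one_apply] at b3 b5
  simp [Matrix.mulVec, dotProduct, Fin.sum_univ_six, (e _ _).2.2, Matrix.one_apply] at c5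
  funext i
  fin_cases i
  · exact a5
  · exact b5
  · exact c5
  · exact a3
  · exact b3
  · exact a0

theorem lco_zero (b : Bool) (g : Matrix (Fin 6) (Fin 6) k) :
    lco b g az = ldet b g 0 1 ![0, 1, 2] := by
  show (ldet b (g.map Polynomial.C) Polynomial.X 1 ![0, 1, 2]).coeff 0 = _
  rw [Polynomial.coeff_zero_eq_eval_zero]
  have h1 := ldet_map (Polynomial.evalRingHom (0 : k)) b (g.map Polynomial.C)
    (Polynomial.X : Polynomial k) 1 ![0, 1, 2]
  have h3 : (g.map Polynomial.C).map (Polynomial.evalRingHom (0 : k)) = g := by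
    ext i j
    simp
  rw [h3, map_one] at h1
  refine h1.trans ?_
  congr 1
  simp

theorem lco_one : lco false (1 : Matrix (Fin 6) (Fin 6) k) az = 1 := by
  rw [lco_zero]
  unfold ldet
  rw [Matrix.one_mul, Matrix.det_fin_three]
  simp [Eh]

theorem lco_fspec : lco true (fspec k).transpose az = 1 := by
  rw [lco_zero]
  unfold ldet
  rw [Matrix.det_fin_three]
  simp [Matrix.mul_apply, Fin.sum_univ_six, Eh, fspec]

theorem Pmin_one [CharZero k] : eval (Ph false (1 : Matrix (Fin 6) (Fin 6) k)) (Pmin k) ≠ 0 := by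
  rw [eval_Pmin]
  have h1 : Mv (Ph false (1 : Matrix (Fin 6) (Fin 6) k)) 0 =
      lco false (1 : Matrix (Fin 6) (Fin 6) k) az • Mq (mco false 1) 0 := rfl
  rw [h1, lco_one, one_smul, (mco_false (1 : Matrix (Fin 6) (Fin 6) k)).1, det_sub_mul, Jm_det]
  have h2 : (((1 : Matrix (Fin 6) (Fin 6) k).submatrix id up).submatrix up id) = 1 := by
    ext i j
    fin_cases i <;> fin_cases j <;> simp [up, Matrix.one_apply]
  rw [h2, Matrix.det_one]
  norm_num

theorem Mv_fspec (q : Fin 3) : Mv (Ph true (fspec k).transpose) q =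
    Mq (mco true (fspec k).transpose) q := by
  have h1 : Mv (Ph true (fspec k).transpose) q =
      lco true (fspec k).transpose az • Mq (mco true (fspec k).transpose) q := rfl
  rw [h1, lco_fspec, one_smul]

theorem Epoly_fspec [CharZero k] : eval (Ph true (fspec k).transpose) (Epoly k) ≠ 0 := by
  rw [eval_Epoly, Mv_fspec, Mv_fspec, Mv_fspec]
  obtain ⟨_, h⟩ := Pool.Agent.Y99.SM.stmE1 k
  have e := mco_true (fspec k).transpose
  have h0 : Mq (mco true (fspec k).transpose) 0 =
      Matrix.of fun i j => fspec k 0 i * fspec k 5 j + fspec k 5 i * fspec k 0 j -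
      2 * (fspec k 3 i * fspec k 3 j) := by
    ext i j
    exact (e i j).1
  have h1 : Mq (mco true (fspec k).transpose) 1 =
      Matrix.of fun i j => fspec k 1 i * fspec k 5 j + fspec k 5 i * fspec k 1 j -
      2 * (fspec k 3 i * fspec k 4 j + fspec k 4 i * fspec k 3 j) := by
    ext i j
    exact (e i j).2.1
  have h2 : Mq (mco true (fspec k).transpose) 2 =
      Matrix.of fun i j => fspec k 2 i * fspec k 5 j + fspec k 5 i * fspec k 2 j -
      2 * (fspec k 4 i * fspec k 4 j) := by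
    ext i j
    exact (e i j).2.2
  rw [h0, h1, h2]
  exact h

theorem Pmin_fspec [CharZero k] : eval (Ph true (fspec k).transpose) (Pmin k) ≠ 0 := by
  have h := Epoly_fspec (k := k)
  rw [eval_Epoly] at h
  rw [eval_Pmin]
  unfold Efun at h
  exact left_ne_zero_of_mul (left_ne_zero_of_mul h)

theorem det_fspec [CharZero k] : (fspec k).transpose.det ≠ 0 := by
  rw [Matrix.det_transpose]
  exact (Pool.Agent.Y99.SM.stmE1 k).1

/-- The polynomial `Epoly` vanishes on the first family. -/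
theorem Epoly_false [CharZero k] : ∀ z ∈ Fs k false, ∀ v, Rep z v → eval v (Epoly k) = 0 := by
  rintro z ⟨g, hg, hz⟩ v hv
  obtain ⟨c, hc, hcv⟩ := hz.exists_smul hv
  obtain ⟨e0, e1, e2⟩ := mco_false g
  have h1 : ∀ q, Mv v q = (c * lco false g az) • Mq (mco false g) q := by
    intro q
    rw [hcv]
    ext i j
    show c * (lco false g az * mco false g ((i, j), q)) = c * lco false g az * mco false g _
    ring
  rw [eval_Epoly, h1, h1, h1, e0, e1, e2]
  generalize c * lco false g az = r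
  generalize g.submatrix id up = C0
  generalize g.submatrix id lo = C1
  have h2 := Pool.Agent.Y99.SM.stmE0 k C0 C1 (r • Jm k) (by
    rw [Matrix.transpose_smul, Jm_symm])
  have h3 : ∀ P Q : Matrix (Fin 6) (Fin 3) k, P * (r • Jm k) * Q.transpose =
      r • (P * Jm k * Q.transpose) := by
    intro P Q
    rw [Matrix.mul_smul, Matrix.smul_mul]
  rw [h3, h3, h3, h3, ← smul_add] at h2
  exact h2

/-- The data of a curve with nonzero first minor. -/
theorem curve_data [IsAlgClosed k] [CharZero k] {γ : PP k Kap} (hM : γ ∈ MorBi (Xsym k) 3 2)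
    (h0 : eval γ.rep (Pmin k) ≠ 0) :
    ∃ (l : S3 × Fin 4 → k) (m : S2 × Fin 3 → k) (κ : k), Rep γ (fun x => l x.1 * m x.2) ∧
      CurveIn l (Mq m 0) (Mq m 1) (Mq m 2) ∧ κ ≠ 0 ∧
      (∀ (t : k) (a b : S3), ((Mt (Mq m 0) (Mq m 1) (Mq m 2) t).submatrix a b).det =
        κ * Lt l t a * Lt l t b) ∧ Full (Mq m 0) (Mq m 1) (Mq m 2) := by
  obtain ⟨l, m, hγ⟩ := hM.1
  have hc := curveIn hγ hM
  obtain ⟨κ, h1, h2⟩ := Pool.Agent.Y405.SM.stmKappa k l _ _ _ hc
  have hκ : κ ≠ 0 := by
    intro hκ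
    rw [Ne, ← zero_iff hγ Pmin_homog, eval_Pmin, Mv_prod] at h0
    apply h0
    have h3 := h1 0 up up
    rw [hκ, zero_mul, zero_mul] at h3
    have h4 : Mt (Mq m 0) (Mq m 1) (Mq m 2) 0 = Mq m 0 := by
      simp [Mt]
    rw [h4] at h3
    have h5 : (l az • Mq m 0).submatrix up up = l az • (Mq m 0).submatrix up up := rfl
    rw [h5, Matrix.det_smul, h3, mul_zero]
  exact ⟨l, m, κ, hγ, hc, hκ, h1, full_of hc hκ h1 h2⟩

/-- The first family gives an irreducible component. -/
theorem comp_false [IsAlgClosed k] [CharZero k] :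
    (Subtype.val ⁻¹' closure (Fs k false) : Set (MorBi (Xsym k) 3 2)) ∈
      irreducibleComponents (MorBi (Xsym k) 3 2) := by
  haveI : Infinite k := IsAlgClosed.instInfinite
  obtain ⟨n, P, hP, hP0, hPv⟩ := sep_ex (k := k) ![0, 2] false (fun x hx => inj_false x (hx 0) (hx 1))
  refine comp_of_open (MorBi (Xsym k) 3 2) (Fs k false)
    ({p | eval p.rep (Pmin k) ≠ 0} ∩ {p | eval p.rep P ≠ 0}) (Fs_sub false)
    (Fs_irreducible false) ((isOpen_basic Pmin_homog).inter (isOpen_basic hP)) ?_ ?_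
  · rintro γ ⟨⟨h1, h2⟩, hM⟩
    obtain ⟨l, m, κ, hγ, hc, hκ, hk, hF⟩ := curve_data hM h1
    refine mem_Fs false hγ hc hκ hk (class0 hF ?_)
    intro x hx0 hx2
    by_contra hx
    apply h2
    rw [← zero_iff hγ hP]
    apply hPv l m x hx
    intro e
    fin_cases e
    · exact hx0
    · exact hx2
  · obtain ⟨γ, hγ⟩ := exists_rep (Ph_ne_zero false (1 : Matrix (Fin 6) (Fin 6) k) (by simp))
    refine ⟨γ, ⟨?_, ?_⟩, 1, by simp, hγ⟩
    · show eval γ.rep (Pmin k) ≠ 0
      rw [Ne, ← zero_iff hγ Pmin_homog]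
      exact Pmin_one
    · show eval γ.rep P ≠ 0
      rw [Ne, ← zero_iff hγ hP]
      exact hP0

/-- A homogeneous polynomial which vanishes on the first family but not on the second one. -/
theorem exists_E [IsAlgClosed k] [CharZero k] :
    ∃ (m : ℕ) (Q : MvPolynomial Kap k), Q.IsHomogeneous m ∧
      eval (Ph true (fspec k).transpose) Q ≠ 0 ∧ ∀ z ∈ Fs k false, eval z.rep Q = 0 := by
  haveI : Infinite k := IsAlgClosed.instInfinite
  exact exists_comp Epoly_false Epoly_fspec

/-- The second family gives an irreducible component. -/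
theorem comp_true [IsAlgClosed k] [CharZero k] :
    (Subtype.val ⁻¹' closure (Fs k true) : Set (MorBi (Xsym k) 3 2)) ∈
      irreducibleComponents (MorBi (Xsym k) 3 2) := by
  haveI : Infinite k := IsAlgClosed.instInfinite
  obtain ⟨n, P, hP, hP0, hPv⟩ := sep_ex (k := k) ![0, 1, 2] true
    (fun x hx => inj_true x (hx 0) (hx 1) (hx 2))
  obtain ⟨r, Q, hQ, hQ0, hQz⟩ := exists_E (k := k)
  have hPQ : (Pmin k * Q).IsHomogeneous (3 + r) := Pmin_homog.mul hQ
  refine comp_of_open (MorBi (Xsym k) 3 2) (Fs k true)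
    ({p | eval p.rep (Pmin k * Q) ≠ 0} ∩ {p | eval p.rep P ≠ 0}) (Fs_sub true)
    (Fs_irreducible true) ((isOpen_basic hPQ).inter (isOpen_basic hP)) ?_ ?_
  · rintro γ ⟨⟨h1, h2⟩, hM⟩
    rw [Set.mem_setOf_eq, map_mul] at h1
    obtain ⟨l, m, κ, hγ, hc, hκ, hk, hF⟩ := curve_data hM (left_ne_zero_of_mul h1)
    refine mem_Fs true hγ hc hκ hk (class1 hF ?_ ?_)
    · by_contra hcon
      push Not at hcon
      apply right_ne_zero_of_mul h1
      apply hQz
      refine mem_Fs false hγ hc hκ hk (class0 hF ?_)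
      intro x hx0 hx2
      by_contra hx
      exact hcon x hx hx0 hx2
    · intro x hx0 hx1 hx2
      by_contra hx
      apply h2
      rw [← zero_iff hγ hP]
      apply hPv l m x hx
      intro e
      fin_cases e
      · exact hx0
      · exact hx1
      · exact hx2
  · obtain ⟨γ, hγ⟩ := exists_rep (Ph_ne_zero true (1 : Matrix (Fin 6) (Fin 6) k) (by simp))
    obtain ⟨γ', hγ'⟩ := exists_rep (Ph_ne_zero true (fspec k).transpose det_fspec)
    obtain ⟨p, hp, h1, h2⟩ := exists_both (Fs_irreducible (k := k) true).2 hPQ hP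
      ⟨γ', ⟨_, det_fspec, hγ'⟩, by
        rw [Ne, ← zero_iff hγ' hPQ, map_mul]
        exact mul_ne_zero Pmin_fspec hQ0⟩
      ⟨γ, ⟨1, by simp, hγ⟩, by
        rw [Ne, ← zero_iff hγ hP]
        exact hP0⟩
    exact ⟨p, ⟨h1, h2⟩, hp⟩

/-- The two components are different. -/
theorem comp_ne [IsAlgClosed k] [CharZero k] :
    (Subtype.val ⁻¹' closure (Fs k false) : Set (MorBi (Xsym k) 3 2)) ≠
      Subtype.val ⁻¹' closure (Fs k true) := by
  haveI : Infinite k := IsAlgClosed.instInfinite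
  intro h
  obtain ⟨γ', hγ'⟩ := exists_rep (Ph_ne_zero true (fspec k).transpose det_fspec)
  have hmem : γ' ∈ Fs k true := ⟨_, det_fspec, hγ'⟩
  have h1 : (⟨γ', Fs_sub true hmem⟩ : MorBi (Xsym k) 3 2) ∈
      (Subtype.val ⁻¹' closure (Fs k true) : Set (MorBi (Xsym k) 3 2)) := subset_closure hmem
  rw [← h] at h1
  obtain ⟨r, Q, hQ, hQ0, hQz⟩ := exists_E (k := k)
  apply hQ0
  rw [zero_iff hγ' hQ]
  exact (mem_closure_iff' _ _).1 h1 r Q hQ hQz

end

end Pool.Agent.Y166.SM
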