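import Mathlib
import Pool.Agent.Y166.SM.CompC
import Pool.Agent.Y894.SM.Chart

/-!
# The variety of symmetric matrices is a projective variety with two Manin components in a class
-/

set_option autoImplicit false
set_option linter.unusedSectionVars false
set_option linter.deprecated false
set_option linter.style.haveILetI false

namespace Pool.Agent.Y166.SM

open MvPolynomial Pool.Agent.Y166.GM

section
variable {k : Type} [Field k]

theorem Xsym_irreducible [IsAlgClosed k] [CharZero k] : IsIrreducible (Xsym k) := by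
  haveI : Infinite k := IsAlgClosed.instInfinite
  have hpt : ∀ (P : MvPolynomial (S3 × S2) k) (c : Fin 6 × Fin 3 → k),
      eval c (aeval (pt (Cgen k) (Jm _)) P) =
        eval (pt (Matrix.of fun i j => c (i, j)) (Jm k)) P := by
    intro P c
    rw [eval_aeval]
    congr 1
    congr 1
    funext j
    exact eval_psi c j
  refine ⟨?_, ?_⟩
  · obtain ⟨B, hB⟩ := exists_left (k := k) false ![1, 0] (by
      intro h
      have := congrFun h 0
      simp at this)
    obtain ⟨z, hz⟩ := exists_rep (pt_ne_zero _ B hB)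
    exact ⟨z, _, _, Jm_symm, hz⟩
  · apply isPreirreducible_of
    rintro m n P Q hP hQ ⟨p, hpX, hp⟩ ⟨q, hqX, hq⟩
    have hP1 : aeval (pt (Cgen k) (Jm _)) P ≠ 0 := fun h =>
      hp (dense_J Pool.Agent.Y110.SM.stmNF m P hP h p hpX)
    have hQ1 : aeval (pt (Cgen k) (Jm _)) Q ≠ 0 := fun h =>
      hq (dense_J Pool.Agent.Y110.SM.stmNF n Q hQ h q hqX)
    have hne : ∃ i j, pt (Cgen k) (Jm _) (i, j) ≠ 0 := by
      by_contra hcon
      push Not at hcon
      obtain ⟨z, hz⟩ : ∃ z, z ∈ Xsym k := ⟨p, hpX⟩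
      have h1 : z.rep = 0 := by
        funext j
        have h2 := dense_J Pool.Agent.Y110.SM.stmNF 1 (X j) (isHomogeneous_X _ _) (by
          rw [aeval_X]
          exact hcon j.1 j.2) z hz
        rwa [eval_X] at h2
      exact z.rep_nonzero h1
    obtain ⟨i, j, hij⟩ := hne
    obtain ⟨c, hc⟩ := exists_eval_ne (mul_ne_zero (mul_ne_zero hij hP1) hQ1)
    rw [map_mul, map_mul, hpt, hpt] at hc
    have hc1 := left_ne_zero_of_mul (left_ne_zero_of_mul hc)
    have hc2 := right_ne_zero_of_mul (left_ne_zero_of_mul hc)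
    have hc3 := right_ne_zero_of_mul hc
    rw [eval_psi] at hc1
    obtain ⟨z, hz⟩ := exists_rep (v := pt (Matrix.of fun i j => c (i, j)) (Jm k)) (by
      intro h
      rw [h] at hc1
      exact hc1 rfl)
    refine ⟨z, ⟨_, _, Jm_symm, hz⟩, ?_, ?_⟩
    · rw [Ne, ← zero_iff hz hP]
      exact hc2
    · rw [Ne, ← zero_iff hz hQ]
      exact hc3

theorem Xsym_projVar [IsAlgClosed k] [CharZero k] : IsProjVar (Xsym k) :=
  ⟨Pool.Agent.Y894.SM.stmClosed k, Xsym_irreducible⟩

/-- The two irreducible components. -/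
def Mcomp (k : Type) [Field k] (b : Bool) : Set (MorBi (Xsym k) 3 2) :=
  Subtype.val ⁻¹' closure (Fs k b)

theorem Mcomp_mem [IsAlgClosed k] [CharZero k] (b : Bool) :
    Mcomp k b ∈ irreducibleComponents (MorBi (Xsym k) 3 2) := by
  cases b
  · exact comp_false
  · exact comp_true

theorem Mcomp_ne [IsAlgClosed k] [CharZero k] : Mcomp k false ≠ Mcomp k true := comp_ne

theorem Mcomp_fac [IsAlgClosed k] [CharZero k] (b : Bool) {n : ℕ}
    {Y : Set (PP k (Fin (n + 1)))} (hY : IsProjVar Y)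
    {f : PP k (Fin (n + 1)) → PP k (S3 × S2)} (hf : IsMorphism Y f)
    (hfZ : Set.MapsTo f Y (Xsym k)) (hT : Thin Y (Xsym k) f) : ¬ FactorsRat (Mcomp k b) Y f :=
  fun h => hT.2 (fam_main b hY hf hfZ hT.1 h)

theorem Mcomp_manin [IsAlgClosed k] [CharZero k] (b : Bool) (I : Invariants (Xsym k)) :
    Mcomp k b ∈ maninComponents I 3 2 :=
  ⟨Mcomp_mem b, fun _ _ _ hY hf hfZ hE => Mcomp_fac b hY hf hfZ hE.1⟩

end

end Pool.Agent.Y166.SM
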