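import Mathlib
import Pool.Agent.Y166.SM.Stm

/-!
# Varieties covered by affine spaces
-/

set_option autoImplicit false
set_option linter.unusedSectionVars false

namespace Pool.Agent.Y166.SM

open MvPolynomial Pool.Agent.Y166.GM

/-- The subset `Z` of a projective space is covered by open subsets isomorphic to the affine space of
dimension `d` (in particular it is smooth of dimension `d`): every point of `Z` lies in an open
subset `{z ∈ Z | z j₀ ≠ 0}` on which the quotients of the homogeneous coordinates by the coordinate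
`j₀` are polynomials `ψ j` in `d` of these quotients, and these `d` quotients take arbitrary
values. -/
def CoveredByAffine {k : Type} [Field k] {σ : Type} (Z : Set (PP k σ)) (d : ℕ) : Prop :=
  ∀ x ∈ Z, ∃ (j₀ : σ) (ρ : Fin d → σ) (ψ : σ → MvPolynomial (Fin d) k),
    x.rep j₀ ≠ 0 ∧ ψ j₀ = 1 ∧ (∀ i, ψ (ρ i) = X i) ∧
    (∀ c : Fin d → k, ∃ z ∈ Z, Rep z (fun j => eval c (ψ j))) ∧
    ∀ z ∈ Z, ∀ v : σ → k, Rep z v → v j₀ ≠ 0 →
      ∀ j, v j = v j₀ * eval (fun i => v (ρ i) / v j₀) (ψ j)

/-- The variety `Xsym` is covered by affine spaces of dimension `14`. -/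
def StmAff : Prop := ∀ (k : Type) [Field k], CoveredByAffine (Xsym k) 14

end Pool.Agent.Y166.SM
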